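import Mathlib

/-!
# Project HK (helper28): roots: the binomial series modulo a power, and the closest root
-/

set_option autoImplicit false
set_option linter.unusedSectionVars false

open Polynomial

namespace Pool.Agent.Run7.h28.HK

/-- the truncated binomial series -/
theorem exists_P (p q : ℕ) (hq : 0 < q) (J : ℕ) : ∃ P Q : ℚ[X], P.coeff 0 = 1 ∧
    P ^ q = (1 + X) ^ p + X ^ (J + 1) * Q := by
  induction J with
  | zero =>
    have h1 : (X : ℚ[X]) ∣ 1 - (1 + X) ^ p := by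
      rw [X_dvd_iff, coeff_zero_eq_eval_zero]
      simp
    obtain ⟨Q, hQ⟩ := h1
    refine ⟨1, Q, by simp, ?_⟩
    rw [one_pow, zero_add, pow_one, ← hQ]
    ring
  | succ J ih =>
    obtain ⟨P, Q, h0, h⟩ := ih
    obtain ⟨c, hc⟩ : ∃ c : ℚ, c = -(Q.coeff 0) / q := ⟨_, rfl⟩
    have hq0 : (q : ℚ) ≠ 0 := by exact_mod_cast hq.ne'
    obtain ⟨Z, hZ⟩ : ∃ Z : ℚ[X], (P + C c * X ^ (J + 1)) ^ q =
        P ^ q + (C c * X ^ (J + 1)) * ((q : ℚ[X]) * P ^ (q - 1)) + (C c * X ^ (J + 1)) ^ 2 * Z := by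
      obtain ⟨n, rfl⟩ : ∃ n, q = n + 1 := ⟨q - 1, by omega⟩
      clear hc h hq0
      generalize C c * X ^ (J + 1) = Y
      clear hq
      rw [Nat.add_sub_cancel]
      induction n with
      | zero => exact ⟨0, by simp⟩
      | succ n ihn =>
        obtain ⟨Z, hZ⟩ := ihn
        refine ⟨(n + 1) * P ^ n + Z * P + Y * Z, ?_⟩
        rw [pow_succ, hZ]
        push_cast
        ring
    have h1 : (X : ℚ[X]) ∣ Q + C c * ((q : ℚ[X]) * P ^ (q - 1)) + X ^ (J + 1) * (C c ^ 2 * Z) -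
        X ^ (J + 1) * (C c ^ 2 * Z) := by
      rw [add_sub_cancel_right, X_dvd_iff]
      have h2 : (P ^ (q - 1)).coeff 0 = 1 := by
        rw [coeff_zero_eq_eval_zero, eval_pow, ← coeff_zero_eq_eval_zero, h0, one_pow]
      have h3 : (C c * ((q : ℚ[X]) * P ^ (q - 1))).coeff 0 = c * q := by
        rw [coeff_C_mul, mul_coeff_zero, h2, mul_one]
        simp
      rw [coeff_add, h3, hc]
      field_simp
      ring
    obtain ⟨Q', hQ'⟩ := h1
    rw [add_sub_cancel_right] at hQ'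
    refine ⟨P + C c * X ^ (J + 1), Q' + X ^ J * (C c ^ 2 * Z), ?_, ?_⟩
    · rw [coeff_add, h0, coeff_C_mul, coeff_X_pow, if_neg (by omega)]
      ring
    · rw [hZ, h]
      linear_combination X ^ (J + 1) * hQ'

section

variable {L : Type} [Field L] [CharZero L] (av : AbsoluteValue L ℝ)

lemma exists_pos_le {ι : Type} [DecidableEq ι] (A : Finset ι) (f : ι → ℝ) (h : ∀ i ∈ A, 0 < f i) :
    ∃ c : ℝ, 0 < c ∧ ∀ i ∈ A, c ≤ f i := by
  induction A using Finset.induction_on with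
  | empty => exact ⟨1, one_pos, fun i hi => absurd hi (Finset.notMem_empty _)⟩
  | insert a A ha ih =>
    obtain ⟨c, hc, h1⟩ := ih fun i hi => h i (Finset.mem_insert_of_mem hi)
    refine ⟨min c (f a), lt_min hc (h a (Finset.mem_insert_self _ _)), fun i hi => ?_⟩
    rcases Finset.mem_insert.1 hi with rfl | hi
    · exact min_le_right _ _
    · exact (min_le_left _ _).trans (h1 i hi)

/-- **The closest root.** -/
theorem closest (n : ℕ) (ζ : L) (hζ : IsPrimitiveRoot ζ (n + 1)) : ∃ c : ℝ, 0 < c ∧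
    ∀ R y : L, ∃ z : L, z ^ (n + 1) = 1 ∧
      av (R - z * y) * (c * av y) ^ n ≤ av (R ^ (n + 1) - y ^ (n + 1)) := by
  classical
  set Z : Finset L := nthRootsFinset (n + 1) (1 : L) with hZ
  have hcard : Z.card = n + 1 := hζ.card_nthRootsFinset
  obtain ⟨c, hc, h1⟩ := exists_pos_le ((Z ×ˢ Z).filter fun p => p.1 ≠ p.2)
    (fun p => av (p.1 - p.2)) (by
      intro p hp
      rw [Finset.mem_filter] at hp
      exact av.pos (sub_ne_zero.2 hp.2))
  refine ⟨c / 2, by positivity, fun R y => ?_⟩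
  have hne : Z.Nonempty := by
    rw [← Finset.card_pos, hcard]
    omega
  obtain ⟨z, hz, hmin⟩ := Finset.exists_min_image Z (fun z => av (R - z * y)) hne
  refine ⟨z, ?_, ?_⟩
  · rw [hZ, mem_nthRootsFinset (Nat.succ_pos n)] at hz
    exact hz
  rw [hζ.pow_sub_pow_eq_prod_sub_mul R y (Nat.succ_pos n), map_prod, ← hZ,
    ← Finset.mul_prod_erase Z _ hz]
  refine mul_le_mul_of_nonneg_left ?_ (av.nonneg _)
  have hcard' : (Z.erase z).card = n := by
    rw [Finset.card_erase_of_mem hz, hcard, Nat.add_sub_cancel]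
  calc (c / 2 * av y) ^ n = ∏ _w ∈ Z.erase z, (c / 2 * av y) := by
        rw [Finset.prod_const, hcard']
    _ ≤ ∏ w ∈ Z.erase z, av (R - w * y) := by
        refine Finset.prod_le_prod (fun w _ => by positivity) fun w hw => ?_
        have hw1 := Finset.ne_of_mem_erase hw
        have hw2 := Finset.mem_of_mem_erase hw
        have h2 := h1 (z, w) (by
          rw [Finset.mem_filter, Finset.mem_product]
          exact ⟨⟨hz, hw2⟩, hw1.symm⟩)
        have h3 := hmin w hw2
        have h4 : av ((z - w) * y) ≤ av (R - w * y) + av (R - z * y) := by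
          have h5 : (z - w) * y = (R - w * y) - (R - z * y) := by ring
          rw [h5]
          refine (av.sub_le_add _ _)
        rw [map_mul] at h4
        have h6 : c * av y ≤ av (z - w) * av y := mul_le_mul_of_nonneg_right h2 (av.nonneg _)
        linarith

/-- a bound for the values of a polynomial at the elements of the unit disc -/
lemma poly_bound (Q : ℚ[X]) : ∃ C : ℝ, 0 < C ∧ ∀ z : L, av z ≤ 1 → av (aeval z Q) ≤ C := by
  refine ⟨∑ i ∈ Finset.range (Q.natDegree + 1), av (algebraMap ℚ L (Q.coeff i)) + 1,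
    by positivity, fun z hz => ?_⟩
  rw [aeval_eq_sum_range]
  refine (av.sum_le _ _).trans ?_
  refine (Finset.sum_le_sum fun i _ => ?_).trans (le_add_of_nonneg_right zero_le_one)
  rw [Algebra.smul_def, map_mul, map_pow]
  exact mul_le_of_le_one_right (av.nonneg _) (pow_le_one₀ (av.nonneg _) hz)

/-- the power of the truncated binomial series -/
lemma root_pow (p q J : ℕ) (P Q : ℚ[X]) (h : P ^ q = (1 + X) ^ p + X ^ (J + 1) * Q)
    (V w : L) (hV : V ≠ 0) :
    (V ^ p * aeval (w / V ^ q) P) ^ q - (V ^ q + w) ^ p =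
      (V ^ q) ^ p * ((w / V ^ q) ^ (J + 1) * aeval (w / V ^ q) Q) := by
  have h1 := congrArg (aeval (w / V ^ q)) h
  simp only [map_add, map_mul, map_pow, map_one, aeval_X] at h1
  have hVq : V ^ q ≠ 0 := pow_ne_zero _ hV
  have h2 : V ^ q + w = V ^ q * (1 + w / V ^ q) := by
    field_simp
  rw [mul_pow, h1, h2, mul_pow, ← pow_mul, ← pow_mul, mul_comm p q]
  ring

theorem root_close (p q : ℕ) (J : ℕ) (P Q : ℚ[X])
    (h : P ^ q = (1 + X) ^ p + X ^ (J + 1) * Q) : ∃ C : ℝ, 0 < C ∧ ∀ (V w : L), V ≠ 0 →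
      ∀ r : ℝ, r ≤ 1 → av w ≤ r * av (V ^ q) →
        av ((V ^ p * aeval (w / V ^ q) P) ^ q - (V ^ q + w) ^ p) ≤
          C * (av (V ^ q) ^ p * r ^ (J + 1)) := by
  obtain ⟨C, hC, h1⟩ := poly_bound av Q
  refine ⟨C, hC, fun V w hV r hr hw => ?_⟩
  have hVq : 0 < av (V ^ q) := av.pos (pow_ne_zero _ hV)
  have h2 : av (w / V ^ q) ≤ r := by
    rw [map_div₀, div_le_iff₀ hVq]
    exact hw
  have hr0 : 0 ≤ r := (av.nonneg _).trans h2
  have e1 : av ((V ^ q) ^ p * ((w / V ^ q) ^ (J + 1) * aeval (w / V ^ q) Q)) =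
      av (V ^ q) ^ p * (av (w / V ^ q) ^ (J + 1) * av (aeval (w / V ^ q) Q)) := by
    rw [map_mul, map_mul, map_pow av (V ^ q) p, map_pow av (w / V ^ q) (J + 1)]
  rw [root_pow p q J P Q h V w hV, e1]
  have h3 : av (w / V ^ q) ^ (J + 1) ≤ r ^ (J + 1) := pow_le_pow_left₀ (av.nonneg _) h2 _
  have h4 := h1 _ (h2.trans hr)
  calc av (V ^ q) ^ p * (av (w / V ^ q) ^ (J + 1) * av (aeval (w / V ^ q) Q)) ≤
      av (V ^ q) ^ p * (r ^ (J + 1) * C) := by
        refine mul_le_mul_of_nonneg_left ?_ (by positivity)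
        exact mul_le_mul h3 h4 (av.nonneg _) (by positivity)
    _ = C * (av (V ^ q) ^ p * r ^ (J + 1)) := by ring

end

end Pool.Agent.Run7.h28.HK
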