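import Mathlib

/-!
# Project HK (helper28): weights which separate the monomials modulo a subfield closed under roots

The proofs are those of `Pool.Agent.TH551.SU.WT` and `Pool.Agent.TH551.HA.FW`, for any subfield of any field.
-/

set_option autoImplicit false

namespace Pool.Agent.Run7.h28.HK

variable {G : Type} [Field G] {F : Subfield G}

/-- the subfield is closed under roots -/
def Rt (F : Subfield G) : Prop := ∀ (g : G) (m : ℕ), m ≠ 0 → g ^ m ∈ F → g ∈ F

/-- the cast of an integer vector -/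
def cst {r : ℕ} (z : Fin r → ℤ) : Fin r → ℚ := fun j => (z j : ℚ)

theorem cst_inj {r : ℕ} {z z' : Fin r → ℤ} (h : cst z = cst z') : z = z' := by
  funext j
  have := congrFun h j
  unfold cst at this
  exact_mod_cast this

/-- monomials -/
noncomputable def mon {r : ℕ} (u : Fin r → G) (z : Fin r → ℤ) : G := ∏ j, u j ^ (z j)

theorem mon_add {r : ℕ} {u : Fin r → G} (hu : ∀ j, u j ≠ 0) (z z' : Fin r → ℤ) :
    mon u (fun j => z j + z' j) = mon u z * mon u z' := by
  unfold mon
  rw [← Finset.prod_mul_distrib]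
  exact Finset.prod_congr rfl fun j _ => zpow_add₀ (hu j) _ _

theorem mon_mul {r : ℕ} (u : Fin r → G) (z : Fin r → ℤ) (k : ℤ) :
    mon u (fun j => k * z j) = mon u z ^ k := by
  unfold mon
  rw [← Finset.prod_zpow]
  refine Finset.prod_congr rfl fun j _ => ?_
  show u j ^ (k * z j) = _
  rw [mul_comm, zpow_mul]

theorem mon_sub {r : ℕ} {u : Fin r → G} (hu : ∀ j, u j ≠ 0) (z z' : Fin r → ℤ) :
    mon u (fun j => z j - z' j) = mon u z / mon u z' := by
  unfold mon
  rw [← Finset.prod_div_distrib]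
  exact Finset.prod_congr rfl fun j _ => zpow_sub₀ (hu j) _ _

theorem mon_single {r : ℕ} (u : Fin r → G) (j : Fin r) :
    mon u (fun i => if i = j then 1 else 0) = u j := by
  unfold mon
  rw [Finset.prod_eq_single j]
  · simp
  · intro i _ hi
    show u i ^ (if i = j then (1 : ℤ) else 0) = 1
    rw [if_neg hi, zpow_zero]
  · intro h
    exact absurd (Finset.mem_univ j) h

/-- the span of the relations -/
noncomputable def Wsp (F : Subfield G) {r : ℕ} (u : Fin r → G) :
    Submodule ℚ (Fin r → ℚ) :=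
  Submodule.span ℚ {x | ∃ z : Fin r → ℤ, x = cst z ∧ mon u z ∈ F}

theorem Wsp_mul {r : ℕ} {u : Fin r → G} (hu : ∀ j, u j ≠ 0) {x : Fin r → ℚ}
    (hx : x ∈ Wsp F u) :
    ∃ N : ℕ, N ≠ 0 ∧ ∃ z : Fin r → ℤ, cst z = (N : ℚ) • x ∧ mon u z ∈ F := by
  unfold Wsp at hx
  induction hx using Submodule.span_induction with
  | mem x hx =>
    obtain ⟨z, rfl, hz⟩ := hx
    exact ⟨1, one_ne_zero, z, by simp, hz⟩
  | zero =>
    refine ⟨1, one_ne_zero, fun _ => 0, ?_, ?_⟩
    · funext j
      simp [cst]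
    · have : mon u (fun _ => 0) = 1 := by simp [mon]
      rw [this]
      exact F.one_mem
  | add x y _ _ ihx ihy =>
    obtain ⟨N, hN, z, hz, hzK⟩ := ihx
    obtain ⟨N', hN', z', hz', hzK'⟩ := ihy
    refine ⟨N * N', mul_ne_zero hN hN', fun j => (N' : ℤ) * z j + (N : ℤ) * z' j, ?_, ?_⟩
    · funext j
      have h1 := congrFun hz j
      have h2 := congrFun hz' j
      unfold cst at *
      simp only [Pi.smul_apply, Pi.add_apply, smul_eq_mul] at *
      push_cast
      rw [h1, h2]
      ring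
    · rw [mon_add hu (fun j => (N' : ℤ) * z j) (fun j => (N : ℤ) * z' j), mon_mul, mon_mul]
      exact F.mul_mem (F.zpow_mem hzK _) (F.zpow_mem hzK' _)
  | smul a x _ ih =>
    obtain ⟨N, hN, z, hz, hzK⟩ := ih
    refine ⟨a.den * N, mul_ne_zero a.den_ne_zero hN, fun j => a.num * z j, ?_, ?_⟩
    · funext j
      have h1 := congrFun hz j
      unfold cst at *
      simp only [Pi.smul_apply, smul_eq_mul] at *
      push_cast
      rw [h1]
      have h2 : (a.num : ℚ) = a * a.den := (Rat.mul_den_eq_num a).symm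
      rw [h2]
      ring
    · rw [mon_mul]
      exact F.zpow_mem hzK _

/-- an integer vector in the span is a relation -/
theorem Wsp_int (hF : Rt F) {r : ℕ} {u : Fin r → G}
    (hu : ∀ j, u j ≠ 0) {z : Fin r → ℤ} (hz : cst z ∈ Wsp F u) : mon u z ∈ F := by
  obtain ⟨N, hN, z', h1, h2⟩ := Wsp_mul hu hz
  have h3 : z' = fun j => (N : ℤ) * z j := by
    apply cst_inj
    rw [h1]
    funext j
    simp [cst]
  rw [h3, mon_mul, zpow_natCast] at h2
  exact hF _ N hN h2

theorem wtE (hF : Rt F) (r : ℕ) (u : Fin r → G) (hu : ∀ j, u j ≠ 0) :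
    ∃ l : Fin r → ℕ,
      (∀ α β : Fin r → ℕ, ∑ j, α j = ∑ j, β j →
        (∏ j, u j ^ (α j)) / (∏ j, u j ^ (β j)) ∈ F → ∑ j, α j * l j = ∑ j, β j * l j) ∧
      ∀ j j', l j = l j' → u j / u j' ∈ F := by
  classical
  -- the functional
  obtain ⟨f, hf⟩ := Module.exists_dual_forall_apply_ne_zero (K := ℚ)
    (M := (Fin r → ℚ) ⧸ Wsp F u)
    (fun p : {p : Fin r × Fin r // u p.1 / u p.2 ∉ F} =>
      (Wsp F u).mkQ (cst fun i => (if i = p.1.1 then 1 else 0) - (if i = p.1.2 then 1 else 0)))
    (by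
      rintro ⟨⟨j, j'⟩, hp⟩ h0
      rw [Submodule.mkQ_apply, Submodule.Quotient.mk_eq_zero] at h0
      have h1 := Wsp_int hF hu h0
      rw [mon_sub hu, mon_single, mon_single] at h1
      exact hp h1)
  obtain ⟨lam, hlam⟩ : ∃ lam : (Fin r → ℚ) →ₗ[ℚ] ℚ, lam = f.comp (Wsp F u).mkQ := ⟨_, rfl⟩
  have hlam0 : ∀ x ∈ Wsp F u, lam x = 0 := by
    intro x hx
    rw [hlam, LinearMap.comp_apply, Submodule.mkQ_apply, (Submodule.Quotient.mk_eq_zero _).2 hx,
      map_zero]
  obtain ⟨q, hq⟩ : ∃ q : Fin r → ℚ, q = fun j => lam (Pi.single j 1) := ⟨_, rfl⟩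
  have hlamx : ∀ x : Fin r → ℚ, lam x = ∑ j, x j * q j := by
    intro x
    rw [LinearMap.pi_apply_eq_sum_univ lam x]
    refine Finset.sum_congr rfl fun j _ => ?_
    rw [smul_eq_mul, hq]
    congr 2
    funext i
    rw [Pi.single_apply]
    simp [eq_comm]
  -- common denominator
  obtain ⟨D, hD⟩ : ∃ D : ℕ, D = ∏ j, (q j).den := ⟨_, rfl⟩
  have hD0 : D ≠ 0 := by
    rw [hD]
    exact Finset.prod_ne_zero_iff.2 fun j _ => (q j).den_ne_zero
  have hD0' : (D : ℚ) ≠ 0 := by exact_mod_cast hD0
  have hc : ∀ j, ∃ c : ℤ, (c : ℚ) = D * q j := by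
    intro j
    obtain ⟨e, he⟩ : (q j).den ∣ D := by
      rw [hD]
      exact Finset.dvd_prod_of_mem _ (Finset.mem_univ j)
    refine ⟨e * (q j).num, ?_⟩
    rw [he]
    push_cast
    have h2 : ((q j).num : ℚ) = q j * (q j).den := (Rat.mul_den_eq_num (q j)).symm
    rw [h2]
    ring
  choose c hc using hc
  obtain ⟨T, hT⟩ : ∃ T : ℕ, T = ∑ j, (c j).natAbs := ⟨_, rfl⟩
  have hcT : ∀ j, 0 ≤ c j + T := by
    intro j
    have h1 : (c j).natAbs ≤ T := by
      rw [hT]
      exact Finset.single_le_sum (f := fun j => (c j).natAbs) (fun _ _ => Nat.zero_le _)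
        (Finset.mem_univ j)
    omega
  refine ⟨fun j => (c j + T).toNat, ?_, ?_⟩
  · intro α β hαβ h
    have h1 : (cst fun j => (α j : ℤ) - (β j : ℤ)) ∈ Wsp F u := by
      apply Submodule.subset_span
      refine ⟨_, rfl, ?_⟩
      rw [mon_sub hu]
      unfold mon
      simp only [zpow_natCast]
      exact h
    have h2 := hlam0 _ h1
    rw [hlamx] at h2
    have h3 : ∑ j, ((α j : ℤ) - (β j : ℤ)) * c j = 0 := by
      have h4 : ((∑ j, ((α j : ℤ) - (β j : ℤ)) * c j : ℤ) : ℚ) =
          D * ∑ j, (cst fun j => (α j : ℤ) - (β j : ℤ)) j * q j := by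
        push_cast
        rw [Finset.mul_sum]
        refine Finset.sum_congr rfl fun j _ => ?_
        rw [hc j]
        unfold cst
        push_cast
        ring
      rw [h2, mul_zero] at h4
      exact_mod_cast h4
    have h5 : ((∑ j, α j : ℕ) : ℤ) = ((∑ j, β j : ℕ) : ℤ) := by rw [hαβ]
    have h6 : ((∑ j, α j * (c j + T).toNat : ℕ) : ℤ) =
        ((∑ j, β j * (c j + T).toNat : ℕ) : ℤ) := by
      push_cast at h5 ⊢
      have h7 : ∀ j, (((c j + (T : ℤ)).toNat : ℕ) : ℤ) = c j + T := fun j =>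
        Int.toNat_of_nonneg (hcT j)
      simp only [h7]
      have h8 : ∑ j, (α j : ℤ) * (c j + T) - ∑ j, (β j : ℤ) * (c j + T) =
          ∑ j, ((α j : ℤ) - (β j : ℤ)) * c j + (∑ j, (α j : ℤ) - ∑ j, (β j : ℤ)) * T := by
        rw [← Finset.sum_sub_distrib, ← Finset.sum_sub_distrib, Finset.sum_mul,
          ← Finset.sum_add_distrib]
        refine Finset.sum_congr rfl fun j _ => ?_
        ring
      rw [h3, h5, sub_self, zero_mul, add_zero] at h8
      linarith
    exact_mod_cast h6
  · intro j j' hl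
    by_contra hcon
    have h1 : c j = c j' := by
      have h2 := hcT j
      have h3 := hcT j'
      have h4 : (c j + (T : ℤ)).toNat = (c j' + (T : ℤ)).toNat := hl
      omega
    have h2 : q j = q j' := by
      have h3 : (D : ℚ) * q j = D * q j' := by rw [← hc, ← hc, h1]
      exact mul_left_cancel₀ hD0' h3
    apply hf ⟨(j, j'), hcon⟩
    have h3 : f ((Wsp F u).mkQ (cst fun i => (if i = j then 1 else 0) -
        (if i = j' then 1 else 0))) = lam (cst fun i => (if i = j then 1 else 0) -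
        (if i = j' then 1 else 0)) := by rw [hlam]; rfl
    show f ((Wsp F u).mkQ (cst fun i => (if i = j then 1 else 0) -
        (if i = j' then 1 else 0))) = 0
    rw [h3, hlamx]
    have h4 : ∀ i, (cst fun i => (if i = j then 1 else 0) - (if i = j' then 1 else 0)) i * q i =
        (if i = j then q i else 0) - (if i = j' then q i else 0) := by
      intro i
      unfold cst
      push_cast
      split_ifs <;> ring
    simp only [h4]
    rw [Finset.sum_sub_distrib, Finset.sum_ite_eq', Finset.sum_ite_eq']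
    simp [h2]

section FWaux

variable {ι : Type} [Fintype ι] [DecidableEq ι]

/-- the first property of the weights for families of factors with multiplicities -/
lemma fw_fam (v : ι → G) (w : ι → ℕ)
    (h1 : ∀ A B : ι → ℕ, ∑ a, A a = ∑ a, B a →
      (∏ a, v a ^ (A a)) / (∏ a, v a ^ (B a)) ∈ F → ∑ a, A a * w a = ∑ a, B a * w a)
    {J J' : Type} [Fintype J] [Fintype J'] (f : J → ι) (c : J → ℕ) (f' : J' → ι) (c' : J' → ℕ)
    (hc : ∑ j, c j = ∑ j, c' j)
    (hq : (∏ j, v (f j) ^ (c j)) / (∏ j, v (f' j) ^ (c' j)) ∈ F) :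
    ∑ j, c j * w (f j) = ∑ j, c' j * w (f' j) := by
  have e1 : ∀ {J : Type} [Fintype J] (f : J → ι) (c : J → ℕ),
      ∑ a, (∑ j, if f j = a then c j else 0) = ∑ j, c j := by
    intro J _ f c
    rw [Finset.sum_comm]
    apply Finset.sum_congr rfl
    intro j _
    simp
  have e2 : ∀ {J : Type} [Fintype J] (f : J → ι) (c : J → ℕ),
      ∏ a, v a ^ (∑ j, if f j = a then c j else 0) = ∏ j, v (f j) ^ (c j) := by
    intro J _ f c
    have : ∀ a, v a ^ (∑ j, if f j = a then c j else 0) =
        ∏ j, (if f j = a then v a ^ (c j) else 1) := by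
      intro a
      rw [← Finset.prod_pow_eq_pow_sum]
      apply Finset.prod_congr rfl
      intro j _
      split_ifs <;> simp
    rw [Finset.prod_congr rfl fun a _ => this a, Finset.prod_comm]
    apply Finset.prod_congr rfl
    intro j _
    simp
  have e3 : ∀ {J : Type} [Fintype J] (f : J → ι) (c : J → ℕ),
      ∑ a, (∑ j, if f j = a then c j else 0) * w a = ∑ j, c j * w (f j) := by
    intro J _ f c
    have : ∀ a, (∑ j, if f j = a then c j else 0) * w a =
        ∑ j, (if f j = a then c j * w a else 0) := by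
      intro a
      rw [Finset.sum_mul]
      apply Finset.sum_congr rfl
      intro j _
      split_ifs <;> simp
    rw [Finset.sum_congr rfl fun a _ => this a, Finset.sum_comm]
    apply Finset.sum_congr rfl
    intro j _
    simp
  have h2 := h1 (fun a => ∑ j, if f j = a then c j else 0)
    (fun a => ∑ j, if f' j = a then c' j else 0) (by rw [e1, e1, hc])
    (by rw [e2, e2]; exact hq)
  rw [e3, e3] at h2
  exact h2

end FWaux

theorem fw (hF : Rt F) (r : ℕ) (u : Fin (r + 1) → G) (hu : ∀ j, u j ≠ 0)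
    (d : ℕ) : ∃ l : Fin (r + 1) → ℕ, ∀ α β : Fin (r + 1) → ℕ, ∑ j, α j = ∑ j, β j →
      ∑ j, α j ≤ d →
      ((∏ j, u j ^ (α j)) / (∏ j, u j ^ (β j)) ∈ F ↔ ∑ j, α j * l j = ∑ j, β j * l j) := by
  classical
  rcases Nat.eq_zero_or_pos d with hd | hd
  · subst hd
    refine ⟨fun _ => 0, ?_⟩
    intro α β hαβ hα
    have ha : ∀ j, α j = 0 := by
      intro j
      have h1 : α j ≤ ∑ j, α j := Finset.single_le_sum (fun _ _ => Nat.zero_le _) (Finset.mem_univ j)
      omega
    have hb : ∀ j, β j = 0 := by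
      intro j
      have h1 : β j ≤ ∑ j, β j := Finset.single_le_sum (fun _ _ => Nat.zero_le _) (Finset.mem_univ j)
      omega
    simp only [ha, hb, pow_zero, Finset.prod_const_one, div_one, mul_zero, Finset.sum_const_zero,
      iff_true]
    exact F.one_mem
  -- the monomials of degree `d`
  let Mon : Type := {a : Fin (r + 1) → Fin (d + 1) // ∑ j, ((a j : ℕ)) = d}
  let mon : (Fin (r + 1) → ℕ) → G := fun α => ∏ j, u j ^ (α j)
  let v : Mon → G := fun a => mon fun j => (a.1 j : ℕ)
  have hv0 : ∀ a, v a ≠ 0 := fun a => Finset.prod_ne_zero_iff.mpr fun j _ => pow_ne_zero _ (hu j)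
  let e : Mon ≃ Fin (Fintype.card Mon) := Fintype.equivFin Mon
  obtain ⟨Lam, h1, h2⟩ := wtE hF (Fintype.card Mon) (fun i => v (e.symm i)) (fun i => hv0 _)
  let w : Mon → ℕ := fun a => Lam (e a)
  have h1' : ∀ A B : Mon → ℕ, ∑ a, A a = ∑ a, B a →
      (∏ a, v a ^ (A a)) / (∏ a, v a ^ (B a)) ∈ F → ∑ a, A a * w a = ∑ a, B a * w a := by
    intro A B hAB hq
    have s1 : ∀ A : Mon → ℕ, ∑ i, A (e.symm i) = ∑ a, A a := fun A => Equiv.sum_comp e.symm A
    have s2 : ∀ A : Mon → ℕ, ∏ i, v (e.symm i) ^ (A (e.symm i)) = ∏ a, v a ^ (A a) :=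
      fun A => Equiv.prod_comp e.symm (fun a => v a ^ (A a))
    have s3 : ∀ A : Mon → ℕ, ∑ i, A (e.symm i) * Lam i = ∑ a, A a * w a := by
      intro A
      rw [← Equiv.sum_comp e.symm (fun a => A a * w a)]
      apply Finset.sum_congr rfl
      intro i _
      simp [w]
    have h3 := h1 (fun i => A (e.symm i)) (fun i => B (e.symm i)) (by rw [s1, s1, hAB])
      (by rw [s2, s2]; exact hq)
    rw [s3, s3] at h3
    exact h3
  -- turn an exponent vector of sum `d` into an element of `Mon`
  have hbd : ∀ α : Fin (r + 1) → ℕ, ∑ j, α j = d → ∀ j, α j < d + 1 := by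
    intro α hα j
    have h1 : α j ≤ ∑ j, α j := Finset.single_le_sum (fun _ _ => Nat.zero_le _) (Finset.mem_univ j)
    omega
  let mk : ∀ α : Fin (r + 1) → ℕ, ∑ j, α j = d → Mon := fun α hα => ⟨fun j => ⟨α j, hbd α hα j⟩, hα⟩
  have hvmk : ∀ α hα, v (mk α hα) = mon α := fun α hα => rfl
  -- the exponent vectors of `u_j u_0 ^ (d-1)`
  let E : Fin (r + 1) → Fin (r + 1) → ℕ := fun j i => (if i = j then 1 else 0) + (if i = 0 then d - 1 else 0)
  have hE : ∀ j, ∑ i, E j i = d := by
    intro j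
    simp only [E]
    rw [Finset.sum_add_distrib, Finset.sum_ite_eq' Finset.univ j, Finset.sum_ite_eq' Finset.univ 0]
    simp only [Finset.mem_univ, if_true]
    omega
  have hmonE : ∀ j, mon (E j) = u j * u 0 ^ (d - 1) := by
    intro j
    simp only [mon, E]
    simp_rw [pow_add]
    rw [Finset.prod_mul_distrib]
    congr 1
    · rw [Finset.prod_eq_single j]
      · simp
      · intro i _ hi
        simp [hi]
      · intro h
        exact absurd (Finset.mem_univ j) h
    · rw [Finset.prod_eq_single 0]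
      · simp
      · intro i _ hi
        simp [hi]
      · intro h
        exact absurd (Finset.mem_univ 0) h
  let l : Fin (r + 1) → ℕ := fun j => w (mk (E j) (hE j))
  have hlin : ∀ α hα, w (mk α hα) + (d - 1) * l 0 = ∑ j, α j * l j := by
    intro α hα
    have h3 := fw_fam (F := F) v w h1' (J := Fin 2) (J' := Fin (r + 1))
      ![mk α hα, mk (E 0) (hE 0)] ![1, d - 1] (fun j => mk (E j) (hE j)) α
      (by rw [Fin.sum_univ_two, hα]; simp; omega)
      (by
        rw [Fin.prod_univ_two]
        simp only [Matrix.cons_val_zero, Matrix.cons_val_one, pow_one]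
        simp_rw [hvmk, hmonE]
        have e1 : ∏ j, (u j * u 0 ^ (d - 1)) ^ (α j) = mon α * (u 0 ^ (d - 1)) ^ d := by
          simp_rw [mul_pow]
          rw [Finset.prod_mul_distrib, Finset.prod_pow_eq_pow_sum, hα]
        rw [e1]
        have e2 : mon α * (u 0 * u 0 ^ (d - 1)) ^ (d - 1) = mon α * (u 0 ^ (d - 1)) ^ d := by
          congr 1
          rw [← pow_succ', ← pow_mul, ← pow_mul]
          congr 1
          obtain ⟨q, hq⟩ : ∃ q, d = q + 1 := ⟨d - 1, by omega⟩
          subst hq
          simp [Nat.mul_comm]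
        rw [e2, div_self]
        · exact F.one_mem
        · refine mul_ne_zero (Finset.prod_ne_zero_iff.mpr fun j _ => pow_ne_zero _ (hu j)) ?_
          exact pow_ne_zero _ (pow_ne_zero _ (hu 0)))
    rw [Fin.sum_univ_two] at h3
    simp only [Matrix.cons_val_zero, Matrix.cons_val_one, one_mul] at h3
    exact h3
  have hiff : ∀ α β hα hβ, mon α / mon β ∈ F ↔ w (mk α hα) = w (mk β hβ) := by
    intro α β hα hβ
    constructor
    · intro hq
      have h3 := fw_fam (F := F) v w h1' (J := Unit) (J' := Unit)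
        (fun _ => mk α hα) (fun _ => 1) (fun _ => mk β hβ) (fun _ => 1) rfl
        (by simpa [hvmk] using hq)
      simpa using h3
    · intro hw
      have h3 := h2 (e (mk α hα)) (e (mk β hβ)) hw
      simp only [Equiv.symm_apply_apply] at h3
      exact h3
  refine ⟨l, ?_⟩
  intro α β hαβ hαd
  -- make the degrees equal to `d`
  let α' : Fin (r + 1) → ℕ := fun i => α i + (if i = 0 then d - ∑ j, α j else 0)
  let β' : Fin (r + 1) → ℕ := fun i => β i + (if i = 0 then d - ∑ j, α j else 0)
  have hα' : ∑ j, α' j = d := by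
    simp only [α']
    rw [Finset.sum_add_distrib, Finset.sum_ite_eq' Finset.univ 0]
    simp only [Finset.mem_univ, if_true]
    omega
  have hβ' : ∑ j, β' j = d := by
    simp only [β']
    rw [Finset.sum_add_distrib, Finset.sum_ite_eq' Finset.univ 0]
    simp only [Finset.mem_univ, if_true]
    omega
  have hpad : ∀ γ : Fin (r + 1) → ℕ, mon (fun i => γ i + (if i = 0 then d - ∑ j, α j else 0)) =
      mon γ * u 0 ^ (d - ∑ j, α j) := by
    intro γ
    simp only [mon]
    simp_rw [pow_add]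
    rw [Finset.prod_mul_distrib]
    congr 1
    rw [Finset.prod_eq_single 0]
    · simp
    · intro i _ hi
      simp [hi]
    · intro h
      exact absurd (Finset.mem_univ 0) h
  have hquot : mon α' / mon β' = mon α / mon β := by
    rw [hpad α, hpad β, mul_div_mul_right _ _ (pow_ne_zero _ (hu 0))]
  have hsum : ∀ γ : Fin (r + 1) → ℕ,
      ∑ j, (γ j + (if j = 0 then d - ∑ j, α j else 0)) * l j =
        ∑ j, γ j * l j + (d - ∑ j, α j) * l 0 := by
    intro γ
    simp_rw [add_mul]
    rw [Finset.sum_add_distrib]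
    congr 1
    simp_rw [ite_mul, zero_mul]
    rw [Finset.sum_ite_eq' Finset.univ 0]
    simp
  have hmain := hiff α' β' hα' hβ'
  rw [hquot] at hmain
  have l1 := hlin α' hα'
  have l2 := hlin β' hβ'
  rw [hsum α] at l1
  rw [hsum β] at l2
  show mon α / mon β ∈ F ↔ _
  rw [hmain]
  constructor
  · intro h
    omega
  · intro h
    omega

end Pool.Agent.Run7.h28.HK
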