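import Mathlib
import Pool.Agent.Run7.h28.HK.Wt

/-!
# Project HK (helper28): one parameter families, in any field with a subfield closed under roots

The proofs are those of `Pool.Agent.TH551.HA.Lift`, `NC` and `Hall`, for an abstract relation of domination.
-/

set_option autoImplicit false
set_option linter.unusedSectionVars false

namespace Pool.Agent.Run7.h28.HK

/-- polynomials with vanishing Wronskian are proportional -/
lemma prop_of_wr {F : Type*} [Field F] [CharZero F] (A B : Polynomial F) (hB : B ≠ 0)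
    (h : Polynomial.derivative A * B = A * Polynomial.derivative B) :
    ∃ κ : F, A = Polynomial.C κ * B := by
  -- the degrees of two nonzero polynomials with vanishing Wronskian agree
  have key : ∀ A : Polynomial F, A ≠ 0 →
      Polynomial.derivative A * B = A * Polynomial.derivative B → A.natDegree = B.natDegree := by
    intro A hA h
    have h1 : (Polynomial.X * Polynomial.derivative A) * B =
        A * (Polynomial.X * Polynomial.derivative B) := by
      linear_combination Polynomial.X * h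
    have hd : ∀ P : Polynomial F, (Polynomial.X * Polynomial.derivative P).natDegree ≤
        P.natDegree := by
      intro P
      rcases Nat.eq_zero_or_pos P.natDegree with h0 | h0
      · rw [Polynomial.natDegree_eq_zero] at h0
        obtain ⟨c, rfl⟩ := h0
        simp
      · refine (Polynomial.natDegree_mul_le).trans ?_
        rw [Polynomial.natDegree_X]
        have := Polynomial.natDegree_derivative_lt h0.ne'
        omega
    have hc : ∀ P : Polynomial F, (Polynomial.X * Polynomial.derivative P).coeff P.natDegree =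
        (P.natDegree : F) * P.leadingCoeff := by
      intro P
      cases hP : P.natDegree with
      | zero => simp
      | succ k =>
        rw [Polynomial.coeff_X_mul, Polynomial.coeff_derivative, Polynomial.leadingCoeff, hP]
        push_cast
        ring
    have h2 : ((Polynomial.X * Polynomial.derivative A) * B).coeff (A.natDegree + B.natDegree) =
        (A * (Polynomial.X * Polynomial.derivative B)).coeff (A.natDegree + B.natDegree) := by
      rw [h1]
    rw [Polynomial.coeff_mul_add_eq_of_natDegree_le (hd A) le_rfl,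
      Polynomial.coeff_mul_add_eq_of_natDegree_le le_rfl (hd B), hc, hc] at h2
    have hA' : A.leadingCoeff ≠ 0 := Polynomial.leadingCoeff_ne_zero.2 hA
    have hB' : B.leadingCoeff ≠ 0 := Polynomial.leadingCoeff_ne_zero.2 hB
    have h3 : ((A.natDegree : F) - B.natDegree) * (A.leadingCoeff * B.leadingCoeff) = 0 := by
      have h4 : B.coeff B.natDegree = B.leadingCoeff := rfl
      have h5 : A.coeff A.natDegree = A.leadingCoeff := rfl
      rw [h4, h5] at h2
      linear_combination h2
    have h4 := (mul_eq_zero.1 h3).resolve_right (mul_ne_zero hA' hB')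
    exact_mod_cast sub_eq_zero.1 h4
  by_cases hA : A = 0
  · exact ⟨0, by rw [hA]; simp⟩
  have hB' : B.leadingCoeff ≠ 0 := Polynomial.leadingCoeff_ne_zero.2 hB
  refine ⟨A.leadingCoeff / B.leadingCoeff, ?_⟩
  set κ := A.leadingCoeff / B.leadingCoeff with hκ
  by_contra hne
  have h1 : A - Polynomial.C κ * B ≠ 0 := sub_ne_zero.2 hne
  have h2 := key (A - Polynomial.C κ * B) h1 (by
    rw [Polynomial.derivative_sub, Polynomial.derivative_C_mul]
    linear_combination h)
  have h3 := key A hA h
  have h4 : (A - Polynomial.C κ * B).coeff B.natDegree = 0 := by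
    rw [Polynomial.coeff_sub, Polynomial.coeff_C_mul]
    have h5 : A.coeff B.natDegree = A.leadingCoeff := by
      rw [← h3]
      rfl
    have h6 : B.coeff B.natDegree = B.leadingCoeff := rfl
    rw [h5, h6, hκ, div_mul_cancel₀ _ hB', sub_self]
  rw [← h2] at h4
  exact h1 (Polynomial.leadingCoeff_eq_zero.1 h4)

/-- grouping a sum into classes modulo a subfield -/
lemma nc_core {G : Type*} [Field G] (K : Subfield G) {ι : Type} (A : Finset ι) (a : ι → K)
    (g : ι → G) (w : ι → ℕ) (hg : ∀ i ∈ A, g i ≠ 0)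
    (hw : ∀ i ∈ A, ∀ j ∈ A, g i / g j ∈ K → w i = w j) :
    ∃ (n : ℕ) (f : Fin n → ↥A) (c : Fin n → K),
      (∀ i j, i ≠ j → g (f i) / g (f j) ∉ K) ∧
      (∑ i, (c i : G) * g (f i) = ∑ i ∈ A, (a i : G) * g i) ∧
      ∀ k, ∑ i with w (f i) = k, (c i : G) * g (f i) = ∑ i ∈ A with w i = k, (a i : G) * g i := by
  classical
  let s : Setoid ↥A := ⟨fun i j => g i / g j ∈ K,
    ⟨fun i => by rw [div_self (hg i i.2)]; exact K.one_mem,
     fun {i j} h => by rw [← inv_div]; exact K.inv_mem h,
     fun {i j k} h1 h2 => by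
      rw [← div_mul_div_cancel₀ (hg j j.2)]; exact K.mul_mem h1 h2⟩⟩
  have hs : ∀ i j : ↥A, (Quotient.mk s i = Quotient.mk s j) ↔ g i / g j ∈ K := fun i j => Quotient.eq
  have hfin : Finite (Quotient s) := inferInstance
  have hft : Fintype (Quotient s) := Fintype.ofFinite _
  let e := Fintype.equivFin (Quotient s)
  have hrp : ∀ i : ↥A, g i / g (Quotient.mk s i).out ∈ K := by
    intro i
    rw [← hs, Quotient.out_eq]
  set c : Quotient s → K := fun q => ∑ i : ↥A with Quotient.mk s i = q,
    a i * ⟨g i / g (Quotient.mk s i).out, hrp i⟩ with hc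
  have hcq : ∀ q : Quotient s, (c q : G) * g q.out = ∑ i : ↥A with Quotient.mk s i = q, (a i : G) * g i := by
    intro q
    rw [hc]
    simp only
    rw [AddSubmonoidClass.coe_finsetSum, Finset.sum_mul]
    refine Finset.sum_congr rfl fun i hi => ?_
    rw [Finset.mem_filter] at hi
    obtain ⟨-, rfl⟩ := hi
    rw [MulMemClass.coe_mul, mul_assoc]
    congr 1
    exact div_mul_cancel₀ _ (hg _ (Quotient.mk s i).out.2)
  refine ⟨Fintype.card (Quotient s), fun k => (e.symm k).out, fun k => c (e.symm k), ?_, ?_, ?_⟩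
  · intro i j hij h
    apply hij
    rw [← hs, Quotient.out_eq, Quotient.out_eq] at h
    exact e.symm.injective h
  · rw [Equiv.sum_comp e.symm (fun q => (c q : G) * g q.out)]
    simp_rw [hcq]
    rw [Finset.sum_fiberwise]
    rw [Finset.sum_coe_sort A (fun i => (a i : G) * g i)]
  · intro k
    rw [Finset.sum_filter, Finset.sum_filter]
    rw [Equiv.sum_comp e.symm (fun q => if w q.out = k then (c q : G) * g q.out else 0)]
    rw [← Finset.sum_coe_sort A (fun i => if w i = k then (a i : G) * g i else 0),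
      ← Finset.sum_fiberwise (s := Finset.univ) (g := Quotient.mk s)
        (f := fun i : ↥A => if w i = k then (a i : G) * g i else 0)]
    refine Finset.sum_congr rfl fun q _ => ?_
    have h2 : ∀ i ∈ (Finset.univ : Finset ↥A).filter (fun i => Quotient.mk s i = q),
        (if w i = k then (a i : G) * g i else 0) =
        (if w q.out = k then (a i : G) * g i else 0) := by
      intro i hi
      rw [Finset.mem_filter] at hi
      obtain ⟨-, rfl⟩ := hi
      rw [hw i i.2 _ (Quotient.mk s i).out.2 (hrp i)]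
    rw [Finset.sum_congr rfl h2]
    split_ifs with h3
    · rw [hcq]
    · rw [Finset.sum_const_zero]

variable {G : Type} [Field G]

/-- a set of units, independent over `F` -/
structure PS (F : Subfield G) (P : G → Prop) : Prop where
  rt : Rt F
  one : P 1
  mul : ∀ {a b}, P a → P b → P (a * b)
  ne : ∀ {a}, P a → a ≠ 0
  ind : ∀ (m : ℕ) (u : Fin m → G), (∀ i, P (u i)) → (∀ i j, i ≠ j → u i / u j ∉ F) →
    ∀ c : Fin m → F, ∑ i, (c i : G) * u i = 0 → ∀ i, c i = 0

/-- a relation of domination -/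
structure DR (F : Subfield G) (P : G → Prop) (D : G → G → Prop) : Prop where
  refl : ∀ f, D f f
  trans : ∀ {f g h}, D f g → D g h → D f h
  mul : ∀ {f f' g g'}, D f f' → D g g' → D (f * g) (f' * g')
  add : ∀ {f g h}, D f h → D g h → D (f + g) h
  zero : ∀ g, D 0 g
  ofF : ∀ {c}, c ∈ F → D c 1
  oneF : ∀ {c}, c ∈ F → c ≠ 0 → D 1 c
  dom : ∀ (m : ℕ) (u : Fin m → G), (∀ i, P (u i)) → (∀ i j, i ≠ j → u i / u j ∉ F) →
    ∀ c : Fin m → F, (∀ i, c i ≠ 0) → ∀ i, D (u i) (∑ j, (c j : G) * u j)

section DR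

variable {F : Subfield G} {P : G → Prop} {D : G → G → Prop} (hD : DR F P D)
include hD

lemma DR.smul {c f g : G} (hc : c ∈ F) (h : D f g) : D (c * f) g := by
  have h1 := hD.mul (hD.ofF hc) h
  rwa [one_mul] at h1

lemma DR.neg {f g : G} (h : D f g) : D (-f) g := by
  have h1 := hD.smul (c := -1) (F.neg_mem F.one_mem) h
  rwa [neg_one_mul] at h1

lemma DR.sub {f g h : G} (h1 : D f h) (h2 : D g h) : D (f - g) h := by
  rw [sub_eq_add_neg]
  exact hD.add h1 (hD.neg h2)

lemma DR.sum {ι : Type} (A : Finset ι) (f : ι → G) (g : G) (h : ∀ i ∈ A, D (f i) g) :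
    D (∑ i ∈ A, f i) g := by
  classical
  induction A using Finset.induction_on with
  | empty =>
    rw [Finset.sum_empty]
    exact hD.zero g
  | insert a A ha ih =>
    rw [Finset.sum_insert ha]
    exact hD.add (h a (Finset.mem_insert_self _ _))
      (ih fun i hi => h i (Finset.mem_insert_of_mem hi))

/-- each term of a sum is dominated by the sum, also when some coefficients vanish -/
lemma DR.term {n : ℕ} (u : Fin n → G) (hu : ∀ i, P (u i))
    (hd : ∀ i j, i ≠ j → u i / u j ∉ F) (c : Fin n → F) (i : Fin n) :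
    D ((c i : G) * u i) (∑ j, (c j : G) * u j) := by
  classical
  by_cases hi : c i = 0
  · rw [hi, ZeroMemClass.coe_zero, zero_mul]
    exact hD.zero _
  let e := Fintype.equivFin {j : Fin n // c j ≠ 0}
  have h1 := hD.dom (Fintype.card {j : Fin n // c j ≠ 0})
    (fun k => u (e.symm k).1) (fun k => hu _)
    (fun k l hkl => hd _ _ fun h => hkl (e.symm.injective (Subtype.ext h)))
    (fun k => c (e.symm k).1) (fun k => (e.symm k).2) (e ⟨i, hi⟩)
  simp only [Equiv.symm_apply_apply] at h1
  have h2 : ∑ k, (c (e.symm k).1 : G) * u (e.symm k).1 = ∑ j, (c j : G) * u j := by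
    rw [Equiv.sum_comp e.symm (fun q : {j : Fin n // c j ≠ 0} => (c q.1 : G) * u q.1)]
    rw [← Finset.sum_subtype ((Finset.univ : Finset (Fin n)).filter fun j => c j ≠ 0)
      (fun j => by simp) (fun j => (c j : G) * u j), Finset.sum_filter]
    refine Finset.sum_congr rfl fun j _ => ?_
    split_ifs with h
    · rfl
    · rw [not_not.1 h, ZeroMemClass.coe_zero, zero_mul]
  rw [h2] at h1
  exact hD.smul (c i).2 h1

/-- the partial sums over unions of classes are dominated by the whole sum -/
lemma DR.nc (hP : PS F P) {ι : Type} (A : Finset ι) (a : ι → F) (g : ι → G) (w : ι → ℕ)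
    (hg : ∀ i ∈ A, P (g i)) (hw : ∀ i ∈ A, ∀ j ∈ A, g i / g j ∈ F → w i = w j) (k : ℕ) :
    D (∑ i ∈ A with w i = k, (a i : G) * g i) (∑ i ∈ A, (a i : G) * g i) := by
  classical
  obtain ⟨n, f, c, hf, hc1, hc2⟩ := nc_core F A a g w (fun i hi => hP.ne (hg i hi)) hw
  rw [← hc1, ← hc2 k]
  refine hD.sum _ _ _ fun i _ => ?_
  exact hD.term (fun i => g (f i)) (fun i => hg _ (f i).2) hf c i

end DR

/-- the sums over the fibres of `w` vanish if the whole sum vanishes -/
lemma PS.cs {F : Subfield G} {P : G → Prop} (hP : PS F P) {ι : Type} (A : Finset ι) (a : ι → F)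
    (g : ι → G) (w : ι → ℕ) (hg : ∀ i ∈ A, P (g i))
    (hw : ∀ i ∈ A, ∀ j ∈ A, g i / g j ∈ F → w i = w j) (h0 : ∑ i ∈ A, (a i : G) * g i = 0)
    (k : ℕ) : ∑ i ∈ A with w i = k, (a i : G) * g i = 0 := by
  classical
  obtain ⟨n, f, c, hf, hc1, hc2⟩ := nc_core F A a g w (fun i hi => hP.ne (hg i hi)) hw
  rw [← hc2 k]
  rw [← hc1] at h0
  have h1 := hP.ind n (fun i => g (f i)) (fun i => hg _ (f i).2) hf c h0
  refine Finset.sum_eq_zero fun i _ => ?_
  rw [h1 i, ZeroMemClass.coe_zero, zero_mul]

/-! ### Lifts -/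

variable {F : Subfield G} {r : ℕ}

/-- substitution of `U j * T ^ (l j)` -/
noncomputable def psi (F : Subfield G) (U : Fin r → G) (l : Fin r → ℕ) :
    MvPolynomial (Fin r) F →+* Polynomial G :=
  MvPolynomial.eval₂Hom (Polynomial.C.comp F.subtype)
    (fun j => Polynomial.C (U j) * Polynomial.X ^ (l j))

/-- the polynomials obtained from the forms of degree `e` over `F` -/
def Lift (F : Subfield G) (U : Fin r → G) (l : Fin r → ℕ) (e : ℕ)
    (p : Polynomial G) : Prop :=
  ∃ P : MvPolynomial (Fin r) F, P.IsHomogeneous e ∧ psi F U l P = p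

lemma psi_eq (U : Fin r → G) (l : Fin r → ℕ)
    (P : MvPolynomial (Fin r) F) :
    psi F U l P = ∑ α ∈ P.support, Polynomial.C (((MvPolynomial.coeff α P : F) : G) *
      ∏ j, U j ^ (α j)) * Polynomial.X ^ (∑ j, α j * l j) := by
  unfold psi
  rw [MvPolynomial.coe_eval₂Hom, MvPolynomial.eval₂_eq']
  refine Finset.sum_congr rfl fun α _ => ?_
  simp only [RingHom.coe_comp, Function.comp_apply, Subfield.coe_subtype, mul_pow,
    Finset.prod_mul_distrib, ← pow_mul]
  rw [Polynomial.C_mul, mul_assoc]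
  congr 2
  · rw [map_prod]
    exact Finset.prod_congr rfl fun j _ => by rw [map_pow]
  · rw [Finset.prod_pow_eq_pow_sum]
    congr 1
    exact Finset.sum_congr rfl fun j _ => mul_comm _ _

lemma deg_of_hom {P : MvPolynomial (Fin r) F} {e : ℕ}
    (hP : P.IsHomogeneous e) {α : Fin r →₀ ℕ} (hα : α ∈ P.support) : ∑ j, α j = e := by
  have h2 := hP (MvPolynomial.mem_support_iff.1 hα)
  rw [Finsupp.weight_apply, Finsupp.sum_fintype _ _ (by simp)] at h2
  simpa using h2

section lift

variable {U : Fin r → G} {l : Fin r → ℕ}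

lemma Lift.add {e : ℕ} {p q : Polynomial G} (hp : Lift F U l e p) (hq : Lift F U l e q) :
    Lift F U l e (p + q) := by
  obtain ⟨P, hP, rfl⟩ := hp
  obtain ⟨Q, hQ, rfl⟩ := hq
  exact ⟨P + Q, hP.add hQ, map_add _ _ _⟩

lemma Lift.mul {e f : ℕ} {p q : Polynomial G} (hp : Lift F U l e p)
    (hq : Lift F U l f q) : Lift F U l (e + f) (p * q) := by
  obtain ⟨P, hP, rfl⟩ := hp
  obtain ⟨Q, hQ, rfl⟩ := hq
  exact ⟨P * Q, hP.mul hQ, map_mul _ _ _⟩

lemma Lift.smul {e : ℕ} {p : Polynomial G} (hp : Lift F U l e p) {c : G}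
    (hc : c ∈ F) : Lift F U l e (Polynomial.C c * p) := by
  obtain ⟨P, hP, rfl⟩ := hp
  refine ⟨MvPolynomial.C ⟨c, hc⟩ * P, ?_, ?_⟩
  · have h := (MvPolynomial.isHomogeneous_C (Fin r) (⟨c, hc⟩ : F)).mul hP
    rwa [zero_add] at h
  · rw [map_mul]
    congr 1
    unfold psi
    simp

lemma Lift.zero (e : ℕ) : Lift F U l e 0 :=
  ⟨0, MvPolynomial.isHomogeneous_zero _ _ _, map_zero _⟩

lemma Lift.one : Lift F U l 0 1 :=
  ⟨1, MvPolynomial.isHomogeneous_one _ _, map_one _⟩

lemma Lift.neg {e : ℕ} {p : Polynomial G} (hp : Lift F U l e p) : Lift F U l e (-p) := by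
  obtain ⟨P, hP, rfl⟩ := hp
  exact ⟨-P, hP.neg, map_neg _ _⟩

lemma Lift.sub {e : ℕ} {p q : Polynomial G} (hp : Lift F U l e p) (hq : Lift F U l e q) :
    Lift F U l e (p - q) := by
  rw [sub_eq_add_neg]
  exact hp.add hq.neg

lemma Lift.gen (j : Fin r) : Lift F U l 1 (Polynomial.C (U j) * Polynomial.X ^ (l j)) := by
  refine ⟨MvPolynomial.X j, MvPolynomial.isHomogeneous_X _ _, ?_⟩
  unfold psi
  simp

lemma Lift.sum {ι : Type} (A : Finset ι) (e : ℕ) (p : ι → Polynomial G)
    (h : ∀ i ∈ A, Lift F U l e (p i)) : Lift F U l e (∑ i ∈ A, p i) := by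
  classical
  induction A using Finset.induction_on with
  | empty => rw [Finset.sum_empty]; exact Lift.zero e
  | insert a A ha ih =>
    rw [Finset.sum_insert ha]
    exact Lift.add (h a (Finset.mem_insert_self _ _))
      (ih fun i hi => h i (Finset.mem_insert_of_mem hi))

lemma Lift.pow {e : ℕ} {p : Polynomial G} (hp : Lift F U l e p) (k : ℕ) :
    Lift F U l (e * k) (p ^ k) := by
  induction k with
  | zero => rw [pow_zero, mul_zero]; exact Lift.one
  | succ k ih => rw [pow_succ, Nat.mul_succ]; exact ih.mul hp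

/-- the Euler derivation -/
noncomputable def th (p : Polynomial G) : Polynomial G := Polynomial.X * Polynomial.derivative p

lemma th_mul (p q : Polynomial G) : th (p * q) = th p * q + p * th q := by
  unfold th
  rw [Polynomial.derivative_mul]
  ring

lemma th_add (p q : Polynomial G) : th (p + q) = th p + th q := by
  unfold th
  rw [Polynomial.derivative_add]
  ring

lemma th_neg (p : Polynomial G) : th (-p) = -th p := by
  unfold th
  rw [Polynomial.derivative_neg]
  ring

lemma th_sub (p q : Polynomial G) : th (p - q) = th p - th q := by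
  rw [sub_eq_add_neg, th_add, th_neg, ← sub_eq_add_neg]

lemma th_pow (p : Polynomial G) (k : ℕ) : th (p ^ (k + 1)) = (k + 1 : ℕ) * p ^ k * th p := by
  unfold th
  rw [Polynomial.derivative_pow_succ]
  simp
  ring

lemma th_monomial (c : G) (k : ℕ) :
    th (Polynomial.C c * Polynomial.X ^ k) = Polynomial.C ((k : G) * c) * Polynomial.X ^ k := by
  unfold th
  cases k with
  | zero => simp
  | succ k =>
    rw [Polynomial.derivative_C_mul_X_pow]
    simp
    ring

lemma th_coeff (p : Polynomial G) (k : ℕ) : (th p).coeff k = (k : G) * p.coeff k := by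
  unfold th
  cases k with
  | zero => simp
  | succ k =>
    rw [Polynomial.coeff_X_mul, Polynomial.coeff_derivative]
    push_cast
    ring

lemma Lift.th {e : ℕ} {p : Polynomial G} (hp : Lift F U l e p) : Lift F U l e (th p) := by
  classical
  obtain ⟨P, hP, rfl⟩ := hp
  rw [psi_eq]
  have h1 : HK.th (∑ α ∈ P.support, Polynomial.C (((MvPolynomial.coeff α P : F) : G) *
      ∏ j, U j ^ (α j)) * Polynomial.X ^ (∑ j, α j * l j)) =
      ∑ α ∈ P.support, HK.th (Polynomial.C (((MvPolynomial.coeff α P : F) : G) *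
      ∏ j, U j ^ (α j)) * Polynomial.X ^ (∑ j, α j * l j)) := by
    generalize P.support = A
    induction A using Finset.induction_on with
    | empty => simp [HK.th]
    | insert a A ha ih => rw [Finset.sum_insert ha, Finset.sum_insert ha, th_add, ih]
  rw [h1]
  refine Lift.sum _ _ _ fun α hα => ?_
  rw [th_monomial]
  refine ⟨MvPolynomial.monomial α (((∑ j, α j * l j : ℕ) : F) * MvPolynomial.coeff α P),
    MvPolynomial.isHomogeneous_monomial _ ?_, ?_⟩
  · rw [Finsupp.degree_eq_sum]
    exact deg_of_hom hP hα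
  · unfold psi
    rw [MvPolynomial.coe_eval₂Hom, MvPolynomial.eval₂_monomial, Finsupp.prod_fintype _ _
      (fun i => pow_zero _)]
    simp only [RingHom.coe_comp, Function.comp_apply, Subfield.coe_subtype, mul_pow,
      Finset.prod_mul_distrib, ← pow_mul]
    rw [Finset.prod_pow_eq_pow_sum]
    have h2 : ∑ j, l j * α j = ∑ j, α j * l j := Finset.sum_congr rfl fun j _ => mul_comm _ _
    rw [h2, ← mul_assoc]
    congr 1
    have h3 : ∏ j, (Polynomial.C (U j)) ^ (α j) = (Polynomial.C (∏ j, U j ^ (α j)) :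
        Polynomial G) := by
      rw [map_prod]
      exact Finset.prod_congr rfl fun j _ => by rw [map_pow]
    rw [h3, ← Polynomial.C_mul]
    congr 1
    push_cast
    ring

end lift

/-- the data: units and weights separating the classes of the monomials of degree at most `d` -/
structure Setup (F : Subfield G) (P : G → Prop) (U : Fin r → G) (l : Fin r → ℕ)
    (d : ℕ) : Prop where
  gsu : ∀ j, P (U j)
  fw : ∀ α β : Fin r → ℕ, ∑ j, α j = ∑ j, β j → ∑ j, α j ≤ d →
    ((∏ j, U j ^ (α j)) / (∏ j, U j ^ (β j)) ∈ F ↔ ∑ j, α j * l j = ∑ j, β j * l j)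

lemma PS.pow {P : G → Prop} (hP : PS F P) {a : G} (ha : P a) (n : ℕ) : P (a ^ n) := by
  induction n with
  | zero => rw [pow_zero]; exact hP.one
  | succ n ih => rw [pow_succ]; exact hP.mul ih ha

lemma PS.prod {P : G → Prop} (hP : PS F P) {ι : Type} (A : Finset ι) (f : ι → G)
    (h : ∀ i ∈ A, P (f i)) : P (∏ i ∈ A, f i) := by
  classical
  induction A using Finset.induction_on with
  | empty => rw [Finset.prod_empty]; exact hP.one
  | insert a A ha ih =>
    rw [Finset.prod_insert ha]
    exact hP.mul (h a (Finset.mem_insert_self _ _))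
      (ih fun i hi => h i (Finset.mem_insert_of_mem hi))

/-- sums of units with coefficients in `F` -/
def Sp (F : Subfield G) (P : G → Prop) (x : G) : Prop :=
  ∃ (n : ℕ) (u : Fin n → G) (c : Fin n → F), (∀ i, P (u i)) ∧ x = ∑ i, (c i : G) * u i

section setup

variable {U : Fin r → G} {l : Fin r → ℕ} {d : ℕ} {P : G → Prop} {D : G → G → Prop}

lemma psi_coeff (Q : MvPolynomial (Fin r) F) (k : ℕ) :
    (psi F U l Q).coeff k = ∑ α ∈ Q.support with ∑ j, α j * l j = k,
      ((MvPolynomial.coeff α Q : F) : G) * ∏ j, U j ^ (α j) := by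
  rw [psi_eq, Polynomial.finsetSum_coeff, Finset.sum_filter]
  refine Finset.sum_congr rfl fun α _ => ?_
  rw [Polynomial.coeff_C_mul_X_pow]
  by_cases h : ∑ j, α j * l j = k
  · rw [if_pos h, if_pos h.symm]
  · rw [if_neg h, if_neg (Ne.symm h)]

lemma psi_eval (Q : MvPolynomial (Fin r) F) :
    (psi F U l Q).eval 1 = ∑ α ∈ Q.support,
      ((MvPolynomial.coeff α Q : F) : G) * ∏ j, U j ^ (α j) := by
  rw [psi_eq, Polynomial.eval_finsetSum]
  refine Finset.sum_congr rfl fun α _ => ?_
  rw [Polynomial.eval_mul, Polynomial.eval_C, Polynomial.eval_pow, Polynomial.eval_X, one_pow,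
    mul_one]

lemma Setup.mono (hP : PS F P) (hs : Setup F P U l d) (α : Fin r → ℕ) :
    P (∏ j, U j ^ (α j)) := hP.prod _ _ fun j _ => hP.pow (hs.gsu j) _

/-- the coefficients of a lift are dominated by its value at 1 -/
lemma Lift.dom (hD : DR F P D) (hP : PS F P) (hs : Setup F P U l d) {e : ℕ} (he : e ≤ d)
    {p : Polynomial G} (hp : Lift F U l e p) (k : ℕ) : D (p.coeff k) (p.eval 1) := by
  obtain ⟨Q, hQ, rfl⟩ := hp
  rw [psi_coeff, psi_eval]
  refine hD.nc hP Q.support (fun α => MvPolynomial.coeff α Q)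
    (fun α => ∏ j, U j ^ (α j)) (fun α => ∑ j, α j * l j) (fun α _ => hs.mono hP α) ?_ k
  intro α hα β hβ h
  refine (hs.fw α β ?_ ?_).1 h
  · rw [deg_of_hom hQ hα, deg_of_hom hQ hβ]
  · rw [deg_of_hom hQ hα]
    exact he

lemma Lift.eq_zero (hP : PS F P) (hs : Setup F P U l d) {e : ℕ} (he : e ≤ d)
    {p : Polynomial G} (hp : Lift F U l e p) (h0 : p.eval 1 = 0) : p = 0 := by
  obtain ⟨Q, hQ, rfl⟩ := hp
  rw [psi_eval] at h0
  ext k
  rw [psi_coeff, Polynomial.coeff_zero]
  refine hP.cs Q.support (fun α => MvPolynomial.coeff α Q)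
    (fun α => ∏ j, U j ^ (α j)) (fun α => ∑ j, α j * l j) (fun α _ => hs.mono hP α) ?_ h0 k
  intro α hα β hβ h
  refine (hs.fw α β ?_ ?_).1 h
  · rw [deg_of_hom hQ hα, deg_of_hom hQ hβ]
  · rw [deg_of_hom hQ hα]
    exact he

lemma eval_one_eq (p : Polynomial G) (N : ℕ) (hN : p.natDegree < N) :
    p.eval 1 = ∑ k ∈ Finset.range N, p.coeff k := by
  rw [Polynomial.eval_eq_sum_range' hN]
  simp

lemma Lift.th_dom (hD : DR F P D) (hP : PS F P) (hs : Setup F P U l d) {e : ℕ} (he : e ≤ d)
    {p : Polynomial G} (hp : Lift F U l e p) : D ((HK.th p).eval 1) (p.eval 1) := by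
  rw [eval_one_eq (HK.th p) ((HK.th p).natDegree + 1) (Nat.lt_succ_self _)]
  refine hD.sum _ _ _ fun k _ => ?_
  rw [th_coeff]
  exact hD.smul (natCast_mem _ k) (hp.dom hD hP hs he k)

lemma Lift.sp (hP : PS F P) (hs : Setup F P U l d) {e : ℕ} {p : Polynomial G}
    (hp : Lift F U l e p) : Sp F P (p.eval 1) := by
  classical
  obtain ⟨Q, hQ, rfl⟩ := hp
  rw [psi_eval]
  let E := Q.support.equivFin
  refine ⟨Q.support.card, fun i => ∏ j, U j ^ ((E.symm i).1 j),
    fun i => MvPolynomial.coeff (E.symm i).1 Q, fun i => hs.mono hP _, ?_⟩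
  rw [← Finset.sum_coe_sort Q.support]
  exact (Equiv.sum_comp E.symm (fun α : Q.support => ((MvPolynomial.coeff α.1 Q : F) : G) *
    ∏ j, U j ^ (α.1 j))).symm

lemma Lift.coeff_div (hP : PS F P) (hs : Setup F P U l d) {e : ℕ} (he : e ≤ d)
    {p q : Polynomial G} (hp : Lift F U l e p) (hq : Lift F U l e q) (k : ℕ)
    (hk : q.coeff k ≠ 0) : p.coeff k / q.coeff k ∈ F := by
  obtain ⟨P', hP', rfl⟩ := hp
  obtain ⟨Q, hQ, rfl⟩ := hq
  obtain ⟨β, hβ, hβk⟩ : ∃ β ∈ Q.support, ∑ j, β j * l j = k := by
    by_contra hno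
    push Not at hno
    apply hk
    rw [psi_coeff, Finset.filter_false_of_mem hno, Finset.sum_empty]
  set g : G := ∏ j, U j ^ (β j) with hg
  have hg0 : g ≠ 0 := hP.ne (hs.mono hP β)
  have key : ∀ R : MvPolynomial (Fin r) F, R.IsHomogeneous e →
      (psi F U l R).coeff k / g ∈ F := by
    intro R hR
    rw [psi_coeff, Finset.sum_div]
    refine sum_mem fun α hα => ?_
    rw [mul_div_assoc]
    refine mul_mem (MvPolynomial.coeff α R).2 ?_
    rw [Finset.mem_filter] at hα
    refine (hs.fw α β ?_ ?_).2 ?_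
    · rw [deg_of_hom hR hα.1, deg_of_hom hQ hβ]
    · rw [deg_of_hom hR hα.1]
      exact he
    · rw [hα.2, hβk]
  have h1 : (psi F U l P').coeff k / (psi F U l Q).coeff k =
      ((psi F U l P').coeff k / g) / ((psi F U l Q).coeff k / g) := by
    field_simp
  rw [h1]
  exact div_mem (key P' hP') (key Q hQ)

/-- the representation by a lift -/
lemma exists_lift {k : ℕ} (U : Fin r → G) (l : Fin r → ℕ) (ι : Fin k → Fin r)
    (c : Fin k → F) : ∃ X : Polynomial G, Lift F U l 1 X ∧ X.eval 1 = ∑ j, (c j : G) * U (ι j) := by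
  refine ⟨∑ j, Polynomial.C (c j : G) * (Polynomial.C (U (ι j)) * Polynomial.X ^ (l (ι j))),
    Lift.sum _ _ _ fun j _ => (Lift.gen (ι j)).smul (c j).2, ?_⟩
  rw [Polynomial.eval_finsetSum]
  refine Finset.sum_congr rfl fun j _ => ?_
  simp

end setup

/-- **the inequality of Davenport** -/
theorem hallCore [CharZero G] {P : G → Prop} (hP : PS F P) (m n : ℕ) (x y : G) (hx : Sp F P x)
    (hy : Sp F P y) (hne : y ^ (n + 1) - x ^ (m + 1) ≠ 0) :
    (∃ ω, ω ≠ 0 ∧ Sp F P ω ∧ ∀ D, DR F P D →
      D (y ^ n * ω) (x * (y ^ (n + 1) - x ^ (m + 1))) ∧ D ω (x * y)) ∨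
      ∀ D, DR F P D → D (x ^ (m + 1)) (y ^ (n + 1) - x ^ (m + 1)) := by
  classical
  obtain ⟨m1, u1, c1, hu1, hs1⟩ := hx
  obtain ⟨m2, u2, c2, hu2, hs2⟩ := hy
  -- the combined family
  set U : Fin (m1 + m2 + 1) → G := Fin.cons 1 (Fin.append u1 u2) with hW
  have hWall : ∀ j, P (U j) := by
    intro j
    rw [hW]
    refine Fin.cases ?_ (fun j => ?_) j
    · simpa using hP.one
    · rw [Fin.cons_succ]
      refine Fin.addCases (fun i => ?_) (fun i => ?_) j
      · rw [Fin.append_left]
        exact hu1 i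
      · rw [Fin.append_right]
        exact hu2 i
  obtain ⟨l, hl⟩ := fw hP.rt (m1 + m2) U (fun j => hP.ne (hWall j)) (m + n + 5)
  have hs : Setup F P U l (m + n + 5) := ⟨hWall, hl⟩
  have hU0 : U 0 = 1 := rfl
  obtain ⟨X, hX, hX1⟩ := exists_lift (F := F) U l (fun j : Fin m1 => (Fin.castAdd m2 j).succ) c1
  obtain ⟨Y, hY, hY1⟩ := exists_lift (F := F) U l (fun j : Fin m2 => (Fin.natAdd m1 j).succ) c2
  have hX2 : X.eval 1 = x := by
    rw [hX1, hs1]
    refine Finset.sum_congr rfl fun j _ => ?_
    rw [hW, Fin.cons_succ, Fin.append_left]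
  have hY2 : Y.eval 1 = y := by
    rw [hY1, hs2]
    refine Finset.sum_congr rfl fun j _ => ?_
    rw [hW, Fin.cons_succ, Fin.append_right]
  set E : Polynomial G := Polynomial.X ^ (l 0) with hE
  have hEL : Lift F U l 1 E := by
    have h := Lift.gen (F := F) (U := U) (l := l) 0
    rw [hU0, Polynomial.C_1, one_mul] at h
    exact h
  have hE1 : E.eval 1 = 1 := by rw [hE]; simp
  set A : Polynomial G := E ^ (m + 1) * Y ^ (n + 1) with hA
  set B : Polynomial G := E ^ (n + 1) * X ^ (m + 1) with hB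
  have hAL : Lift F U l (m + n + 2) A := by
    have h := (hEL.pow (m + 1)).mul (hY.pow (n + 1))
    have h1 : 1 * (m + 1) + 1 * (n + 1) = m + n + 2 := by ring
    rwa [h1] at h
  have hBL : Lift F U l (m + n + 2) B := by
    have h := (hEL.pow (n + 1)).mul (hX.pow (m + 1))
    have h1 : 1 * (n + 1) + 1 * (m + 1) = m + n + 2 := by ring
    rwa [h1] at h
  have hDL : Lift F U l (m + n + 2) (A - B) := hAL.sub hBL
  -- the Wronskian without its obvious factors
  set ω : Polynomial G := Polynomial.C ((m : G) - n) * (th E * X * Y) +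
    Polynomial.C ((n : G) + 1) * (E * X * th Y) - Polynomial.C ((m : G) + 1) * (E * Y * th X)
    with hω
  have hωL : Lift F U l 3 ω := by
    have h1 : Lift F U l 3 (th E * X * Y) := (hEL.th.mul hX).mul hY
    have h2 : Lift F U l 3 (E * X * th Y) := (hEL.mul hX).mul hY.th
    have h3 : Lift F U l 3 (E * Y * th X) := (hEL.mul hY).mul hX.th
    refine ((h1.smul ?_).add (h2.smul ?_)).sub (h3.smul ?_)
    · exact sub_mem (natCast_mem _ m) (natCast_mem _ n)
    · exact add_mem (natCast_mem _ n) (one_mem _)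
    · exact add_mem (natCast_mem _ m) (one_mem _)
  have hthA : th A = (m + 1 : ℕ) * E ^ m * th E * Y ^ (n + 1) +
      E ^ (m + 1) * ((n + 1 : ℕ) * Y ^ n * th Y) := by
    rw [hA, th_mul, th_pow, th_pow]
  have hthB : th B = (n + 1 : ℕ) * E ^ n * th E * X ^ (m + 1) +
      E ^ (n + 1) * ((m + 1 : ℕ) * X ^ m * th X) := by
    rw [hB, th_mul, th_pow, th_pow]
  have hid : E * X * th (A - B) - (A - B) * (Polynomial.C ((n : G) + 1) * th E * X +
      Polynomial.C ((m : G) + 1) * E * th X) = E ^ (m + 1) * Y ^ n * ω := by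
    rw [th_sub, hthA, hthB, hω, hA, hB]
    simp only [Polynomial.C_add, Polynomial.C_sub, Polynomial.C_1, map_natCast]
    push_cast
    ring
  set δ : G := y ^ (n + 1) - x ^ (m + 1) with hδ
  have hD1 : (A - B).eval 1 = δ := by
    rw [hA, hB, hδ, ← hX2, ← hY2]
    simp [hE1]
  -- the identity at 1
  have hid1 : y ^ n * ω.eval 1 = x * (th (A - B)).eval 1 -
      δ * (((n : G) + 1) * (th E).eval 1 * x + ((m : G) + 1) * (th X).eval 1) := by
    have h := congrArg (Polynomial.eval 1) hid
    simp only [Polynomial.eval_sub, Polynomial.eval_mul, Polynomial.eval_add, Polynomial.eval_pow,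
      Polynomial.eval_C, hE1, one_pow, one_mul, mul_one, hX2, hY2] at h
    rw [← h, ← hD1]
    simp only [Polynomial.eval_sub]
  have hthE : (th E).eval 1 ∈ F := by
    have h1 : (th E).eval 1 = (l 0 : G) := by
      have h2 := th_monomial (1 : G) (l 0)
      rw [Polynomial.C_1, one_mul] at h2
      rw [hE, h2]
      simp
    rw [h1]
    exact natCast_mem _ _
  by_cases hω0 : ω.eval 1 = 0
  · -- the Wronskian vanishes
    right
    intro D hD
    have h1 : ω = 0 := hωL.eq_zero hP hs (by omega) hω0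
    by_cases hB0 : B = 0
    · have h2 : x ^ (m + 1) = 0 := by
        have h3 := congrArg (Polynomial.eval 1) hB0
        rw [hB] at h3
        simpa [hE1, hX2] using h3
      rw [h2]
      exact hD.zero _
    -- A and B are proportional
    have hWid : th A * B - A * th B = E ^ (m + n + 1) * X ^ m * Y ^ n * ω := by
      rw [hthA, hthB, hω, hA, hB]
      simp only [Polynomial.C_add, Polynomial.C_sub, Polynomial.C_1, map_natCast]
      push_cast
      ring
    have hW : Polynomial.derivative A * B = A * Polynomial.derivative B := by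
      rw [h1, mul_zero] at hWid
      unfold th at hWid
      have h2 : Polynomial.X * (Polynomial.derivative A * B - A * Polynomial.derivative B) =
          0 := by
        linear_combination hWid
      exact sub_eq_zero.1 ((mul_eq_zero.1 h2).resolve_left Polynomial.X_ne_zero)
    obtain ⟨κ, hκ⟩ := prop_of_wr A B hB0 hW
    have hlc : B.coeff B.natDegree ≠ 0 := Polynomial.leadingCoeff_ne_zero.2 hB0
    have hκK : κ ∈ F := by
      have h2 := Lift.coeff_div hP hs (by omega) hAL hBL B.natDegree hlc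
      rw [hκ, Polynomial.coeff_C_mul, mul_div_assoc, div_self hlc, mul_one] at h2
      exact h2
    have hD2 : δ = (κ - 1) * x ^ (m + 1) := by
      rw [← hD1, hκ, hB]
      simp only [Polynomial.eval_sub, Polynomial.eval_mul, Polynomial.eval_pow, Polynomial.eval_C,
        hE1, one_pow, one_mul, hX2]
      ring
    have hκ1 : κ - 1 ≠ 0 := by
      intro h2
      rw [h2, zero_mul] at hD2
      exact hne hD2
    rw [hD2]
    have h3 := hD.mul (hD.oneF (sub_mem hκK (one_mem _)) hκ1) (hD.refl (x ^ (m + 1)))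
    rwa [one_mul] at h3
  · left
    refine ⟨ω.eval 1, hω0, hωL.sp hP hs, fun D hD => ⟨?_, ?_⟩⟩
    · rw [hid1]
      have h1 : D (x * (th (A - B)).eval 1) (x * δ) := by
        refine hD.mul (hD.refl _) ?_
        have h := hDL.th_dom hD hP hs (by omega)
        rwa [hD1] at h
      have h2 : D (((n : G) + 1) * (th E).eval 1 * x + ((m : G) + 1) * (th X).eval 1) x := by
        refine hD.add ?_ ?_
        · exact hD.smul (mul_mem (add_mem (natCast_mem _ n) (one_mem _)) hthE) (hD.refl _)
        · refine hD.smul (add_mem (natCast_mem _ m) (one_mem _)) ?_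
          have h3 := hX.th_dom hD hP hs (by omega)
          rwa [hX2] at h3
      refine hD.sub h1 ?_
      rw [mul_comm x δ]
      exact hD.mul (hD.refl _) h2
    · rw [hω]
      simp only [Polynomial.eval_sub, Polynomial.eval_mul, Polynomial.eval_add, Polynomial.eval_C,
        hE1, one_mul, hX2, hY2]
      refine hD.sub (hD.add ?_ ?_) ?_
      · refine hD.smul (sub_mem (natCast_mem _ m) (natCast_mem _ n)) ?_
        rw [mul_assoc]
        exact hD.smul hthE (hD.refl _)
      · refine hD.smul (add_mem (natCast_mem _ n) (one_mem _)) ?_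
        refine hD.mul (hD.refl _) ?_
        have h3 := hY.th_dom hD hP hs (by omega)
        rwa [hY2] at h3
      · refine hD.smul (add_mem (natCast_mem _ m) (one_mem _)) ?_
        rw [mul_comm x y]
        refine hD.mul (hD.refl _) ?_
        have h3 := hX.th_dom hD hP hs (by omega)
        rwa [hX2] at h3

end Pool.Agent.Run7.h28.HK
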