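import Mathlib
import Pool.Agent.N750.Eng
import Pool.Agent.N750.Loc
import Pool.Agent.Run7.h28.HK.Lf

/-!
# Project HK (helper28): germs of units of a number field, independence and domination

The subspace theorem with slowly moving forms (`Pool.Agent.N750.moving`) gives the structures `PS` and `DR`.
-/

set_option autoImplicit false
set_option linter.unusedSectionVars false

open Filter Topology

namespace Pool.Agent.Run7.h28.HK

open NumberField IsDedekindDomain Height Module
open Pool.Agent.W180.OP (Pl av wt nrm le_nrm nrm_pos wt_nonneg exists_nrm nrm_nonneg)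
open Pool.Agent.N750

variable {K : Type} [Field K] [NumberField K]

/-! ### Units -/

theorem wt_pos' (p : Pl K) : 0 < wt p := by
  rcases p with w | v
  · show (0 : ℝ) < (w.mult : ℝ)
    exact_mod_cast w.mult_pos
  · show (0 : ℝ) < 1
    exact one_pos

/-- `z` is a unit outside `S` -/
def IsU (S : Finset (Pl K)) (z : K) : Prop := z ≠ 0 ∧ ∀ v, v ∉ S → av v z = 1

lemma IsU.one (S : Finset (Pl K)) : IsU S (1 : K) := ⟨one_ne_zero, fun v _ => map_one _⟩

lemma IsU.mul {S : Finset (Pl K)} {a b : K} (ha : IsU S a) (hb : IsU S b) : IsU S (a * b) :=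
  ⟨mul_ne_zero ha.1 hb.1, fun v hv => by rw [map_mul, ha.2 v hv, hb.2 v hv, one_mul]⟩

lemma IsU.inv {S : Finset (Pl K)} {a : K} (ha : IsU S a) : IsU S a⁻¹ :=
  ⟨inv_ne_zero ha.1, fun v hv => by rw [map_inv₀, ha.2 v hv, inv_one]⟩

theorem height_S (S : Finset (Pl K)) (hS : ∀ w : InfinitePlace K, (Sum.inl w : Pl K) ∈ S) {n : ℕ}
    (x : Fin n → K) (hx : x ≠ 0) (h : ∀ v, v ∉ S → nrm (av v) x = 1) :
    ∑ v ∈ S, wt v * Real.log (nrm (av v) x) = logHeight x := by
  classical
  rw [Pool.Agent.R405.logHeight_sum x hx S.toRight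
    (fun v hv => h (Sum.inr v) (fun h' => hv (Finset.mem_toRight.2 h')))]
  have h1 : S.toLeft = Finset.univ := by
    ext w
    simp [Finset.mem_toLeft, hS w]
  conv_lhs => rw [← Finset.toLeft_disjSum_toRight (u := S)]
  rw [Finset.sum_disjSum, h1]
  congr 1
  refine Finset.sum_congr rfl fun v _ => ?_
  show 1 * _ = _
  rw [one_mul]
  rfl

lemma nrm_units {S : Finset (Pl K)} {n : ℕ} (hn : 0 < n) (x : Fin n → K) (hx : ∀ i, IsU S (x i))
    (v : Pl K) (hv : v ∉ S) : nrm (av v) x = 1 := by
  obtain ⟨j, hj⟩ := exists_nrm (av v) hn x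
  rw [← hj]
  exact (hx j).2 v hv

/-- the product formula for units -/
theorem prodU {S : Finset (Pl K)} (hS : ∀ w : InfinitePlace K, (Sum.inl w : Pl K) ∈ S) {z : K}
    (hz : IsU S z) : ∑ v ∈ S, wt v * Real.log (av v z) = 0 := by
  have h0 : (fun _ : Fin 1 => z) ≠ 0 := fun h => hz.1 (congrFun h 0)
  have h1 := height_S S hS (fun _ : Fin 1 => z) h0
    (nrm_units one_pos _ (fun _ => hz))
  rw [Height.logHeight_eq_zero_of_subsingleton] at h1
  rw [← h1]
  refine Finset.sum_congr rfl fun v _ => ?_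
  unfold nrm
  rw [ciSup_const]

theorem heightU {S : Finset (Pl K)} (hS : ∀ w : InfinitePlace K, (Sum.inl w : Pl K) ∈ S) {n : ℕ}
    (hn : 0 < n) (x : Fin n → K) (hx : ∀ i, IsU S (x i)) :
    ∑ v ∈ S, wt v * Real.log (nrm (av v) x) = logHeight x :=
  height_S S hS x (fun h => (hx ⟨0, hn⟩).1 (congrFun h _)) fun v hv => nrm_units hn x hx v hv

/-- an identity matrix with one row replaced -/
lemma row_det {n : ℕ} {E : Type} [Field E] (a0 : Fin n) (e : Fin n → E) (he : e a0 ≠ 0) :
    (Matrix.of fun a i => if a = a0 then e i else if a = i then (1 : E) else 0).det ≠ 0 := by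
  intro h
  obtain ⟨x, hx, h1⟩ := Matrix.exists_mulVec_eq_zero_iff.2 h
  apply hx
  have h2 : ∀ a, (if a = a0 then ∑ i, e i * x i else x a) = 0 := by
    intro a
    have h3 := congrFun h1 a
    rw [Matrix.mulVec, dotProduct] at h3
    simp only [Matrix.of_apply, Pi.zero_apply] at h3
    split_ifs with h4
    · simpa [h4] using h3
    · simpa [h4] using h3
  have h3 : ∀ a, a ≠ a0 → x a = 0 := fun a ha => by
    have := h2 a
    rwa [if_neg ha] at this
  have h4 : x a0 = 0 := by
    have h5 := h2 a0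
    rw [if_pos rfl, Finset.sum_eq_single a0 (fun i _ hi => by rw [h3 i hi, mul_zero])
      (fun h => absurd (Finset.mem_univ _) h)] at h5
    exact (mul_eq_zero.1 h5).resolve_left he
  funext a
  by_cases ha : a = a0
  · rw [ha, h4]; rfl
  · exact h3 a ha

variable {α : Type} {𝓕 : Ultrafilter α} {H : α → ℝ}

lemma slow_row (hH : Tendsto H 𝓕 atTop) {n : ℕ} (a0 : Fin n) (e : Fin n → α → K)
    (he : ∀ i, Slow 𝓕 H (e i)) (a i : Fin n) :
    Slow 𝓕 H (fun t => if a = a0 then e i t else if a = i then (1 : K) else 0) := by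
  by_cases h : a = a0
  · simp only [h, if_true]
    exact he i
  · simp only [h, if_false]
    exact slow_const hH _

/-- sizes of slow functions -/
lemma slow_le {a : α → K} (ha : Slow 𝓕 H a) (v : Pl K) {ε : ℝ} (hε : 0 < ε) :
    ∀ᶠ t in (𝓕 : Filter α), av v (a t) ≤ Real.exp (ε * H t) := by
  have hw := wt_pos' v
  filter_upwards [ha.loc v (ε := wt v * ε) (mul_pos hw hε)] with t ht
  by_cases h0 : a t = 0
  · rw [h0, map_zero]
    exact (Real.exp_pos _).le
  · have h1 : 0 < av v (a t) := (av v).pos_iff.2 h0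
    rw [← Real.exp_log h1]
    refine Real.exp_le_exp.2 ?_
    have h2 := (abs_le.1 ht).2
    rw [mul_assoc] at h2
    exact le_of_mul_le_mul_left h2 hw

lemma slow_ge {a : α → K} (ha : Slow 𝓕 H a) (h0 : ∀ᶠ t in (𝓕 : Filter α), a t ≠ 0) (v : Pl K)
    {ε : ℝ} (hε : 0 < ε) :
    ∀ᶠ t in (𝓕 : Filter α), 1 ≤ Real.exp (ε * H t) * av v (a t) := by
  filter_upwards [slow_le ha.inv v hε, h0] with t ht h0
  rw [map_inv₀] at ht
  have h1 : 0 < av v (a t) := (av v).pos_iff.2 h0
  rwa [inv_le_iff_one_le_mul₀ h1] at ht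

lemma hH_le (hH : Tendsto H 𝓕 atTop) (C : ℝ) : ∀ᶠ t in (𝓕 : Filter α), C ≤ H t :=
  hH.eventually_ge_atTop C

/-- a bound for the height of a family -/
lemma ht_fam {n : ℕ} (u : Fin n → α → K) {C : ℝ} (hC : ∀ i, ∀ᶠ t in (𝓕 : Filter α),
    logHeight₁ (u i t) ≤ C * H t) :
    ∀ᶠ t in (𝓕 : Filter α), logHeight (fun i => u i t) ≤ (n * C) * H t := by
  have h1 : ∀ᶠ t in (𝓕 : Filter α), ∀ i, logHeight₁ (u i t) ≤ C * H t :=
    eventually_all.2 hC
  filter_upwards [h1] with t ht
  refine (logHeight_le_sum _).trans ((Finset.sum_le_sum fun i _ => ht i).trans (le_of_eq ?_))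
  rw [Finset.sum_const, Finset.card_univ, Fintype.card_fin, nsmul_eq_mul, mul_assoc]

/-- the inductive step of the independence -/
theorem ind_step (hH : Tendsto H 𝓕 atTop) (S : Finset (Pl K))
    (hS : ∀ w : InfinitePlace K, (Sum.inl w : Pl K) ∈ S) (N : ℕ) (hN : 2 ≤ N)
    (u : Fin (N + 1) → α → K) (hu : ∀ i t, IsU S (u i t)) (C : ℝ)
    (hC : ∀ i, ∀ᶠ t in (𝓕 : Filter α), logHeight₁ (u i t) ≤ C * H t)
    (hind : ∀ c : Fin N → α → K, (∀ i, Slow 𝓕 H (c i)) →
      (∀ᶠ t in (𝓕 : Filter α), ∑ i, c i t * u i.castSucc t = 0) →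
      ∀ i, ∀ᶠ t in (𝓕 : Filter α), c i t = 0)
    (c : Fin (N + 1) → α → K) (hc : ∀ i, Slow 𝓕 H (c i))
    (h0 : ∀ᶠ t in (𝓕 : Filter α), ∑ i, c i t * u i t = 0)
    (hz' : ∀ i, ∀ᶠ t in (𝓕 : Filter α), c i t ≠ 0) (ε : ℝ) (hε : 0 < ε) :
    ∀ᶠ t in (𝓕 : Filter α), logHeight (fun i : Fin N => u i.castSucc t) ≤ ε * H t := by
  classical
  obtain ⟨g, hg⟩ : ∃ g : Fin N → α → K, g = fun i => u i.castSucc := ⟨_, rfl⟩
  obtain ⟨e, he⟩ : ∃ e : Fin N → α → K,
    e = fun i t => -(c i.castSucc t * (c (Fin.last N) t)⁻¹) := ⟨_, rfl⟩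
  have hes : ∀ i, Slow 𝓕 H (e i) := by
    intro i
    rw [he]
    exact ((hc i.castSucc).mul (hc (Fin.last N)).inv).neg
  have hgu : ∀ i t, IsU S (g i t) := fun i t => by rw [hg]; exact hu _ _
  have hgC : ∀ i, ∀ᶠ t in (𝓕 : Filter α), logHeight₁ (g i t) ≤ C * H t := fun i => by
    rw [hg]; exact hC _
  have hind' : ∀ c : Fin N → α → K, (∀ i, Slow 𝓕 H (c i)) →
      (∀ᶠ t in (𝓕 : Filter α), ∑ i, c i t * g i t = 0) →
      ∀ i, ∀ᶠ t in (𝓕 : Filter α), c i t = 0 := by rw [hg]; exact hind
  have hgoal : ∀ t, (fun i : Fin N => u i.castSucc t) = fun i => g i t := fun t => by rw [hg]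
  simp only [hgoal]
  have hmax : ∀ v : Pl K, ∃ a : Fin N, ∀ᶠ t in (𝓕 : Filter α),
      av v (g a t) = nrm (av v) (fun i => g i t) := by
    intro v
    rw [← Ultrafilter.eventually_exists_iff]
    exact Eventually.of_forall fun t => exists_nrm (av v) (by omega) (fun i => g i t)
  choose am ham using hmax
  have h1 := moving hH hN S g (N * C) (ht_fam g hgC) hind'
    (fun v a i t => if a = am v then e i t else if a = i then 1 else 0)
    (fun v a i => slow_row hH (am v) e hes a i)
    (fun v _ => by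
      filter_upwards [hz' (am v).castSucc, hz' (Fin.last N)] with t h2 h3
      refine row_det (am v) (fun i => e i t) ?_
      rw [he]
      exact neg_ne_zero.2 (mul_ne_zero h2 (inv_ne_zero h3))) ε hε
  have h2 : ∀ᶠ t in (𝓕 : Filter α), ∀ v ∈ S, av v (g (am v) t) =
      nrm (av v) (fun i => g i t) := by
    rw [Filter.eventually_all_finset]
    exact fun v _ => ham v
  filter_upwards [h1, h2, h0, hz' (Fin.last N)] with t h3 h4 h5 h6
  have hval : ∑ i, e i t * g i t = u (Fin.last N) t := by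
    rw [Fin.sum_univ_castSucc] at h5
    rw [he, hg]
    simp only
    have h7 : ∑ i : Fin N, -(c i.castSucc t * (c (Fin.last N) t)⁻¹) * u i.castSucc t =
        -(c (Fin.last N) t)⁻¹ * ∑ i : Fin N, c i.castSucc t * u i.castSucc t := by
      rw [Finset.mul_sum]
      exact Finset.sum_congr rfl fun i _ => by ring
    rw [h7, eq_neg_of_add_eq_zero_left h5]
    field_simp
  have hrow : ∀ v ∈ S, ∑ a, (Real.log (nrm (av v) (fun i => g i t)) -
      Real.log (av v (∑ i, (if a = am v then e i t else if a = i then 1 else 0) * g i t))) =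
      (N + 1) * Real.log (nrm (av v) (fun i => g i t)) - ∑ a, Real.log (av v (g a t)) -
        Real.log (av v (u (Fin.last N) t)) := by
    intro v hv
    have h7 : ∀ a, Real.log (av v (∑ i, (if a = am v then e i t else if a = i then 1 else 0) *
        g i t)) = Real.log (av v (g a t)) +
        if a = am v then (Real.log (av v (u (Fin.last N) t)) - Real.log (av v (g (am v) t)))
          else 0 := by
      intro a
      by_cases ha : a = am v
      · simp only [ha, if_true]
        rw [hval]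
        ring
      · simp only [ha, if_false, ite_mul, one_mul, zero_mul, Finset.sum_ite_eq,
          Finset.mem_univ, if_true, add_zero]
    simp only [h7]
    rw [Finset.sum_sub_distrib, Finset.sum_add_distrib, Finset.sum_ite_eq' Finset.univ (am v),
      if_pos (Finset.mem_univ _), Finset.sum_const, Finset.card_univ, Fintype.card_fin,
      nsmul_eq_mul, h4 v hv]
    ring
  rw [Finset.sum_congr rfl fun v hv => by rw [hrow v hv]] at h3
  have h8 : ∑ v ∈ S, wt v * ((N + 1) * Real.log (nrm (av v) (fun i => g i t)) -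
      ∑ a, Real.log (av v (g a t)) - Real.log (av v (u (Fin.last N) t))) =
      (N + 1) * logHeight (fun i => g i t) := by
    have h9 := heightU hS (by omega : 0 < N) (fun i => g i t) (fun i => hgu i t)
    have h10 := prodU hS (hu (Fin.last N) t)
    have h11 : ∑ v ∈ S, wt v * ∑ a, Real.log (av v (g a t)) = 0 := by
      simp only [Finset.mul_sum]
      rw [Finset.sum_comm]
      exact Finset.sum_eq_zero fun a _ => prodU hS (hgu a t)
    have h12 : ∀ v ∈ S, wt v * ((N + 1) * Real.log (nrm (av v) (fun i => g i t)) -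
        ∑ a, Real.log (av v (g a t)) - Real.log (av v (u (Fin.last N) t))) =
        (N + 1) * (wt v * Real.log (nrm (av v) (fun i => g i t))) -
        wt v * ∑ a, Real.log (av v (g a t)) - wt v * Real.log (av v (u (Fin.last N) t)) := by
      intro v _
      ring
    rw [Finset.sum_congr rfl h12, Finset.sum_sub_distrib, Finset.sum_sub_distrib,
      ← Finset.mul_sum, h9, h11, h10]
    ring
  rw [h8] at h3
  linarith

/-- **Independence of unit germs**, for functions. -/
theorem ind_fun (hH : Tendsto H 𝓕 atTop) (S : Finset (Pl K))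
    (hS : ∀ w : InfinitePlace K, (Sum.inl w : Pl K) ∈ S) :
    ∀ (m : ℕ) (u : Fin m → α → K), (∀ i t, IsU S (u i t)) →
    (∃ C : ℝ, ∀ i, ∀ᶠ t in (𝓕 : Filter α), logHeight₁ (u i t) ≤ C * H t) →
    (∀ i j, i ≠ j → ¬ Slow 𝓕 H (fun t => u i t / u j t)) →
    ∀ c : Fin m → α → K, (∀ i, Slow 𝓕 H (c i)) →
    (∀ᶠ t in (𝓕 : Filter α), ∑ i, c i t * u i t = 0) →
    ∀ i, ∀ᶠ t in (𝓕 : Filter α), c i t = 0 := by
  classical
  intro m
  induction m with
  | zero => intro u _ _ _ c _ _ i; exact i.elim0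
  | succ n ih =>
    intro u hu hC hne c hc h0
    obtain ⟨C, hC⟩ := hC
    by_cases hz : ∃ i, ∀ᶠ t in (𝓕 : Filter α), c i t = 0
    · -- one of the coefficients vanishes
      obtain ⟨i0, hi0⟩ := hz
      have h1 := ih (fun i => u (i0.succAbove i)) (fun i t => hu _ _) ⟨C, fun i => hC _⟩
        (fun i j hij => hne _ _ (fun h => hij (Fin.succAbove_right_injective h)))
        (fun i => c (i0.succAbove i)) (fun i => hc _) (by
          filter_upwards [h0, hi0] with t h2 h3
          rw [Fin.sum_univ_succAbove _ i0, h3, zero_mul, zero_add] at h2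
          exact h2)
      intro i
      by_cases hi : i = i0
      · rw [hi]; exact hi0
      · obtain ⟨j, rfl⟩ := Fin.exists_succAbove_eq hi
        exact h1 j
    · exfalso
      have hz' : ∀ i, ∀ᶠ t in (𝓕 : Filter α), c i t ≠ 0 := fun i =>
        not_ev_zero fun h => hz ⟨i, h⟩
      rcases n with _ | n
      · obtain ⟨t, h1, h2⟩ := (h0.and (hz' 0)).exists
        rw [Fin.sum_univ_one] at h1
        exact (mul_ne_zero h2 (hu 0 t).1) h1
      rcases n with _ | n
      · -- two terms
        refine hne 0 1 (by decide) ?_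
        have h1 : Slow 𝓕 H (fun t => -(c 1 t * (c 0 t)⁻¹)) := ((hc 1).mul (hc 0).inv).neg
        refine h1.congr ?_
        filter_upwards [h0, hz' 0] with t h2 h3
        rw [Fin.sum_univ_two] at h2
        have h4 := (hu 1 t).1
        field_simp
        linear_combination -h2
      -- the subspace theorem
      have hind := ih (fun i => u i.castSucc) (fun i t => hu _ _) ⟨C, fun i => hC _⟩
        (fun i j hij => hne _ _ fun h => hij (Fin.castSucc_injective _ h))
      refine hne 0 1 (by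
        intro h
        have := congrArg Fin.val h
        simp at this) ?_
      intro ε hε
      filter_upwards [ind_step hH S hS (n + 2) (by omega) u hu C hC hind c hc h0 hz' ε hε]
        with t ht
      rw [logHeight₁_div_eq_logHeight]
      have h2 : ![u 0 t, u 1 t] = (fun i : Fin (n + 2) => u i.castSucc t) ∘
          ![(0 : Fin (n + 2)), 1] := by
        funext j
        fin_cases j
        · rfl
        · rfl
      rw [h2]
      exact (logHeight_comp_le _ _).trans ht

/-- **Domination**, for functions. -/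
theorem dom_fun (hH : Tendsto H 𝓕 atTop) (S : Finset (Pl K))
    (hS : ∀ w : InfinitePlace K, (Sum.inl w : Pl K) ∈ S) {m : ℕ} (u : Fin m → α → K)
    (hu : ∀ i t, IsU S (u i t))
    (hC : ∃ C : ℝ, ∀ i, ∀ᶠ t in (𝓕 : Filter α), logHeight₁ (u i t) ≤ C * H t)
    (hne : ∀ i j, i ≠ j → ¬ Slow 𝓕 H (fun t => u i t / u j t))
    (c : Fin m → α → K) (hc : ∀ i, Slow 𝓕 H (c i)) (i0 : Fin m)
    (hi0 : ∀ᶠ t in (𝓕 : Filter α), c i0 t ≠ 0) (v0 : Pl K) (hv0 : v0 ∈ S) (ε : ℝ) (hε : 0 < ε) :
    ∀ᶠ t in (𝓕 : Filter α), av v0 (u i0 t) ≤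
      Real.exp (ε * H t) * av v0 (∑ i, c i t * u i t) := by
  classical
  rcases Nat.lt_or_ge m 2 with hm | hm
  · have hm1 : m = 1 := by have := i0.2; omega
    subst hm1
    have h0 : i0 = 0 := Subsingleton.elim _ _
    subst h0
    filter_upwards [slow_ge (hc 0) hi0 v0 hε] with t ht
    rw [Fin.sum_univ_one, map_mul, ← mul_assoc]
    exact le_mul_of_one_le_left ((av v0).nonneg _) ht
  have hind := ind_fun hH S hS _ u hu hC hne
  obtain ⟨C, hC⟩ := hC
  by_contra hcon
  rw [← Ultrafilter.eventually_not] at hcon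
  have hw := wt_pos' v0
  have h1 := moving hH hm S u (m * C) (ht_fam u hC) (fun c' hc' h' => hind c' hc' h')
    (fun v a i t => if v = v0 then (if a = i0 then c i t else if a = i then 1 else 0) else
      (if a = i then 1 else 0))
    (fun v a i => by
      by_cases h : v = v0
      · simp only [h, if_true]
        exact slow_row hH i0 c hc a i
      · simp only [h, if_false]
        exact slow_const hH _)
    (fun v _ => by
      by_cases h : v = v0
      · filter_upwards [hi0] with t h2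
        simp only [h, if_true]
        exact row_det i0 (fun i => c i t) h2
      · refine Eventually.of_forall fun t => ?_
        simp only [h, if_false]
        have h3 : (Matrix.of fun a i => if a = i then (1 : K) else 0 : Matrix (Fin m) (Fin m) K) =
            1 := by
          ext a i
          rfl
        rw [h3, Matrix.det_one]
        exact one_ne_zero) (ε * wt v0 / 2) (by positivity)
  have h0 : ∀ᶠ t in (𝓕 : Filter α), ∑ i, c i t * u i t ≠ 0 := by
    refine not_ev_zero fun h => ?_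
    obtain ⟨t, h2, h3⟩ := (hi0.and (hind c hc h i0)).exists
    exact h2 h3
  obtain ⟨t, h2, h3, h4, h5⟩ := (h1.and (hcon.and (h0.and (hH_le hH 1)))).exists
  rw [not_le] at h3
  have hrow : ∀ v ∈ S, ∑ a, (Real.log (nrm (av v) (fun i => u i t)) -
      Real.log (av v (∑ i, (if v = v0 then (if a = i0 then c i t else if a = i then 1 else 0) else
      (if a = i then 1 else 0)) * u i t))) =
      m * Real.log (nrm (av v) (fun i => u i t)) - ∑ a, Real.log (av v (u a t)) -
        if v = v0 then (Real.log (av v0 (∑ i, c i t * u i t)) - Real.log (av v0 (u i0 t)))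
          else 0 := by
    intro v hv
    by_cases h : v = v0
    · subst h
      have h7 : ∀ a, Real.log (av v (∑ i, (if a = i0 then c i t else if a = i then 1 else 0) *
          u i t)) = Real.log (av v (u a t)) +
          if a = i0 then (Real.log (av v (∑ i, c i t * u i t)) - Real.log (av v (u i0 t)))
            else 0 := by
        intro a
        by_cases ha : a = i0
        · simp only [ha, if_true]
          ring
        · simp only [ha, if_false, ite_mul, one_mul, zero_mul, Finset.sum_ite_eq,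
            Finset.mem_univ, if_true, add_zero]
      simp only [if_true, h7]
      rw [Finset.sum_sub_distrib, Finset.sum_add_distrib, Finset.sum_ite_eq' Finset.univ i0,
        if_pos (Finset.mem_univ _), Finset.sum_const, Finset.card_univ, Fintype.card_fin,
        nsmul_eq_mul]
      ring
    · simp only [h, if_false, ite_mul, one_mul, zero_mul, Finset.sum_ite_eq,
        Finset.mem_univ, if_true, sub_zero]
      rw [Finset.sum_sub_distrib, Finset.sum_const, Finset.card_univ, Fintype.card_fin,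
        nsmul_eq_mul]
  rw [Finset.sum_congr rfl fun v hv => by rw [hrow v hv]] at h2
  have h8 : ∑ v ∈ S, wt v * (m * Real.log (nrm (av v) (fun i => u i t)) -
      ∑ a, Real.log (av v (u a t)) -
        if v = v0 then (Real.log (av v0 (∑ i, c i t * u i t)) - Real.log (av v0 (u i0 t)))
          else 0) = m * logHeight (fun i => u i t) -
      wt v0 * (Real.log (av v0 (∑ i, c i t * u i t)) - Real.log (av v0 (u i0 t))) := by
    have h9 := heightU hS (by omega : 0 < m) (fun i => u i t) (fun i => hu i t)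
    have h11 : ∑ v ∈ S, wt v * ∑ a, Real.log (av v (u a t)) = 0 := by
      simp only [Finset.mul_sum]
      rw [Finset.sum_comm]
      exact Finset.sum_eq_zero fun a _ => prodU hS (hu a t)
    have h12 : ∀ v ∈ S, wt v * (m * Real.log (nrm (av v) (fun i => u i t)) -
        ∑ a, Real.log (av v (u a t)) -
        if v = v0 then (Real.log (av v0 (∑ i, c i t * u i t)) - Real.log (av v0 (u i0 t)))
          else 0) =
        m * (wt v * Real.log (nrm (av v) (fun i => u i t))) -
        wt v * ∑ a, Real.log (av v (u a t)) -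
        if v = v0 then wt v0 * (Real.log (av v0 (∑ i, c i t * u i t)) -
          Real.log (av v0 (u i0 t))) else 0 := by
      intro v _
      by_cases h : v = v0
      · simp only [h, if_true]
        ring
      · simp only [h, if_false]
        ring
    rw [Finset.sum_congr rfl h12, Finset.sum_sub_distrib, Finset.sum_sub_distrib,
      ← Finset.mul_sum, h9, h11, Finset.sum_ite_eq' S v0, if_pos hv0]
    ring
  rw [h8] at h2
  have h13 : 0 < av v0 (∑ i, c i t * u i t) := (av v0).pos_iff.2 h4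
  have h14 : ε * H t + Real.log (av v0 (∑ i, c i t * u i t)) < Real.log (av v0 (u i0 t)) := by
    have h15 := Real.log_lt_log (mul_pos (Real.exp_pos _) h13) h3
    rwa [Real.log_mul (Real.exp_pos _).ne' h13.ne', Real.log_exp] at h15
  have h15 : wt v0 * (Real.log (av v0 (∑ i, c i t * u i t)) - Real.log (av v0 (u i0 t))) <
      wt v0 * (-(ε * H t)) := by
    refine mul_lt_mul_of_pos_left ?_ hw
    linarith
  have h16 : 0 < wt v0 * ε * H t := by
    have : (0 : ℝ) < H t := by linarith
    positivity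
  nlinarith

/-- **The lower bound of Liouville for sums of units.** -/
theorem lower_fun (hH : Tendsto H 𝓕 atTop) (S : Finset (Pl K))
    (hS : ∀ w : InfinitePlace K, (Sum.inl w : Pl K) ∈ S) {n : ℕ} (u : Fin n → α → K)
    (hu : ∀ i t, IsU S (u i t)) (c : Fin n → α → K) (hc : ∀ i, Slow 𝓕 H (c i))
    (h0 : ∀ᶠ t in (𝓕 : Filter α), ∑ i, c i t * u i t ≠ 0) (ε : ℝ) (hε : 0 < ε) :
    ∀ᶠ t in (𝓕 : Filter α), -(ε * H t) ≤
      ∑ v ∈ S, wt v * Real.log (av v (∑ i, c i t * u i t)) := by
  classical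
  rcases Nat.eq_zero_or_pos n with hn | hn
  · subst hn
    filter_upwards [h0] with t ht
    simp at ht
  have h1 : ∀ᶠ t in (𝓕 : Filter α), logHeight (Fin.cons 1 (fun i => c i t) : Fin (n + 1) → K) ≤
      ε / 2 * H t := by
    have h2 := slow_vec hH (a := (Fin.cons (fun _ => 1) c : Fin (n + 1) → α → K)) (fun i => by
      refine Fin.cases ?_ (fun j => ?_) i
      · exact slow_const hH 1
      · exact hc j) (ε := ε / 2) (by positivity)
    refine h2.mono fun t ht => ?_
    have h3 : (fun i => (Fin.cons (fun _ => 1) c : Fin (n + 1) → α → K) i t) =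
        (Fin.cons 1 (fun i => c i t) : Fin (n + 1) → K) := by
      funext i
      refine Fin.cases ?_ (fun j => ?_) i
      · rfl
      · rfl
    rwa [h3] at ht
  filter_upwards [h0, h1, hH_le hH ((finrank ℚ K * Real.log (max 1 n)) / (ε / 2))] with t h2 h3 h4
  have h5 : ∑ j, u j t * c j t ≠ 0 := by
    rwa [Finset.sum_congr rfl fun j _ => mul_comm (u j t) (c j t)]
  have h6 := liouE (fun j => u j t) (fun j => c j t) h5 S
  rw [Finset.sum_congr rfl fun j _ => mul_comm (u j t) (c j t)] at h6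
  rw [div_le_iff₀ (by positivity)] at h4
  have h7 := heightU hS hn (fun i => u i t) (fun i => hu i t)
  simp only [mul_sub, Finset.sum_sub_distrib] at h6
  rw [h7] at h6
  have h8 : H t * (ε / 2) = ε / 2 * H t := mul_comm _ _
  linarith

/-! ### Germs -/

/-- a representative of a germ -/
noncomputable def rep (g : Gm 𝓕 K) : α → K := (mk_surj g).choose

lemma mk_rep (g : Gm 𝓕 K) : mk 𝓕 (rep g) = g := (mk_surj g).choose_spec

lemma rep_mk (a : α → K) : ∀ᶠ t in (𝓕 : Filter α), rep (mk 𝓕 a) t = a t := mk_eq.1 (mk_rep _)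

/-- `f` is dominated by `g` at the place `v` -/
def Dm (H : α → ℝ) (v : Pl K) (f g : Gm 𝓕 K) : Prop :=
  ∀ ε : ℝ, 0 < ε → ∀ᶠ t in (𝓕 : Filter α),
    av v (rep f t) ≤ Real.exp (ε * H t) * av v (rep g t)

/-- germs of units of moderate height -/
def PU (𝓕 : Ultrafilter α) (H : α → ℝ) (S : Finset (Pl K)) (g : Gm 𝓕 K) : Prop :=
  ∃ a : α → K, mk 𝓕 a = g ∧ (∀ t, IsU S (a t)) ∧
    ∃ C : ℝ, ∀ᶠ t in (𝓕 : Filter α), logHeight₁ (a t) ≤ C * H t

lemma dm_mk {v : Pl K} {a b : α → K} : Dm H v (mk 𝓕 a) (mk 𝓕 b) ↔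
    ∀ ε : ℝ, 0 < ε → ∀ᶠ t in (𝓕 : Filter α), av v (a t) ≤ Real.exp (ε * H t) * av v (b t) := by
  constructor
  · intro h ε hε
    filter_upwards [h ε hε, rep_mk a, rep_mk b] with n h1 h2 h3
    rwa [h2, h3] at h1
  · intro h ε hε
    filter_upwards [h ε hε, rep_mk a, rep_mk b] with n h1 h2 h3
    rwa [h2, h3]

lemma mk_sum {m : ℕ} (c u : Fin m → α → K) :
    ∑ i, mk 𝓕 (c i) * mk 𝓕 (u i) = mk 𝓕 (fun t => ∑ i, c i t * u i t) := by
  simp_rw [← map_mul]
  rw [← map_sum]
  congr 1
  funext t
  rw [Finset.sum_apply]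
  rfl

lemma mk_div (a b : α → K) : mk 𝓕 a / mk 𝓕 b = mk 𝓕 (fun t => a t / b t) := by
  rw [div_eq_mul_inv, mk_inv, ← map_mul]
  congr 1
  funext t
  rw [div_eq_mul_inv]
  rfl

lemma mk_slow {hH : Tendsto H 𝓕 atTop} {a : α → K} : mk 𝓕 a ∈ slowF 𝓕 K H hH ↔ Slow 𝓕 H a :=
  ⟨slow_of_mem, fun h => ⟨a, rfl, h⟩⟩

/-- the germs of moderate units form an independent set over the slow germs -/
theorem ps (hH : Tendsto H 𝓕 atTop) (S : Finset (Pl K))
    (hS : ∀ w : InfinitePlace K, (Sum.inl w : Pl K) ∈ S) :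
    PS (slowF 𝓕 K H hH) (PU 𝓕 H S) where
  rt := by
    intro g m hm hg
    obtain ⟨a, rfl⟩ := mk_surj g
    rw [← map_pow, mk_slow] at hg
    rw [mk_slow]
    intro ε hε
    have hm0 : (0 : ℝ) < m := by exact_mod_cast Nat.pos_of_ne_zero hm
    filter_upwards [hg (m * ε) (by positivity)] with t ht
    rw [Pi.pow_apply, logHeight₁_pow] at ht
    have h1 : (m : ℝ) * logHeight₁ (a t) ≤ m * (ε * H t) := by
      rw [← mul_assoc]
      exact_mod_cast ht
    exact le_of_mul_le_mul_left h1 hm0
  one := ⟨fun _ => 1, by rw [← map_one (mk 𝓕)]; rfl, fun t => IsU.one S, 0,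
    Eventually.of_forall fun t => by simp⟩
  mul := by
    rintro _ _ ⟨a, rfl, ha, C, hC⟩ ⟨b, rfl, hb, C', hC'⟩
    refine ⟨fun t => a t * b t, by rw [← map_mul]; rfl, fun t => (ha t).mul (hb t), C + C', ?_⟩
    filter_upwards [hC, hC'] with t h1 h2
    refine (logHeight₁_mul_le _ _).trans ?_
    rw [add_mul]
    exact add_le_add h1 h2
  ne := by
    rintro _ ⟨a, rfl, ha, -⟩
    rw [mk_ne_zero]
    exact Eventually.of_forall fun t => (ha t).1
  ind := by
    intro m u hu hne c h0
    choose a ha1 ha2 ha3 using hu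
    choose C hC using ha3
    choose c' hc1 hc2 using fun i => (c i).2
    have h1 : ∀ i, ∀ᶠ t in (𝓕 : Filter α), logHeight₁ (a i t) ≤ (∑ i, |C i|) * H t := by
      intro i
      filter_upwards [hC i, hH_le hH 0] with t h2 h3
      refine h2.trans (mul_le_mul_of_nonneg_right ?_ h3)
      exact (le_abs_self _).trans (Finset.single_le_sum (f := fun i => |C i|)
        (fun _ _ => abs_nonneg _) (Finset.mem_univ i))
    have h2 := ind_fun hH S hS m a ha2 ⟨_, h1⟩ (by
      intro i j hij hs
      apply hne i j hij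
      rw [← ha1 i, ← ha1 j, mk_div, mk_slow]
      exact hs) c' hc2 (by
      rw [← mk_eq_zero, ← mk_sum, ← h0]
      exact Finset.sum_congr rfl fun i _ => by rw [hc1, ha1])
    intro i
    have h3 := h2 i
    rw [← mk_eq_zero, hc1] at h3
    exact Subtype.ext h3

/-- domination at a place of `S` -/
theorem dr (hH : Tendsto H 𝓕 atTop) (S : Finset (Pl K))
    (hS : ∀ w : InfinitePlace K, (Sum.inl w : Pl K) ∈ S) (v : Pl K) (hv : v ∈ S) :
    DR (slowF 𝓕 K H hH) (PU 𝓕 H S) (Dm H v) where
  refl := by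
    intro f ε hε
    filter_upwards [hH_le hH 0] with t ht
    exact le_mul_of_one_le_left ((av v).nonneg _) (Real.one_le_exp (by positivity))
  trans := by
    intro f g h h1 h2 ε hε
    filter_upwards [h1 (ε / 2) (by positivity), h2 (ε / 2) (by positivity)] with n h3 h4
    calc av v (rep f n) ≤ Real.exp (ε / 2 * H n) * av v (rep g n) := h3
      _ ≤ Real.exp (ε / 2 * H n) * (Real.exp (ε / 2 * H n) * av v (rep h n)) := by gcongr
      _ = Real.exp (ε * H n) * av v (rep h n) := by
        rw [← mul_assoc, ← Real.exp_add]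
        ring_nf
  mul := by
    intro f f' g g' h1 h2
    obtain ⟨f, rfl⟩ := mk_surj f
    obtain ⟨f', rfl⟩ := mk_surj f'
    obtain ⟨g, rfl⟩ := mk_surj g
    obtain ⟨g', rfl⟩ := mk_surj g'
    rw [← map_mul, ← map_mul, dm_mk]
    rw [dm_mk] at h1 h2
    intro ε hε
    filter_upwards [h1 (ε / 2) (by positivity), h2 (ε / 2) (by positivity)] with n h3 h4
    rw [Pi.mul_apply, Pi.mul_apply, map_mul, map_mul]
    calc av v (f n) * av v (g n) ≤
        (Real.exp (ε / 2 * H n) * av v (f' n)) * (Real.exp (ε / 2 * H n) * av v (g' n)) :=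
          mul_le_mul h3 h4 ((av v).nonneg _)
            (mul_nonneg (Real.exp_pos _).le ((av v).nonneg _))
      _ = Real.exp (ε * H n) * (av v (f' n) * av v (g' n)) := by
        have h7 : Real.exp (ε * H n) = Real.exp (ε / 2 * H n) * Real.exp (ε / 2 * H n) := by
          rw [← Real.exp_add]
          ring_nf
        rw [h7]
        ring
  add := by
    intro f g h h1 h2
    obtain ⟨f, rfl⟩ := mk_surj f
    obtain ⟨g, rfl⟩ := mk_surj g
    obtain ⟨h, rfl⟩ := mk_surj h
    rw [← map_add, dm_mk]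
    rw [dm_mk] at h1 h2
    intro ε hε
    filter_upwards [h1 (ε / 2) (by positivity), h2 (ε / 2) (by positivity),
      hH_le hH (Real.log 2 / (ε / 2))] with n h3 h4 h6
    rw [Pi.add_apply]
    refine ((av v).add_le _ _).trans ?_
    have h7 : Real.exp (ε * H n) = Real.exp (ε / 2 * H n) * Real.exp (ε / 2 * H n) := by
      rw [← Real.exp_add]
      ring_nf
    rw [div_le_iff₀ (by positivity)] at h6
    have h6' : 2 ≤ Real.exp (ε / 2 * H n) := by
      have h10 := Real.exp_le_exp.2 (show Real.log 2 ≤ ε / 2 * H n by linarith)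
      rwa [Real.exp_log (by norm_num)] at h10
    have h8 := (av v).nonneg (h n)
    have h9 : 0 ≤ Real.exp (ε / 2 * H n) * av v (h n) := mul_nonneg (Real.exp_pos _).le h8
    rw [h7]
    nlinarith
  zero := by
    intro g
    obtain ⟨g, rfl⟩ := mk_surj g
    have h0 : (0 : Gm 𝓕 K) = mk 𝓕 (fun _ => 0) := (map_zero (mk 𝓕)).symm
    rw [h0, dm_mk]
    intro ε hε
    refine Eventually.of_forall fun t => ?_
    rw [map_zero]
    exact mul_nonneg (Real.exp_pos _).le ((av v).nonneg _)
  ofF := by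
    rintro _ ⟨c, rfl, hc⟩
    have h0 : (1 : Gm 𝓕 K) = mk 𝓕 (fun _ => 1) := (map_one (mk 𝓕)).symm
    rw [h0, dm_mk]
    intro ε hε
    filter_upwards [slow_le hc v hε] with t ht
    rwa [map_one, mul_one]
  oneF := by
    rintro _ ⟨c, rfl, hc⟩ hc0
    have h0 : (1 : Gm 𝓕 K) = mk 𝓕 (fun _ => 1) := (map_one (mk 𝓕)).symm
    rw [h0, dm_mk]
    rw [mk_ne_zero] at hc0
    intro ε hε
    filter_upwards [slow_ge hc hc0 v hε] with t ht
    rwa [map_one]
  dom := by
    intro m u hu hne c hc0 i
    choose a ha1 ha2 ha3 using hu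
    choose C hC using ha3
    choose c' hc1 hc2 using fun i => (c i).2
    have h1 : ∀ i, ∀ᶠ t in (𝓕 : Filter α), logHeight₁ (a i t) ≤ (∑ i, |C i|) * H t := by
      intro i
      filter_upwards [hC i, hH_le hH 0] with t h2 h3
      refine h2.trans (mul_le_mul_of_nonneg_right ?_ h3)
      exact (le_abs_self _).trans (Finset.single_le_sum (f := fun i => |C i|)
        (fun _ _ => abs_nonneg _) (Finset.mem_univ i))
    have h2 : ∑ j, (c j : Gm 𝓕 K) * u j = mk 𝓕 (fun t => ∑ i, c' i t * a i t) := by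
      rw [← mk_sum]
      exact Finset.sum_congr rfl fun i _ => by rw [hc1, ha1]
    rw [h2, ← ha1 i, dm_mk]
    intro ε hε
    refine dom_fun hH S hS a ha2 ⟨_, h1⟩ (by
      intro i j hij hs
      apply hne i j hij
      rw [← ha1 i, ← ha1 j, mk_div, mk_slow]
      exact hs) c' hc2 i ?_ v hv ε hε
    rw [← mk_ne_zero, hc1]
    intro h
    exact hc0 i (Subtype.ext h)

/-- the lower bound of Liouville -/
theorem sp_lower (hH : Tendsto H 𝓕 atTop) (S : Finset (Pl K))
    (hS : ∀ w : InfinitePlace K, (Sum.inl w : Pl K) ∈ S) (ω : α → K)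
    (hω : Sp (slowF 𝓕 K H hH) (PU 𝓕 H S) (mk 𝓕 ω)) (h0 : mk 𝓕 ω ≠ 0) (ε : ℝ) (hε : 0 < ε) :
    ∀ᶠ t in (𝓕 : Filter α), -(ε * H t) ≤ ∑ v ∈ S, wt v * Real.log (av v (ω t)) := by
  obtain ⟨n, u, c, hu, hs⟩ := hω
  choose a ha1 ha2 ha3 using hu
  choose c' hc1 hc2 using fun i => (c i).2
  have h2 : mk 𝓕 ω = mk 𝓕 (fun t => ∑ i, c' i t * a i t) := by
    rw [hs, ← mk_sum]
    exact Finset.sum_congr rfl fun i _ => by rw [hc1, ha1]
  have h3 := mk_eq.1 h2
  have h4 := lower_fun hH S hS a ha2 c' hc2 (by rwa [← mk_ne_zero, ← h2]) ε hε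
  filter_upwards [h3, h4] with t h5 h6
  rw [h5]
  exact h6

noncomputable instance : CharZero (Gm 𝓕 K) := charZero_of_injective_algebraMap
  (algebraMap K (Gm 𝓕 K)).injective

end Pool.Agent.Run7.h28.HK
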