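import Mathlib
import Pool.Agent.Run7.h28.HK.Gr

/-!
# Project HK (helper28): a moderate sum of units is a sum of moderate units

The germ of Hall's inequality for sums of units of a number field.
-/

set_option autoImplicit false
set_option linter.unusedSectionVars false

open Filter Topology

namespace Pool.Agent.Run7.h28.HK

open NumberField IsDedekindDomain Height Module
open Pool.Agent.W180.OP (Pl av wt nrm le_nrm nrm_pos wt_nonneg exists_nrm nrm_nonneg)
open Pool.Agent.N750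

variable {K : Type} [Field K] [NumberField K] {α : Type} {𝓕 : Ultrafilter α} {H : α → ℝ}

/-- moderate growth -/
def Mdr (𝓕 : Ultrafilter α) (H : α → ℝ) (a : α → K) : Prop :=
  ∃ C : ℝ, ∀ᶠ t in (𝓕 : Filter α), logHeight₁ (a t) ≤ C * H t

lemma not_mdr {a : α → K} (h : ¬ Mdr 𝓕 H a) (C : ℝ) :
    ∀ᶠ t in (𝓕 : Filter α), C * H t < logHeight₁ (a t) := by
  have h1 : ¬ ∀ᶠ t in (𝓕 : Filter α), logHeight₁ (a t) ≤ C * H t := fun h' => h ⟨C, h'⟩
  rw [← Ultrafilter.eventually_not] at h1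
  exact h1.mono fun t ht => not_le.1 ht

/-- **A moderate sum of units is the sum of some of its moderate terms.** -/
theorem hb (hH : Tendsto H 𝓕 atTop) (S : Finset (Pl K))
    (hS : ∀ w : InfinitePlace K, (Sum.inl w : Pl K) ∈ S) {ι : Type} (c u : ι → α → K) (X : α → K)
    (hX : Mdr 𝓕 H X) (A : Finset ι) (hc : ∀ i ∈ A, Slow 𝓕 H (c i))
    (hu : ∀ i ∈ A, ∀ t, IsU S (u i t))
    (h : ∀ᶠ t in (𝓕 : Filter α), X t = ∑ i ∈ A, c i t * u i t) :
    ∃ J : Finset ι, J ⊆ A ∧ (∀ i ∈ J, Mdr 𝓕 H (u i)) ∧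
      ∀ᶠ t in (𝓕 : Filter α), X t = ∑ i ∈ J, c i t * u i t := by
  classical
  induction A using Finset.strongInduction with
  | H A ih =>
  by_cases hmod : ∀ i ∈ A, Mdr 𝓕 H (u i)
  · exact ⟨A, Finset.Subset.refl _, hmod, h⟩
  push Not at hmod
  obtain ⟨i0, hi0, hno⟩ := hmod
  set H' : α → ℝ := fun t => H t + ∑ i ∈ A, logHeight₁ (u i t) with hH'def
  have hle : ∀ t, H t ≤ H' t := fun t =>
    le_add_of_nonneg_right (Finset.sum_nonneg fun i _ => zero_le_logHeight₁ _)
  have hH' : Tendsto H' 𝓕 atTop := tendsto_atTop_mono hle hH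
  have hterm : ∀ i ∈ A, ∀ᶠ t in (𝓕 : Filter α), logHeight₁ (u i t) ≤ 1 * H' t := by
    intro i hi
    filter_upwards [hH_le hH 0] with t ht
    have h1 := Finset.single_le_sum (f := fun i => logHeight₁ (u i t))
      (fun _ _ => zero_le_logHeight₁ _) hi
    rw [hH'def, one_mul]
    exact h1.trans (le_add_of_nonneg_left ht)
  -- `H` is negligible
  have hsm : ∀ δ : ℝ, 0 < δ → ∀ᶠ t in (𝓕 : Filter α), H t ≤ δ * H' t := by
    intro δ hδ
    filter_upwards [not_mdr hno (1 / δ), hterm i0 hi0] with t h1 h2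
    rw [one_mul] at h2
    rw [one_div, inv_mul_lt_iff₀ hδ] at h1
    exact h1.le.trans (mul_le_mul_of_nonneg_left h2 hδ.le)
  have hslow : ∀ a : α → K, Slow 𝓕 H a → Slow 𝓕 H' a := by
    intro a ha ε hε
    filter_upwards [ha ε hε] with t ht
    exact ht.trans (mul_le_mul_of_nonneg_left (hle t) hε.le)
  have hXs : Slow 𝓕 H' X := by
    obtain ⟨C, hC⟩ := hX
    intro ε hε
    filter_upwards [hC, hH_le hH 0, hsm (ε / (|C| + 1)) (by positivity)] with t h1 h2 h3
    have h4 : C * H t ≤ (|C| + 1) * H t :=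
      mul_le_mul_of_nonneg_right (by linarith [le_abs_self C]) h2
    have h5 : (|C| + 1) * H t ≤ (|C| + 1) * (ε / (|C| + 1) * H' t) :=
      mul_le_mul_of_nonneg_left h3 (by positivity)
    have h6 : (|C| + 1) * (ε / (|C| + 1) * H' t) = ε * H' t := by
      have : |C| + 1 ≠ 0 := by positivity
      field_simp
    linarith
  -- the relation
  set F := slowF 𝓕 K H' hH' with hF
  let a : Option ι → F := fun o => o.elim ⟨mk 𝓕 X, mk_slow.2 hXs⟩
    (fun i => if h : i ∈ A then ⟨-(mk 𝓕 (c i)), F.neg_mem (mk_slow.2 (hslow _ (hc i h)))⟩ else 0)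
  let g : Option ι → Gm 𝓕 K := fun o => o.elim 1 (fun i => mk 𝓕 (u i))
  let w : Option ι → ℕ := fun o => if g o ∈ F then 0 else 1
  have hPU : ∀ o ∈ Finset.insertNone A, PU 𝓕 H' S (g o) := by
    intro o ho
    cases o with
    | none => exact (ps hH' S hS).one
    | some i =>
      have hi : i ∈ A := by simpa using ho
      exact ⟨u i, rfl, hu i hi, 1, hterm i hi⟩
  have hw : ∀ i ∈ Finset.insertNone A, ∀ j ∈ Finset.insertNone A, g i / g j ∈ F → w i = w j := by
    intro i hi j hj hij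
    have hj0 : g j ≠ 0 := (ps hH' S hS).ne (hPU j hj)
    have h1 : g i ∈ F ↔ g j ∈ F := by
      constructor
      · intro h2
        have h3 : g j = g i / (g i / g j) := by
          rw [div_div_eq_mul_div]
          by_cases hi0 : g i = 0
          · exact absurd hi0 ((ps hH' S hS).ne (hPU i hi))
          · field_simp
        rw [h3]
        exact F.div_mem h2 hij
      · intro h2
        have h3 : g i = (g i / g j) * g j := (div_mul_cancel₀ _ hj0).symm
        rw [h3]
        exact F.mul_mem hij h2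
    simp only [w]
    by_cases h2 : g j ∈ F
    · rw [if_pos h2, if_pos (h1.2 h2)]
    · rw [if_neg h2, if_neg fun h3 => h2 (h1.1 h3)]
  have hasome : ∀ i ∈ A, (a (some i) : Gm 𝓕 K) = -(mk 𝓕 (c i)) := by
    intro i hi
    show ((if h : i ∈ A then (⟨-(mk 𝓕 (c i)), F.neg_mem (mk_slow.2 (hslow _ (hc i h)))⟩ : F)
      else 0 : F) : Gm 𝓕 K) = _
    rw [dif_pos hi]
  have hmksum : ∀ J : Finset ι, mk 𝓕 (fun t => ∑ i ∈ J, c i t * u i t) =
      ∑ i ∈ J, mk 𝓕 (c i) * mk 𝓕 (u i) := by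
    intro J
    simp_rw [← map_mul]
    rw [← map_sum]
    congr 1
    funext t
    rw [Finset.sum_apply]
    rfl
  have h0 : ∑ o ∈ Finset.insertNone A, (a o : Gm 𝓕 K) * g o = 0 := by
    rw [Finset.sum_insertNone]
    have h1 : ∑ i ∈ A, (a (some i) : Gm 𝓕 K) * g (some i) =
        -∑ i ∈ A, mk 𝓕 (c i) * mk 𝓕 (u i) := by
      rw [← Finset.sum_neg_distrib]
      refine Finset.sum_congr rfl fun i hi => ?_
      rw [hasome i hi]
      exact neg_mul _ _
    rw [h1, ← hmksum]
    show mk 𝓕 X * 1 + _ = 0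
    rw [mul_one, mk_eq.2 h]
    ring
  have h1 := (ps hH' S hS).cs (Finset.insertNone A) a g w hPU hw h0 0
  rw [Finset.sum_filter, Finset.sum_insertNone] at h1
  have hwnone : w none = 0 := if_pos F.one_mem
  rw [if_pos hwnone] at h1
  set J' : Finset ι := A.filter fun i => mk 𝓕 (u i) ∈ F with hJ'
  have h2 : mk 𝓕 X = ∑ i ∈ J', mk 𝓕 (c i) * mk 𝓕 (u i) := by
    have h3 : ∑ i ∈ A, (if w (some i) = 0 then (a (some i) : Gm 𝓕 K) * g (some i) else 0) =
        -∑ i ∈ J', mk 𝓕 (c i) * mk 𝓕 (u i) := by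
      rw [hJ', Finset.sum_filter, ← Finset.sum_neg_distrib]
      refine Finset.sum_congr rfl fun i hi => ?_
      rw [hasome i hi]
      by_cases h4 : mk 𝓕 (u i) ∈ F
      · have h5 : w (some i) = 0 := if_pos h4
        rw [if_pos h5, if_pos h4]
        exact neg_mul _ _
      · have h5 : w (some i) ≠ 0 := by
          show (if mk 𝓕 (u i) ∈ F then 0 else 1) ≠ 0
          rw [if_neg h4]
          exact one_ne_zero
        rw [if_neg h5, if_neg h4, neg_zero]
    rw [h3] at h1
    have h4 : (a none : Gm 𝓕 K) * g none = mk 𝓕 X := mul_one _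
    rw [h4] at h1
    linear_combination h1
  have hlt : J' ⊂ A := by
    refine ⟨Finset.filter_subset _ _, fun hsub => ?_⟩
    have hall : ∀ i ∈ A, Slow 𝓕 H' (u i) := by
      intro i hi
      have h3 := hsub hi
      rw [hJ', Finset.mem_filter] at h3
      exact mk_slow.1 h3.2
    have h3 : ∀ᶠ t in (𝓕 : Filter α), ∀ i ∈ A,
        logHeight₁ (u i t) ≤ 1 / (2 * (A.card + 1)) * H' t := by
      rw [Filter.eventually_all_finset]
      intro i hi
      exact hall i hi _ (by positivity)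
    obtain ⟨t, h4, h5, h6⟩ := (h3.and ((hsm (1 / 4) (by norm_num)).and (hH_le hH' 1))).exists
    have h7 : ∑ i ∈ A, logHeight₁ (u i t) ≤ 1 / 2 * H' t := by
      calc ∑ i ∈ A, logHeight₁ (u i t) ≤ ∑ _i ∈ A, 1 / (2 * ((A.card : ℝ) + 1)) * H' t :=
            Finset.sum_le_sum h4
        _ = ((A.card : ℝ) / (A.card + 1)) * (1 / 2 * H' t) := by
            rw [Finset.sum_const, nsmul_eq_mul]
            field_simp
        _ ≤ 1 * (1 / 2 * H' t) := by
            refine mul_le_mul_of_nonneg_right ?_ (by linarith)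
            rw [div_le_one (by positivity)]
            linarith
        _ = 1 / 2 * H' t := one_mul _
    have h8 : H' t = H t + ∑ i ∈ A, logHeight₁ (u i t) := rfl
    linarith
  have h3 : ∀ᶠ t in (𝓕 : Filter α), X t = ∑ i ∈ J', c i t * u i t := by
    rw [← hmksum] at h2
    exact mk_eq.1 h2
  obtain ⟨J, hJ1, hJ2, hJ3⟩ := ih J' hlt (fun i hi => hc i (hlt.1 hi))
    (fun i hi => hu i (hlt.1 hi)) h3
  exact ⟨J, hJ1.trans hlt.1, hJ2, hJ3⟩

/-- the germ of a moderate sum of units -/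
theorem hb_sp (hH : Tendsto H 𝓕 atTop) (S : Finset (Pl K))
    (hS : ∀ w : InfinitePlace K, (Sum.inl w : Pl K) ∈ S) {k : ℕ} (c u : Fin k → α → K)
    (X : α → K) (hX : Mdr 𝓕 H X) (hc : ∀ i, Slow 𝓕 H (c i)) (hu : ∀ i t, IsU S (u i t))
    (h : ∀ᶠ t in (𝓕 : Filter α), X t = ∑ i, c i t * u i t) :
    Sp (slowF 𝓕 K H hH) (PU 𝓕 H S) (mk 𝓕 X) := by
  classical
  obtain ⟨J, -, hJ2, hJ3⟩ := hb hH S hS c u X hX Finset.univ (fun i _ => hc i)
    (fun i _ => hu i) h
  let E := J.equivFin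
  refine ⟨J.card, fun i => mk 𝓕 (u (E.symm i).1),
    fun i => ⟨mk 𝓕 (c (E.symm i).1), mk_slow.2 (hc _)⟩,
    fun i => ⟨_, rfl, hu _, hJ2 _ (E.symm i).2⟩, ?_⟩
  rw [mk_eq.2 hJ3]
  have h1 : mk 𝓕 (fun t => ∑ i ∈ J, c i t * u i t) = ∑ i ∈ J, mk 𝓕 (c i) * mk 𝓕 (u i) := by
    simp_rw [← map_mul]
    rw [← map_sum]
    congr 1
    funext t
    rw [Finset.sum_apply]
    rfl
  rw [h1, ← Finset.sum_coe_sort J]
  exact (Equiv.sum_comp E.symm (fun i : J => mk 𝓕 (c i.1) * mk 𝓕 (u i.1))).symm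

/-! ### The inequality of Hall for germs -/

lemma av_inf (w : InfinitePlace K) (z : ℤ) : av (Sum.inl w : Pl K) (z : K) = |(z : ℝ)| := by
  have h : w (z : K) = ‖w.embedding (z : K)‖ := (InfinitePlace.norm_embedding_eq w _).symm
  have h2 : w.embedding (z : K) = (z : ℂ) := map_intCast w.embedding z
  rw [h2, Complex.norm_intCast] at h
  exact h

lemma sum_mult_eq : (∑ w : InfinitePlace K, (w.mult : ℝ)) = finrank ℚ K := by
  rw [← NumberField.totalWeight_eq_finrank, NumberField.totalWeight_eq_sum_mult]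
  push_cast
  rfl

/-- the sum over the places of `S` of a function which is bounded on the infinite and the finite
places -/
lemma sum_split (S : Finset (Pl K)) (hS : ∀ w : InfinitePlace K, (Sum.inl w : Pl K) ∈ S)
    (f : Pl K → ℝ) (a b : ℝ) (ha : ∀ w : InfinitePlace K, f (Sum.inl w) ≤ a)
    (hb : ∀ v : HeightOneSpectrum (𝓞 K), Sum.inr v ∈ S → f (Sum.inr v) ≤ b) :
    ∑ v ∈ S, wt v * f v ≤ finrank ℚ K * a + S.toRight.card * b := by
  classical
  have h1 : S.toLeft = Finset.univ := by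
    ext w
    simp [Finset.mem_toLeft, hS w]
  conv_lhs => rw [← Finset.toLeft_disjSum_toRight (u := S)]
  rw [Finset.sum_disjSum, h1]
  refine add_le_add ?_ ?_
  · rw [← sum_mult_eq, Finset.sum_mul]
    refine Finset.sum_le_sum fun w _ => ?_
    exact mul_le_mul_of_nonneg_left (ha w) (Nat.cast_nonneg _)
  · calc ∑ v ∈ S.toRight, wt (Sum.inr v : Pl K) * f (Sum.inr v) ≤ ∑ _v ∈ S.toRight, b := by
          refine Finset.sum_le_sum fun v hv => ?_
          show 1 * f (Sum.inr v) ≤ b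
          rw [one_mul]
          exact hb v (Finset.mem_toRight.1 hv)
      _ = S.toRight.card * b := by rw [Finset.sum_const, nsmul_eq_mul]

/-- **The germ of the inequality of Hall** for sums of units of a number field. -/
theorem hallG (hH : Tendsto H 𝓕 atTop) (S : Finset (Pl K))
    (hS : ∀ w : InfinitePlace K, (Sum.inl w : Pl K) ∈ S) (m n : ℕ) (x y : α → ℤ)
    (hx : Sp (slowF 𝓕 K H hH) (PU 𝓕 H S) (mk 𝓕 (fun t => (x t : K))))
    (hy : Sp (slowF 𝓕 K H hH) (PU 𝓕 H S) (mk 𝓕 (fun t => (y t : K))))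
    (hne : ∀ᶠ t in (𝓕 : Filter α), y t ^ (n + 1) ≠ x t ^ (m + 1)) (ε : ℝ) (hε : 0 < ε) :
    ∀ᶠ t in (𝓕 : Filter α), |(y t : ℝ)| ^ n ≤ Real.exp (ε * H t) *
      (|(x t : ℝ)| * |(y t : ℝ) ^ (n + 1) - (x t : ℝ) ^ (m + 1)|) ∨
      |(x t : ℝ)| ^ (m + 1) ≤ Real.exp (ε * H t) *
        |(y t : ℝ) ^ (n + 1) - (x t : ℝ) ^ (m + 1)| := by
  classical
  set D : α → ℤ := fun t => y t ^ (n + 1) - x t ^ (m + 1) with hDdef
  have hDr : ∀ t, ((D t : ℤ) : ℝ) = (y t : ℝ) ^ (n + 1) - (x t : ℝ) ^ (m + 1) := fun t => by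
    rw [hDdef]; push_cast; rfl
  have hD0 : ∀ᶠ t in (𝓕 : Filter α), D t ≠ 0 := hne.mono fun t ht => sub_ne_zero.2 ht
  have hδ : mk 𝓕 (fun t => (y t : K)) ^ (n + 1) - mk 𝓕 (fun t => (x t : K)) ^ (m + 1) =
      mk 𝓕 (fun t => (D t : K)) := by
    rw [← map_pow, ← map_pow, ← map_sub]
    congr 1
    funext t
    rw [hDdef]
    push_cast
    rfl
  have hne' : mk 𝓕 (fun t => (y t : K)) ^ (n + 1) - mk 𝓕 (fun t => (x t : K)) ^ (m + 1) ≠ 0 := by
    rw [hδ, mk_ne_zero]
    exact hD0.mono fun t ht => by exact_mod_cast ht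
  have hcore := hallCore (ps hH S hS) m n _ _ hx hy hne'
  rw [hδ] at hcore
  have h8 : ∀ t, |((D t : ℤ) : ℝ)| = |(y t : ℝ) ^ (n + 1) - (x t : ℝ) ^ (m + 1)| := fun t => by
    rw [hDr]
  simp_rw [← h8]
  rcases hcore with ⟨ω, hω0, hωs, hd⟩ | hd
  · obtain ⟨ω, rfl⟩ := mk_surj ω
    have hlow := sp_lower hH S hS ω hωs hω0
    have hω : ∀ᶠ t in (𝓕 : Filter α), ω t ≠ 0 := mk_ne_zero.1 hω0
    set d : ℝ := ((finrank ℚ K : ℕ) : ℝ) with hd'
    have hdpos : 0 < d := by
      rw [hd']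
      exact_mod_cast Module.finrank_pos
    set c : ℝ := 1 + d + S.toRight.card with hc
    have hcpos : 0 < c := by positivity
    set η : ℝ := ε * d / c with hη
    have hηpos : 0 < η := by positivity
    -- bounds at the places
    have h1 : ∀ v ∈ S, ∀ᶠ t in (𝓕 : Filter α),
        av v (y t : K) ^ n * av v (ω t) ≤ Real.exp (η * H t) * (av v (x t : K) * av v (D t : K)) ∧
        av v (ω t) ≤ Real.exp (η * H t) * (av v (x t : K) * av v (y t : K)) := by
      intro v hv
      obtain ⟨h2, h3⟩ := hd _ (dr hH S hS v hv)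
      rw [← map_pow, ← map_mul, ← map_mul, dm_mk] at h2
      rw [← map_mul, dm_mk] at h3
      filter_upwards [h2 η hηpos, h3 η hηpos] with t h4 h5
      simp only [Pi.mul_apply, Pi.pow_apply, map_mul, map_pow] at h4 h5
      exact ⟨h4, h5⟩
    have h2 : ∀ᶠ t in (𝓕 : Filter α), ∀ v ∈ S,
        av v (y t : K) ^ n * av v (ω t) ≤ Real.exp (η * H t) * (av v (x t : K) * av v (D t : K)) ∧
        av v (ω t) ≤ Real.exp (η * H t) * (av v (x t : K) * av v (y t : K)) := by
      rw [Filter.eventually_all_finset]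
      exact h1
    filter_upwards [h2, hlow η hηpos, hω, hD0, hH_le hH 0] with t h2 h3 h4 h5 h6
    left
    by_cases hx0 : x t = 0
    · -- impossible
      exfalso
      have w0 : InfinitePlace K := Classical.arbitrary _
      have h7 := (h2 _ (hS w0)).2
      rw [hx0] at h7
      have h8 : 0 < av (Sum.inl w0 : Pl K) (ω t) := (av _).pos_iff.2 h4
      simp only [Int.cast_zero, map_zero, zero_mul, mul_zero] at h7
      linarith
    by_cases hy0 : y t = 0
    · exfalso
      have w0 : InfinitePlace K := Classical.arbitrary _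
      have h7 := (h2 _ (hS w0)).2
      rw [hy0] at h7
      have h8 : 0 < av (Sum.inl w0 : Pl K) (ω t) := (av _).pos_iff.2 h4
      simp only [Int.cast_zero, map_zero, mul_zero] at h7
      linarith
    have hxr : 0 < |(x t : ℝ)| := abs_pos.2 (by exact_mod_cast hx0)
    have hyr : 0 < |(y t : ℝ)| := abs_pos.2 (by exact_mod_cast hy0)
    have hDr' : 0 < |((D t : ℤ) : ℝ)| := abs_pos.2 (by exact_mod_cast h5)
    have h7 := sum_split S hS (fun v => Real.log (av v (ω t)))
      (η * H t + (Real.log |(x t : ℝ)| + Real.log |((D t : ℤ) : ℝ)|) - n * Real.log |(y t : ℝ)|)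
      (η * H t) (by
        intro w
        have h8 := (h2 _ (hS w)).1
        rw [av_inf, av_inf, av_inf] at h8
        have hpos : 0 < av (Sum.inl w : Pl K) (ω t) := (av _).pos_iff.2 h4
        have h9 := Real.log_le_log (mul_pos (pow_pos hyr n) hpos) h8
        rw [Real.log_mul (pow_pos hyr n).ne' hpos.ne', Real.log_pow,
          Real.log_mul (Real.exp_pos _).ne' (mul_pos hxr hDr').ne', Real.log_exp,
          Real.log_mul hxr.ne' hDr'.ne'] at h9
        linarith) (by
        intro v hv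
        have h8 := (h2 _ hv).2
        have hpos : 0 < av (Sum.inr v : Pl K) (ω t) := (av _).pos_iff.2 h4
        have h9 : av (Sum.inr v : Pl K) (ω t) ≤ Real.exp (η * H t) := by
          refine h8.trans (mul_le_of_le_one_right (Real.exp_pos _).le ?_)
          exact mul_le_one₀ (av_int v _) ((av _).nonneg _) (av_int v _)
        have h10 := Real.log_le_log hpos h9
        rwa [Real.log_exp] at h10)
    have h8 : n * Real.log |(y t : ℝ)| ≤
        ε * H t + (Real.log |(x t : ℝ)| + Real.log |((D t : ℤ) : ℝ)|) := by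
      have h9 : η * c = ε * d := by
        rw [hη]
        field_simp
      have h10 : d * (n * Real.log |(y t : ℝ)|) ≤
          d * (ε * H t + (Real.log |(x t : ℝ)| + Real.log |((D t : ℤ) : ℝ)|)) := by
        have h11 : d * (ε * H t) = η * c * H t := by rw [h9]; ring
        rw [mul_add, h11, hc]
        nlinarith
      exact le_of_mul_le_mul_left h10 hdpos
    have h9 := Real.exp_le_exp.2 h8
    rw [Real.exp_add, Real.exp_add, Real.exp_log hxr, Real.exp_log hDr',
      ← Real.log_pow, Real.exp_log (pow_pos hyr n)] at h9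
    exact h9
  · have w0 : InfinitePlace K := Classical.arbitrary _
    have h2 := hd _ (dr hH S hS (Sum.inl w0) (hS w0))
    rw [← map_pow, dm_mk] at h2
    filter_upwards [h2 ε hε] with t h3
    right
    simp only [Pi.pow_apply, map_pow] at h3
    rw [av_inf, av_inf] at h3
    exact h3

end Pool.Agent.Run7.h28.HK
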