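import Mathlib
import Pool.Agent.Run7.h28.HK.Hb

/-!
# Project HK (helper28): the inequality of Hall for sums of units of a number field
-/

set_option autoImplicit false
set_option linter.unusedSectionVars false

open Filter Topology

namespace Pool.Agent.Run7.h28.HK

open NumberField IsDedekindDomain Height Module
open Pool.Agent.W180.OP (Pl av wt nrm le_nrm nrm_pos wt_nonneg exists_nrm nrm_nonneg)
open Pool.Agent.N750

/-- the real arithmetic at the end -/
lemma arith (m n : ℕ) (ε L x y D : ℝ) (_hε : 0 < ε) (hx0 : 0 ≤ x) (hy0 : 0 ≤ y) (hD1 : 1 ≤ D)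
    (hmax : max (x ^ (m + 1)) (y ^ (n + 1)) = Real.exp L)
    (hD : |y ^ (n + 1) - x ^ (m + 1)| ≤ D)
    (hlt : Real.log D < (1 - 1 / ((m : ℝ) + 1) - 1 / ((n : ℝ) + 1) - ε) * L)
    (hbig : 2 * Real.log 2 < ε * L) (hL : 0 ≤ L)
    (h : y ^ n ≤ Real.exp (ε / 2 * L) * (x * D) ∨ x ^ (m + 1) ≤ Real.exp (ε / 2 * L) * D) :
    False := by
  have hm1 : (0 : ℝ) < (m : ℝ) + 1 := by positivity
  have hn1 : (0 : ℝ) < (n : ℝ) + 1 := by positivity
  have hlog2 : 0 < Real.log 2 := Real.log_pos (by norm_num)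
  have hDe : D = Real.exp (Real.log D) := (Real.exp_log (by linarith)).symm
  have hδ : 0 < 1 / ((m : ℝ) + 1) + 1 / ((n : ℝ) + 1) := by positivity
  -- `D` is small
  have hD2 : D ≤ Real.exp L / 2 := by
    rw [hDe]
    have h1 : Real.exp L / 2 = Real.exp (L - Real.log 2) := by
      rw [Real.exp_sub, Real.exp_log (by norm_num)]
    rw [h1]
    refine Real.exp_le_exp.2 ?_
    nlinarith
  have hxle : x ^ (m + 1) ≤ Real.exp L := by rw [← hmax]; exact le_max_left _ _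
  have hyle : y ^ (n + 1) ≤ Real.exp L := by rw [← hmax]; exact le_max_right _ _
  have habs := abs_le.1 hD
  have hxge : Real.exp L / 2 ≤ x ^ (m + 1) := by
    rcases max_choice (x ^ (m + 1)) (y ^ (n + 1)) with h1 | h1
    · rw [← h1, hmax]
      linarith [Real.exp_pos L]
    · rw [h1] at hmax
      linarith [habs.2]
  have hyge : Real.exp L / 2 ≤ y ^ (n + 1) := by
    rcases max_choice (x ^ (m + 1)) (y ^ (n + 1)) with h1 | h1
    · rw [h1] at hmax
      linarith [habs.1]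
    · rw [← h1, hmax]
      linarith [Real.exp_pos L]
  have hxpos : 0 < x := by
    rcases hx0.eq_or_lt with h1 | h1
    · rw [← h1, zero_pow (by omega)] at hxge
      linarith [Real.exp_pos L]
    · exact h1
  have hypos : 0 < y := by
    rcases hy0.eq_or_lt with h1 | h1
    · rw [← h1, zero_pow (by omega)] at hyge
      linarith [Real.exp_pos L]
    · exact h1
  have e1 : Real.exp L / 2 = Real.exp (L - Real.log 2) := by
    rw [Real.exp_sub, Real.exp_log (by norm_num)]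
  have lx : (m + 1 : ℝ) * Real.log x ≤ L := by
    have h1 := Real.log_le_log (pow_pos hxpos _) hxle
    rw [Real.log_exp, Real.log_pow] at h1
    exact_mod_cast h1
  have lx' : L - Real.log 2 ≤ (m + 1 : ℝ) * Real.log x := by
    rw [e1] at hxge
    have h1 := Real.log_le_log (Real.exp_pos _) hxge
    rw [Real.log_exp, Real.log_pow] at h1
    exact_mod_cast h1
  have ly' : L - Real.log 2 ≤ (n + 1 : ℝ) * Real.log y := by
    rw [e1] at hyge
    have h1 := Real.log_le_log (Real.exp_pos _) hyge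
    rw [Real.log_exp, Real.log_pow] at h1
    exact_mod_cast h1
  rcases h with h | h
  · have h1 := Real.log_le_log (pow_pos hypos _) h
    rw [Real.log_pow, Real.log_mul (Real.exp_pos _).ne' (mul_pos hxpos (by linarith)).ne',
      Real.log_exp, Real.log_mul hxpos.ne' (by linarith)] at h1
    -- multiply out
    have h2 : (L - Real.log 2) / ((n : ℝ) + 1) ≤ Real.log y := by
      rw [div_le_iff₀ hn1]
      linarith
    have h3 : Real.log x ≤ L / ((m : ℝ) + 1) := by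
      rw [le_div_iff₀ hm1]
      linarith
    have h4 : (n : ℝ) * ((L - Real.log 2) / ((n : ℝ) + 1)) ≤ n * Real.log y :=
      mul_le_mul_of_nonneg_left h2 (Nat.cast_nonneg n)
    have h5 : (n : ℝ) * ((L - Real.log 2) / ((n : ℝ) + 1)) =
        (L - Real.log 2) - (L - Real.log 2) * (1 / ((n : ℝ) + 1)) := by
      field_simp
      ring
    have h6 : L / ((m : ℝ) + 1) = 1 / ((m : ℝ) + 1) * L := by ring
    have h7 : 0 ≤ Real.log 2 * (1 / ((n : ℝ) + 1)) := by positivity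
    nlinarith
  · have h1 := Real.log_le_log (pow_pos hxpos _) h
    rw [Real.log_pow, Real.log_mul (Real.exp_pos _).ne' (by linarith), Real.log_exp] at h1
    push_cast at h1
    have h2 : 0 ≤ (1 / ((m : ℝ) + 1) + 1 / ((n : ℝ) + 1)) * L := by positivity
    nlinarith


/-- the height of an integer -/
lemma ht_int {K : Type} [Field K] [NumberField K] (z : ℤ) :
    logHeight₁ (z : K) ≤ finrank ℚ K * Real.log (max 1 |(z : ℝ)|) := by
  have hx : (![(z : K), 1] : Fin 2 → K) ≠ 0 := fun h => one_ne_zero (congrFun h 1)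
  have hy : (fun _ : Fin 1 => (1 : K)) ≠ 0 := fun h => one_ne_zero (congrFun h 0)
  have h1 := ht_le (![(z : K), 1]) (fun _ : Fin 1 => (1 : K)) hx hy (max 1 |(z : ℝ)|)
    (le_max_left _ _) (by
      intro p
      have h2 : nrm (av p) (fun _ : Fin 1 => (1 : K)) = 1 := by
        unfold nrm
        rw [ciSup_const, map_one]
      rw [h2, mul_one]
      obtain ⟨j, hj⟩ := exists_nrm (av p) (by norm_num : 0 < 2) (![(z : K), 1])
      rw [← hj]
      have h3 : av p (z : K) ≤ N750.cst (max 1 |(z : ℝ)|) p := by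
        rcases p with w | v
        · rw [av_inf]
          exact le_max_right _ _
        · exact av_int v z
      have h4 : av p (1 : K) ≤ N750.cst (max 1 |(z : ℝ)|) p := by
        rw [map_one]
        exact one_le_cst (le_max_left _ _) p
      fin_cases j
      · exact h3
      · exact h4)
  have h2 : logHeight (fun _ : Fin 1 => (1 : K)) = 0 :=
    Height.logHeight_eq_zero_of_subsingleton _
  rw [h2, zero_add] at h1
  rwa [logHeight₁_eq_logHeight]

/-- a sequence violating the inequality -/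
structure Bad (m n : ℕ) (ε : ℝ) (M : ℕ → ℝ) (x y : ℕ → ℤ) (L : ℕ → ℝ) : Prop where
  eps : 0 < ε
  hM : ∀ t, 1 ≤ M t
  hne : ∀ t, y t ^ (n + 1) ≠ x t ^ (m + 1)
  hexpL : ∀ t, Real.exp (L t) = max (|(x t : ℝ)| ^ (m + 1)) (|(y t : ℝ)| ^ (n + 1))
  hlt : ∀ t : ℕ, (t : ℝ) * (1 + Real.log (M t)) +
    Real.log |(y t : ℝ) ^ (n + 1) - (x t : ℝ) ^ (m + 1)| <
      (1 - 1 / ((m : ℝ) + 1) - 1 / ((n : ℝ) + 1) - ε) * L t

section bad

variable {m n : ℕ} {ε : ℝ} {M : ℕ → ℝ} {x y : ℕ → ℤ} {L : ℕ → ℝ} (hb : Bad m n ε M x y L)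
include hb

lemma Bad.hD1 (t : ℕ) : 1 ≤ |(y t : ℝ) ^ (n + 1) - (x t : ℝ) ^ (m + 1)| := by
  have h1 : y t ^ (n + 1) - x t ^ (m + 1) ≠ 0 := sub_ne_zero.2 (hb.hne t)
  exact_mod_cast Int.one_le_abs h1

lemma Bad.hmax1 (t : ℕ) : 1 ≤ max (|(x t : ℝ)| ^ (m + 1)) (|(y t : ℝ)| ^ (n + 1)) := by
  by_cases h : x t = 0
  · have h1 : y t ≠ 0 := by
      intro h2
      apply hb.hne t
      rw [h, h2, zero_pow (by omega), zero_pow (by omega)]
    refine le_max_of_le_right (one_le_pow₀ ?_)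
    exact_mod_cast Int.one_le_abs h1
  · refine le_max_of_le_left (one_le_pow₀ ?_)
    exact_mod_cast Int.one_le_abs h

lemma Bad.hL0 (t : ℕ) : 0 ≤ L t := by
  have h1 := hb.hmax1 t
  rw [← hb.hexpL t] at h1
  by_contra h
  push Not at h
  have h2 := Real.exp_lt_exp.2 h
  rw [Real.exp_zero] at h2
  linarith

lemma Bad.hlM (t : ℕ) : 0 ≤ Real.log (M t) := Real.log_nonneg (hb.hM t)

lemma Bad.hlD (t : ℕ) : 0 ≤ Real.log |(y t : ℝ) ^ (n + 1) - (x t : ℝ) ^ (m + 1)| :=
  Real.log_nonneg (hb.hD1 t)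

lemma Bad.hLt (t : ℕ) : (t : ℝ) * (1 + Real.log (M t)) < L t := by
  have hm1 : (0 : ℝ) < (m : ℝ) + 1 := by positivity
  have hn1 : (0 : ℝ) < (n : ℝ) + 1 := by positivity
  have hδ : 0 < 1 / ((m : ℝ) + 1) + 1 / ((n : ℝ) + 1) := by positivity
  have h1 := hb.hlt t
  have hε := hb.eps
  have h2 : (1 - 1 / ((m : ℝ) + 1) - 1 / ((n : ℝ) + 1) - ε) * L t ≤ L t := by
    have h3 : 0 ≤ (1 / ((m : ℝ) + 1) + 1 / ((n : ℝ) + 1) + ε) * L t :=
      mul_nonneg (by linarith) (hb.hL0 t)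
    nlinarith
  have h4 := hb.hlD t
  linarith

lemma Bad.hL : Tendsto L atTop atTop := by
  refine tendsto_atTop_mono (fun t => ?_) tendsto_natCast_atTop_atTop
  have h1 := hb.hLt t
  have h2 : 0 ≤ (t : ℝ) * Real.log (M t) := mul_nonneg (Nat.cast_nonneg t) (hb.hlM t)
  rw [mul_add, mul_one] at h1
  linarith

/-- `log M` is negligible -/
lemma Bad.negl {ε' : ℝ} (hε' : 0 < ε') : ∀ᶠ t : ℕ in atTop, 1 + Real.log (M t) ≤ ε' * L t := by
  have h1 : ∀ᶠ t : ℕ in atTop, 1 / ε' ≤ (t : ℝ) :=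
    tendsto_natCast_atTop_atTop.eventually_ge_atTop _
  refine h1.mono fun t ht => ?_
  have h2 := hb.hLt t
  have h3 : 1 / ε' * (1 + Real.log (M t)) ≤ (t : ℝ) * (1 + Real.log (M t)) :=
    mul_le_mul_of_nonneg_right ht (by linarith [hb.hlM t])
  have h5 : 1 / ε' * (1 + Real.log (M t)) ≤ L t := h3.trans h2.le
  rwa [one_div, inv_mul_le_iff₀ hε'] at h5

lemma Bad.slow {K : Type} [Field K] [NumberField K] {𝓕 : Ultrafilter ℕ}
    (h𝓕 : (𝓕 : Filter ℕ) ≤ atTop) {a : ℕ → K} {B : ℝ} (hB : 0 ≤ B)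
    (ha : ∀ t, logHeight₁ (a t) ≤ B * (1 + Real.log (M t))) : Slow 𝓕 L a := by
  intro ε' hε'
  refine ((hb.negl (ε' := ε' / (B + 1)) (by positivity)).filter_mono h𝓕).mono fun t ht => ?_
  have h1 : B * (1 + Real.log (M t)) ≤ (B + 1) * (1 + Real.log (M t)) :=
    mul_le_mul_of_nonneg_right (by linarith) (by linarith [hb.hlM t])
  have h2 : (B + 1) * (1 + Real.log (M t)) ≤ (B + 1) * (ε' / (B + 1) * L t) :=
    mul_le_mul_of_nonneg_left ht (by linarith)
  have h3 : (B + 1) * (ε' / (B + 1) * L t) = ε' * L t := by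
    field_simp
  have h4 := ha t
  linarith

lemma Bad.hxle (t : ℕ) : |(x t : ℝ)| ≤ Real.exp (L t) := by
  by_cases h0 : x t = 0
  · rw [h0, Int.cast_zero, abs_zero]
    exact (Real.exp_pos _).le
  · have h1 : (1 : ℝ) ≤ |(x t : ℝ)| := by exact_mod_cast Int.one_le_abs h0
    refine (le_self_pow₀ h1 (by omega : m + 1 ≠ 0)).trans ?_
    rw [hb.hexpL]
    exact le_max_left _ _

lemma Bad.hyle (t : ℕ) : |(y t : ℝ)| ≤ Real.exp (L t) := by
  by_cases h0 : y t = 0
  · rw [h0, Int.cast_zero, abs_zero]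
    exact (Real.exp_pos _).le
  · have h1 : (1 : ℝ) ≤ |(y t : ℝ)| := by exact_mod_cast Int.one_le_abs h0
    refine (le_self_pow₀ h1 (by omega : n + 1 ≠ 0)).trans ?_
    rw [hb.hexpL]
    exact le_max_right _ _

omit hb in
lemma mdr_int {K : Type} [Field K] [NumberField K] {𝓕 : Ultrafilter ℕ} {z : ℕ → ℤ} {L : ℕ → ℝ}
    (h0 : ∀ t, 0 ≤ L t) (hz : ∀ t, |(z t : ℝ)| ≤ Real.exp (L t)) :
    Mdr 𝓕 L (fun t => (z t : K)) := by
  refine ⟨finrank ℚ K, Eventually.of_forall fun t => (ht_int (z t)).trans ?_⟩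
  refine mul_le_mul_of_nonneg_left ?_ (Nat.cast_nonneg _)
  rw [← Real.log_exp (L t)]
  exact Real.log_le_log (by positivity) (max_le (Real.one_le_exp (h0 t)) (hz t))

/-- a violating sequence of pairs of germs of sums of units does not exist -/
theorem bad_false {K : Type} [Field K] [NumberField K] (𝓕 : Ultrafilter ℕ) (S : Finset (Pl K))
    (hS : ∀ w : InfinitePlace K, (Sum.inl w : Pl K) ∈ S) (hH : Tendsto L 𝓕 atTop)
    (hx : Sp (slowF 𝓕 K L hH) (PU 𝓕 L S) (mk 𝓕 (fun t => (x t : K))))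
    (hy : Sp (slowF 𝓕 K L hH) (PU 𝓕 L S) (mk 𝓕 (fun t => (y t : K)))) : False := by
  have hε := hb.eps
  have hfin := hallG hH S hS m n x y hx hy (Eventually.of_forall hb.hne) (ε / 2) (by positivity)
  have hbig : ∀ᶠ t in (𝓕 : Filter ℕ), 2 * Real.log 2 < ε * L t := by
    filter_upwards [hH.eventually_gt_atTop (2 * Real.log 2 / ε)] with t ht
    rw [div_lt_iff₀ hε] at ht
    linarith
  obtain ⟨t, h1, h2⟩ := (hbig.and hfin).exists
  refine arith m n ε (L t) |(x t : ℝ)| |(y t : ℝ)|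
    |(y t : ℝ) ^ (n + 1) - (x t : ℝ) ^ (m + 1)| hε (abs_nonneg _) (abs_nonneg _) (hb.hD1 t)
    (hb.hexpL t).symm ?_ ?_ h1 (hb.hL0 t) h2
  · rw [← abs_pow, ← abs_pow]
    exact abs_abs_sub_abs_le _ _
  · have h3 := hb.hlt t
    have h4 : 0 ≤ (t : ℝ) * (1 + Real.log (M t)) :=
      mul_nonneg (Nat.cast_nonneg t) (by linarith [hb.hlM t])
    linarith

end bad

/-- **The inequality of Hall for sums of units of a number field.** -/
theorem hallK {K : Type} [Field K] [NumberField K] (m n k : ℕ) (S : Finset (Pl K))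
    (hS : ∀ w : InfinitePlace K, (Sum.inl w : Pl K) ∈ S) (ε : ℝ) (hε : 0 < ε) :
    ∃ C : ℝ, ∀ M : ℝ, 1 ≤ M → ∀ (u : Fin k → K) (a c : Fin k → K), (∀ j, IsU S (u j)) →
      (∀ j, logHeight₁ (a j) ≤ 1 + Real.log M) → (∀ j, logHeight₁ (c j) ≤ 1 + Real.log M) →
      ∀ x y : ℤ, (x : K) = ∑ j, a j * u j → (y : K) = ∑ j, c j * u j →
      y ^ (n + 1) ≠ x ^ (m + 1) →
      (1 - 1 / ((m : ℝ) + 1) - 1 / ((n : ℝ) + 1) - ε) *
          Real.log (max (|(x : ℝ)| ^ (m + 1)) (|(y : ℝ)| ^ (n + 1))) ≤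
        C * (1 + Real.log M) + Real.log |(y : ℝ) ^ (n + 1) - (x : ℝ) ^ (m + 1)| := by
  classical
  by_contra hcon
  push Not at hcon
  choose M hM u a c hu ha hc x y hx hy hne hlt using fun t : ℕ => hcon (t : ℝ)
  have hmax1 : ∀ t, 1 ≤ max (|(x t : ℝ)| ^ (m + 1)) (|(y t : ℝ)| ^ (n + 1)) := by
    intro t
    by_cases h : x t = 0
    · have h1 : y t ≠ 0 := by
        intro h2
        apply hne t
        rw [h, h2, zero_pow (by omega), zero_pow (by omega)]
      refine le_max_of_le_right (one_le_pow₀ ?_)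
      exact_mod_cast Int.one_le_abs h1
    · refine le_max_of_le_left (one_le_pow₀ ?_)
      exact_mod_cast Int.one_le_abs h
  have hb : Bad m n ε M x y
      (fun t => Real.log (max (|(x t : ℝ)| ^ (m + 1)) (|(y t : ℝ)| ^ (n + 1)))) :=
    ⟨hε, hM, hne, fun t => Real.exp_log (by linarith [hmax1 t]), hlt⟩
  set 𝓕 : Ultrafilter ℕ := Filter.hyperfilter ℕ with h𝓕
  have h𝓕' : (𝓕 : Filter ℕ) ≤ atTop := Nat.hyperfilter_le_atTop
  have hH := hb.hL.mono_left h𝓕'
  refine bad_false hb 𝓕 S hS hH ?_ ?_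
  · exact hb_sp hH S hS (fun j t => a t j) (fun j t => u t j) _ (mdr_int hb.hL0 hb.hxle)
      (fun j => hb.slow h𝓕' zero_le_one fun t => by rw [one_mul]; exact ha t j)
      (fun j t => hu t j) (Eventually.of_forall hx)
  · exact hb_sp hH S hS (fun j t => c t j) (fun j t => u t j) _ (mdr_int hb.hL0 hb.hyle)
      (fun j => hb.slow h𝓕' zero_le_one fun t => by rw [one_mul]; exact hc t j)
      (fun j t => hu t j) (Eventually.of_forall hy)

end Pool.Agent.Run7.h28.HK
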