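import Mathlib
import Pool.Agent.N750.Wir
import Pool.Agent.Run7.h28.HK.Hb

/-!
# Project HK (helper28): integral germs close to sums of units are sums of units
-/

set_option autoImplicit false
set_option linter.unusedSectionVars false

open Filter Topology

namespace Pool.Agent.Run7.h28.HK

open NumberField IsDedekindDomain Height Module
open Pool.Agent.W180.OP (Pl av wt nrm le_nrm nrm_pos wt_nonneg exists_nrm nrm_nonneg)
open Pool.Agent.N750

section sp

variable {G : Type} [Field G] {F : Subfield G} {P : G → Prop}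

lemma Sp.to_span {x : G} (h : Sp F P x) : x ∈ Submodule.span F {g | P g} := by
  obtain ⟨n, u, c, hu, rfl⟩ := h
  refine Submodule.sum_mem _ fun i _ => ?_
  exact Submodule.smul_mem _ (c i) (Submodule.subset_span (hu i))

lemma Sp.of_span {x : G} (h : x ∈ Submodule.span F {g | P g}) : Sp F P x := by
  induction h using Submodule.span_induction with
  | mem x hx =>
    exact ⟨1, fun _ => x, fun _ => 1, fun _ => hx, by simp⟩
  | zero => exact ⟨0, fun i => i.elim0, fun i => i.elim0, fun i => i.elim0, by simp⟩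
  | add x y _ _ h1 h2 =>
    obtain ⟨n, u, c, hu, rfl⟩ := h1
    obtain ⟨n', u', c', hu', rfl⟩ := h2
    refine ⟨n + n', Fin.append u u', Fin.append c c', ?_, ?_⟩
    · intro i
      refine Fin.addCases (fun j => ?_) (fun j => ?_) i
      · rw [Fin.append_left]
        exact hu j
      · rw [Fin.append_right]
        exact hu' j
    · rw [Fin.sum_univ_add]
      simp only [Fin.append_left, Fin.append_right]
  | smul a x _ h1 =>
    obtain ⟨n, u, c, hu, rfl⟩ := h1
    refine ⟨n, u, fun i => a * c i, hu, ?_⟩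
    show (a : G) * _ = _
    rw [Finset.mul_sum]
    refine Finset.sum_congr rfl fun i _ => ?_
    rw [MulMemClass.coe_mul, mul_assoc]

lemma sp_iff {x : G} : Sp F P x ↔ x ∈ Submodule.span F {g | P g} := ⟨Sp.to_span, Sp.of_span⟩

lemma Sp.of {x : G} (h : P x) : Sp F P x := sp_iff.2 (Submodule.subset_span h)

lemma Sp.add {x y : G} (hx : Sp F P x) (hy : Sp F P y) : Sp F P (x + y) := by
  rw [sp_iff] at *
  exact Submodule.add_mem _ hx hy

lemma Sp.smul {c x : G} (hc : c ∈ F) (hx : Sp F P x) : Sp F P (c * x) := by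
  rw [sp_iff] at *
  exact Submodule.smul_mem _ (⟨c, hc⟩ : F) hx

lemma Sp.zero : Sp F P 0 := sp_iff.2 (Submodule.zero_mem _)

lemma Sp.sum {ι : Type} (A : Finset ι) (f : ι → G) (h : ∀ i ∈ A, Sp F P (f i)) :
    Sp F P (∑ i ∈ A, f i) := by
  rw [sp_iff]
  exact Submodule.sum_mem _ fun i hi => (h i hi).to_span

lemma Sp.mul (hmul : ∀ a b, P a → P b → P (a * b)) {x y : G} (hx : Sp F P x) (hy : Sp F P y) :
    Sp F P (x * y) := by
  obtain ⟨n, u, c, hu, rfl⟩ := hx
  obtain ⟨n', u', c', hu', rfl⟩ := hy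
  rw [Finset.sum_mul]
  refine Sp.sum _ _ fun i _ => ?_
  rw [Finset.mul_sum]
  refine Sp.sum _ _ fun j _ => ?_
  have h1 : (c i : G) * u i * ((c' j : G) * u' j) = ((c i : G) * (c' j : G)) * (u i * u' j) := by
    ring
  rw [h1]
  exact Sp.smul (F.mul_mem (c i).2 (c' j).2) (Sp.of (hmul _ _ (hu i) (hu' j)))

lemma Sp.pow (h1 : P 1) (hmul : ∀ a b, P a → P b → P (a * b)) {x : G} (hx : Sp F P x) (n : ℕ) :
    Sp F P (x ^ n) := by
  induction n with
  | zero => rw [pow_zero]; exact Sp.of h1
  | succ n ih => rw [pow_succ]; exact ih.mul hmul hx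

lemma Sp.mono {P' : G → Prop} (h : ∀ a, P a → P' a) {x : G} (hx : Sp F P x) : Sp F P' x := by
  obtain ⟨n, u, c, hu, hs⟩ := hx
  exact ⟨n, u, c, fun i => h _ (hu i), hs⟩

end sp

variable {K : Type} [Field K] [NumberField K] {α : Type} {𝓕 : Ultrafilter α} {H : α → ℝ}

/-- **Integral germs close to sums of units at the infinite places are sums of units.** -/
theorem lemP (hH : Tendsto H 𝓕 atTop) (S : Finset (Pl K))
    (hS : ∀ w : InfinitePlace K, (Sum.inl w : Pl K) ∈ S) (Y : α → K) (hY : Mdr 𝓕 H Y)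
    (hint : ∀ t, ∀ v : HeightOneSpectrum (𝓞 K), av (Sum.inr v : Pl K) (Y t) ≤ 1)
    (R : InfinitePlace K → α → K)
    (hR : ∀ w, Sp (slowF 𝓕 K H hH) (PU 𝓕 H S) (mk 𝓕 (R w))) (η : ℝ) (hη : 0 < η)
    (happ : ∀ w, ∀ᶠ t in (𝓕 : Filter α),
      av (Sum.inl w : Pl K) (Y t - R w t) ≤ Real.exp (-(η * H t))) :
    Sp (slowF 𝓕 K H hH) (PU 𝓕 H S) (mk 𝓕 Y) := by
  classical
  by_contra hcon
  set F := slowF 𝓕 K H hH with hF
  have hP := ps hH S hS
  -- a finite set of units
  have hfin : ∀ w, ∃ T : Finset (Gm 𝓕 K), (T : Set (Gm 𝓕 K)) ⊆ {g | PU 𝓕 H S g} ∧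
      mk 𝓕 (R w) ∈ Submodule.span F (T : Set (Gm 𝓕 K)) := fun w =>
    Submodule.mem_span_finite_of_mem_span (hR w).to_span
  choose T hT1 hT2 using hfin
  set T0 : Finset (Gm 𝓕 K) := {1} ∪ Finset.univ.biUnion T with hT0
  have hT0P : ∀ g ∈ T0, PU 𝓕 H S g := by
    intro g hg
    rw [hT0, Finset.mem_union, Finset.mem_singleton, Finset.mem_biUnion] at hg
    rcases hg with rfl | ⟨w, -, hw⟩
    · exact hP.one
    · exact hT1 w hw
  have h1T0 : (1 : Gm 𝓕 K) ∈ T0 := by
    rw [hT0]
    exact Finset.mem_union_left _ (Finset.mem_singleton_self _)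
  have hTT0 : ∀ w, T w ⊆ T0 := by
    intro w g hg
    rw [hT0]
    exact Finset.mem_union_right _ (Finset.mem_biUnion.2 ⟨w, Finset.mem_univ _, hg⟩)
  obtain ⟨f, hf⟩ : ∃ f : Fin T0.card → Gm 𝓕 K, f = fun i => (T0.equivFin.symm i).1 := ⟨_, rfl⟩
  have hfP : ∀ i, PU 𝓕 H S (f i) := fun i => by
    rw [hf]
    exact hT0P _ (T0.equivFin.symm i).2
  have hfmem : ∀ g ∈ T0, ∃ i, f i = g := fun g hg => ⟨T0.equivFin ⟨g, hg⟩, by rw [hf]; simp⟩
  obtain ⟨n, idx, -, hli, hspan, -⟩ := exists_sub (F := F) f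
  have hspT : ∀ g ∈ T0, g ∈ Submodule.span F (Set.range fun i => f (idx i)) := by
    intro g hg
    obtain ⟨i, rfl⟩ := hfmem g hg
    exact hspan i
  have hn : 0 < n := by
    by_contra h0
    have hn0 : n = 0 := by omega
    subst hn0
    have h1 := hspT 1 h1T0
    rw [Set.range_eq_empty, Submodule.span_empty, Submodule.mem_bot] at h1
    exact one_ne_zero h1
  have hYn : mk 𝓕 Y ∉ Submodule.span F (Set.range fun i => f (idx i)) := by
    intro h1
    apply hcon
    rw [sp_iff]
    refine Submodule.span_mono ?_ h1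
    rintro _ ⟨i, rfl⟩
    exact hfP _
  have hli' := linearIndependent_finCons.2 ⟨hli, hYn⟩
  choose a ha1 ha2 ha3 using fun i => hfP (idx i)
  -- the approximations
  have hRc : ∀ w, ∃ c : Fin n → F, ∑ i, c i • f (idx i) = mk 𝓕 (R w) := by
    intro w
    have h1 : mk 𝓕 (R w) ∈ Submodule.span F (Set.range fun i => f (idx i)) := by
      refine Submodule.span_le.2 ?_ (hT2 w)
      intro g hg
      exact hspT g (hTT0 w hg)
    rw [Submodule.mem_span_range_iff_exists_fun] at h1
    exact h1
  choose c hc using hRc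
  choose e he1 he2 using fun w i => (c w i).2
  have hRe : ∀ w, ∀ᶠ t in (𝓕 : Filter α), R w t = ∑ i, e w i t * a i t := by
    intro w
    rw [← mk_eq, ← hc w, ← mk_sum]
    refine Finset.sum_congr rfl fun i _ => ?_
    rw [he1, ha1]
    rfl
  -- the family and the forms
  obtain ⟨g, hg⟩ : ∃ g : Fin (n + 1) → α → K, g = Fin.cons Y a := ⟨_, rfl⟩
  have hg0 : g 0 = Y := by rw [hg]; rfl
  have hgs : ∀ i : Fin n, g i.succ = a i := fun i => by rw [hg]; rfl
  obtain ⟨E, hE⟩ : ∃ E : Pl K → Fin (n + 1) → α → K, E = fun v => Fin.cons (fun _ => 1)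
    (fun i t => match v with
      | Sum.inl w => -(e w i t)
      | Sum.inr _ => 0) := ⟨_, rfl⟩
  have hE0 : ∀ v t, E v 0 t = 1 := fun v t => by rw [hE]; rfl
  have hEl : ∀ w (i : Fin n) t, E (Sum.inl w) i.succ t = -(e w i t) := fun w i t => by
    rw [hE]; rfl
  have hEr : ∀ v (i : Fin n) t, E (Sum.inr v) i.succ t = 0 := fun v i t => by rw [hE]; rfl
  have hEs : ∀ v i, Slow 𝓕 H (E v i) := by
    intro v i
    refine Fin.cases ?_ (fun j => ?_) i
    · have h1 : E v 0 = fun _ => 1 := funext fun t => hE0 v t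
      rw [h1]
      exact slow_const hH 1
    · rcases v with w | v
      · have h1 : E (Sum.inl w) j.succ = fun t => -(e w j t) := funext fun t => hEl w j t
        rw [h1]
        exact (he2 w j).neg
      · have h1 : E (Sum.inr v) j.succ = fun _ => 0 := funext fun t => hEr v j t
        rw [h1]
        exact slow_const hH 0
  obtain ⟨CY, hCY⟩ := hY
  choose Ca hCa using ha3
  have hgC : ∀ i, ∀ᶠ t in (𝓕 : Filter α), logHeight₁ (g i t) ≤ (|CY| + ∑ i, |Ca i|) * H t := by
    intro i
    refine Fin.cases ?_ (fun j => ?_) i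
    · rw [hg0]
      filter_upwards [hCY, hH_le hH 0] with t h1 h2
      refine h1.trans (mul_le_mul_of_nonneg_right ?_ h2)
      have h3 : 0 ≤ ∑ i, |Ca i| := Finset.sum_nonneg fun _ _ => abs_nonneg _
      linarith [le_abs_self CY]
    · rw [hgs]
      filter_upwards [hCa j, hH_le hH 0] with t h1 h2
      refine h1.trans (mul_le_mul_of_nonneg_right ?_ h2)
      have h3 := Finset.single_le_sum (f := fun i => |Ca i|) (fun _ _ => abs_nonneg _)
        (Finset.mem_univ j)
      have h4 : |Ca j| ≤ ∑ i, |Ca i| := h3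
      linarith [le_abs_self (Ca j), abs_nonneg CY]
  have hind : ∀ c : Fin (n + 1) → α → K, (∀ i, Slow 𝓕 H (c i)) →
      (∀ᶠ t in (𝓕 : Filter α), ∑ i, c i t * g i t = 0) →
      ∀ i, ∀ᶠ t in (𝓕 : Filter α), c i t = 0 := by
    intro c' hc' h0
    rw [Fintype.linearIndependent_iff] at hli'
    have h1 := hli' (fun i => (⟨mk 𝓕 (c' i), mk_slow.2 (hc' i)⟩ : F)) (by
      rw [← mk_eq_zero, ← mk_sum] at h0
      rw [← h0]
      refine Finset.sum_congr rfl fun i _ => ?_
      show mk 𝓕 (c' i) * _ = _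
      congr 1
      refine Fin.cases ?_ (fun j => ?_) i
      · rw [hg0]
        rfl
      · rw [hgs, ha1]
        rfl)
    intro i
    have h2 := congrArg Subtype.val (h1 i)
    rw [← mk_eq_zero]
    exact h2
  have hdpos : (0 : ℝ) < ((finrank ℚ K : ℕ) : ℝ) := by exact_mod_cast Module.finrank_pos
  have h1 := moving hH (by omega : 2 ≤ n + 1) S g _ (ht_fam g hgC) hind
    (fun v b i t => if b = 0 then E v i t else if b = i then 1 else 0)
    (fun v b i => slow_row hH 0 (E v) (hEs v) b i)
    (fun v _ => Eventually.of_forall fun t => by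
      refine row_det 0 (fun i => E v i t) ?_
      rw [hE0]
      exact one_ne_zero) ((finrank ℚ K : ℕ) * η / 2) (by positivity)
  have hallR : ∀ᶠ t in (𝓕 : Filter α), ∀ w, R w t = ∑ i, e w i t * a i t :=
    Filter.eventually_all.2 hRe
  have hallA : ∀ᶠ t in (𝓕 : Filter α), ∀ w,
      av (Sum.inl w : Pl K) (Y t - R w t) ≤ Real.exp (-(η * H t)) := Filter.eventually_all.2 happ
  have hYne : ∀ᶠ t in (𝓕 : Filter α), Y t ≠ 0 := by
    rw [← mk_ne_zero]
    intro h
    apply hYn
    rw [h]
    exact Submodule.zero_mem _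
  have hYR : ∀ w, ∀ᶠ t in (𝓕 : Filter α), Y t - R w t ≠ 0 := by
    intro w
    rw [← mk_ne_zero]
    intro h
    apply hYn
    have h2 : mk 𝓕 Y = mk 𝓕 (R w) := by
      have h3 : mk 𝓕 (fun t => Y t - R w t) = mk 𝓕 Y - mk 𝓕 (R w) := by
        rw [← map_sub]
        rfl
      rw [h3] at h
      exact sub_eq_zero.1 h
    rw [h2, ← hc w]
    exact Submodule.sum_mem _ fun i _ => Submodule.smul_mem _ _ (Submodule.subset_span ⟨i, rfl⟩)
  obtain ⟨t, h2, h3, h4, h5, h6, h7⟩ := (h1.and (hallR.and (hallA.and (hYne.and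
    ((Filter.eventually_all.2 hYR).and (hH_le hH 1)))))).exists
  -- the rows
  set Z : Pl K → K := fun v => match v with
    | Sum.inl w => Y t - R w t
    | Sum.inr _ => Y t with hZ
  have hval0 : ∀ v, ∑ i, E v i t * g i t = Z v := by
    intro v
    rw [Fin.sum_univ_succ, hE0, one_mul, hg0]
    rcases v with w | v
    · show _ = Y t - R w t
      rw [h3 w, sub_eq_add_neg, ← Finset.sum_neg_distrib]
      congr 1
      refine Finset.sum_congr rfl fun i _ => ?_
      rw [hEl, hgs, neg_mul]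
    · show _ = Y t
      have h8 : ∑ i : Fin n, E (Sum.inr v) i.succ t * g i.succ t = 0 :=
        Finset.sum_eq_zero fun i _ => by rw [hEr, zero_mul]
      rw [h8, add_zero]
  have hrow : ∀ v ∈ S, ∑ b, (Real.log (nrm (av v) (fun i => g i t)) -
      Real.log (av v (∑ i, (if b = 0 then E v i t else if b = i then 1 else 0) * g i t))) =
      (n + 1) * Real.log (nrm (av v) (fun i => g i t)) - ∑ i, Real.log (av v (a i t)) -
        Real.log (av v (Z v)) := by
    intro v _
    have h9 : ∑ i, (if (0 : Fin (n + 1)) = 0 then E v i t else if 0 = i then 1 else 0) * g i t =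
        Z v := by
      rw [← hval0 v]
      exact Finset.sum_congr rfl fun i _ => by rw [if_pos rfl]
    rw [Fin.sum_univ_succ, h9]
    have h8 : ∀ j : Fin n, Real.log (nrm (av v) (fun i => g i t)) -
        Real.log (av v (∑ i, (if j.succ = 0 then E v i t else if j.succ = i then 1 else 0) *
          g i t)) = Real.log (nrm (av v) (fun i => g i t)) - Real.log (av v (a j t)) := by
      intro j
      simp only [Fin.succ_ne_zero, if_false, ite_mul, one_mul, zero_mul, Finset.sum_ite_eq,
        Finset.mem_univ, if_true]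
      rw [hgs]
    rw [Finset.sum_congr rfl fun j _ => h8 j, Finset.sum_sub_distrib, Finset.sum_const,
      Finset.card_univ, Fintype.card_fin, nsmul_eq_mul]
    ring
  rw [Finset.sum_congr rfl fun v hv => by rw [hrow v hv]] at h2
  have hht : ∑ v ∈ S, wt v * Real.log (nrm (av v) (fun i => g i t)) =
      logHeight (fun i => g i t) := by
    refine height_S S hS _ (fun h => h5 ?_) fun v hv => ?_
    · have h8 := congrFun h 0
      rw [hg0] at h8
      exact h8
    · rcases v with w | v
      · exact absurd (hS w) hv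
      · refine le_antisymm ?_ ?_
        · obtain ⟨j, hj⟩ := exists_nrm (av (Sum.inr v : Pl K)) (Nat.succ_pos n) (fun i => g i t)
          rw [← hj]
          refine Fin.cases ?_ (fun i => ?_) j
          · rw [hg0]
            exact hint t v
          · rw [hgs]
            exact ((ha2 i t).2 _ hv).le
        · have h8 := le_nrm (av (Sum.inr v : Pl K)) (fun i => g i t)
            (Fin.succ ⟨0, hn⟩)
          refine le_trans (le_of_eq ?_) h8
          rw [hgs]
          exact ((ha2 _ t).2 _ hv).symm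
  have h8 : ∑ v ∈ S, wt v * ((n + 1) * Real.log (nrm (av v) (fun i => g i t)) -
      ∑ i, Real.log (av v (a i t)) - Real.log (av v (Z v))) =
      (n + 1) * logHeight (fun i => g i t) - ∑ v ∈ S, wt v * Real.log (av v (Z v)) := by
    have h11 : ∑ v ∈ S, wt v * ∑ i, Real.log (av v (a i t)) = 0 := by
      simp only [Finset.mul_sum]
      rw [Finset.sum_comm]
      exact Finset.sum_eq_zero fun i _ => prodU hS (ha2 i t)
    have h12 : ∀ v ∈ S, wt v * ((n + 1) * Real.log (nrm (av v) (fun i => g i t)) -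
        ∑ i, Real.log (av v (a i t)) - Real.log (av v (Z v))) =
        (n + 1) * (wt v * Real.log (nrm (av v) (fun i => g i t))) -
        wt v * ∑ i, Real.log (av v (a i t)) - wt v * Real.log (av v (Z v)) := by
      intro v _
      ring
    rw [Finset.sum_congr rfl h12, Finset.sum_sub_distrib, Finset.sum_sub_distrib,
      ← Finset.mul_sum, hht, h11]
    ring
  rw [h8] at h2
  have h9 : ∑ v ∈ S, wt v * Real.log (av v (Z v)) ≤
      (finrank ℚ K : ℕ) * (-(η * H t)) + S.toRight.card * 0 := by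
    refine sum_split S hS (fun v => Real.log (av v (Z v))) _ _ (fun w => ?_) (fun v _ => ?_)
    · have h10 : 0 < av (Sum.inl w : Pl K) (Y t - R w t) := (av _).pos_iff.2 (h6 w)
      have h11 := Real.log_le_log h10 (h4 w)
      rw [Real.log_exp] at h11
      exact h11
    · exact Real.log_nonpos ((av _).nonneg _) (hint t v)
  rw [mul_zero, add_zero] at h9
  push_cast at h2
  have h10 : 0 < (finrank ℚ K : ℝ) * η * H t := by
    have : (0 : ℝ) < H t := by linarith
    positivity
  nlinarith

end Pool.Agent.Run7.h28.HK
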