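import Mathlib
import Pool.Agent.Helper259.HtExt
import Pool.Agent.R405.Big
import Pool.Agent.Run7.h28.HK.LemP
import Pool.Agent.Run7.h28.HK.HallK

/-!
# Project HK (helper28): the action of the Galois group on germs, and a large number field
-/

set_option autoImplicit false
set_option linter.unusedSectionVars false

open Filter Topology

namespace Pool.Agent.Run7.h28.HK

open NumberField IsDedekindDomain Height Module
open Pool.Agent.W180.OP (Pl av wt nrm le_nrm nrm_pos wt_nonneg exists_nrm nrm_nonneg)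
open Pool.Agent.N750

/-- the height in an extension -/
theorem ht_hom {K L : Type} [Field K] [NumberField K] [Field L] [NumberField L] (ψ : K →+* L) :
    ∃ d : ℝ, 0 < d ∧ (finrank ℚ L : ℝ) = finrank ℚ K * d ∧
      ∀ z : K, logHeight₁ (ψ z) = d * logHeight₁ z := by
  let _ : Algebra K L := ψ.toAlgebra
  have htow : IsScalarTower ℚ K L := inferInstance
  have hfd : FiniteDimensional K L := Module.Finite.of_restrictScalars_finite ℚ K L
  refine ⟨(finrank K L : ℝ), by exact_mod_cast Module.finrank_pos, ?_, fun z => ?_⟩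
  · exact_mod_cast (finrank_mul_finrank ℚ K L).symm
  · rw [logHeight₁_eq_logHeight, logHeight₁_eq_logHeight]
    have h1 := Pool.Agent.Helper259.HtExt.logHeight_ext (K := K) (L := L) ![z, 1]
    rw [← h1]
    congr 1
    funext i
    fin_cases i
    · rfl
    · exact (map_one ψ).symm

theorem ht_aut {K : Type} [Field K] [NumberField K] (σ : K ≃ₐ[ℚ] K) (z : K) :
    logHeight₁ (σ z) = logHeight₁ z := by
  obtain ⟨d, hd, h1, h2⟩ := ht_hom (σ : K →+* K)
  have hK : (0 : ℝ) < finrank ℚ K := by exact_mod_cast Module.finrank_pos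
  have hd1 : d = 1 := by
    have h3 : (finrank ℚ K : ℝ) * d = finrank ℚ K * 1 := by linarith
    exact mul_left_cancel₀ hK.ne' h3
  have h3 := h2 z
  rw [hd1, one_mul] at h3
  exact h3

section mdr

variable {K : Type} [Field K] [NumberField K] {α : Type} {𝓕 : Ultrafilter α} {H : α → ℝ}

lemma Mdr.mul {a b : α → K} (ha : Mdr 𝓕 H a) (hb : Mdr 𝓕 H b) :
    Mdr 𝓕 H (fun t => a t * b t) := by
  obtain ⟨C, hC⟩ := ha
  obtain ⟨C', hC'⟩ := hb
  refine ⟨C + C', ?_⟩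
  filter_upwards [hC, hC'] with t h1 h2
  refine (logHeight₁_mul_le _ _).trans ?_
  rw [add_mul]
  exact add_le_add h1 h2

lemma Mdr.inv {a : α → K} (ha : Mdr 𝓕 H a) : Mdr 𝓕 H (fun t => (a t)⁻¹) := by
  obtain ⟨C, hC⟩ := ha
  exact ⟨C, hC.mono fun t ht => by rwa [logHeight₁_inv]⟩

lemma Mdr.neg {a : α → K} (ha : Mdr 𝓕 H a) : Mdr 𝓕 H (fun t => -(a t)) := by
  obtain ⟨C, hC⟩ := ha
  exact ⟨C, hC.mono fun t ht => by rwa [logHeight₁_neg]⟩

lemma Mdr.pow {a : α → K} (ha : Mdr 𝓕 H a) (n : ℕ) : Mdr 𝓕 H (fun t => a t ^ n) := by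
  obtain ⟨C, hC⟩ := ha
  refine ⟨n * C, hC.mono fun t ht => ?_⟩
  rw [logHeight₁_pow, mul_assoc]
  exact mul_le_mul_of_nonneg_left ht (Nat.cast_nonneg n)

lemma Mdr.add (hH : Tendsto H 𝓕 atTop) {a b : α → K} (ha : Mdr 𝓕 H a) (hb : Mdr 𝓕 H b) :
    Mdr 𝓕 H (fun t => a t + b t) := by
  obtain ⟨C, hC⟩ := ha
  obtain ⟨C', hC'⟩ := hb
  refine ⟨C + C' + 1, ?_⟩
  filter_upwards [hC, hC', hH_le hH (totalWeight K * Real.log 2)] with t h1 h2 h3
  have h4 := logHeight₁_add_le (a t) (b t)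
  rw [add_mul, add_mul, one_mul]
  linarith

lemma Mdr.sub (hH : Tendsto H 𝓕 atTop) {a b : α → K} (ha : Mdr 𝓕 H a) (hb : Mdr 𝓕 H b) :
    Mdr 𝓕 H (fun t => a t - b t) := by
  have h := ha.add hH hb.neg
  simpa only [← sub_eq_add_neg] using h

end mdr

section pg

variable {K : Type} [Field K] [NumberField K] {α : Type} {𝓕 : Ultrafilter α} {H : α → ℝ}

/-- germs of elements of a group, of moderate height -/
def PG (𝓕 : Ultrafilter α) (H : α → ℝ) (Γ : Subgroup Kˣ) (g : Gm 𝓕 K) : Prop :=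
  ∃ a : α → Kˣ, mk 𝓕 (fun t => (a t : K)) = g ∧ (∀ t, a t ∈ Γ) ∧ Mdr 𝓕 H (fun t => (a t : K))

variable {Γ : Subgroup Kˣ}

lemma PG.one : PG 𝓕 H Γ 1 := by
  refine ⟨fun _ => 1, ?_, fun _ => Γ.one_mem, 0, Eventually.of_forall fun t => by simp⟩
  rw [← map_one (mk 𝓕)]
  rfl

lemma PG.mul {g h : Gm 𝓕 K} (hg : PG 𝓕 H Γ g) (hh : PG 𝓕 H Γ h) : PG 𝓕 H Γ (g * h) := by
  obtain ⟨a, rfl, ha, ha'⟩ := hg
  obtain ⟨b, rfl, hb, hb'⟩ := hh
  refine ⟨fun t => a t * b t, ?_, fun t => Γ.mul_mem (ha t) (hb t), ?_⟩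
  · rw [← map_mul]
    congr 1
  · simpa only [Units.val_mul] using ha'.mul hb'

lemma PG.inv {g : Gm 𝓕 K} (hg : PG 𝓕 H Γ g) : PG 𝓕 H Γ g⁻¹ := by
  obtain ⟨a, rfl, ha, ha'⟩ := hg
  refine ⟨fun t => (a t)⁻¹, ?_, fun t => Γ.inv_mem (ha t), ?_⟩
  · rw [mk_inv]
    congr 1
    funext t
    exact Units.val_inv_eq_inv_val _
  · simpa only [Units.val_inv_eq_inv_val] using ha'.inv

lemma PG.toPU {S : Finset (Pl K)} (hΓ : ∀ g ∈ Γ, IsU S (g : K)) (g : Gm 𝓕 K)
    (hg : PG 𝓕 H Γ g) : PU 𝓕 H S g := by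
  obtain ⟨a, rfl, ha, ha'⟩ := hg
  exact ⟨_, rfl, fun t => hΓ _ (ha t), ha'⟩

lemma mk_finsum {ι : Type} (A : Finset ι) (c u : ι → α → K) :
    mk 𝓕 (fun t => ∑ i ∈ A, c i t * u i t) = ∑ i ∈ A, mk 𝓕 (c i) * mk 𝓕 (u i) := by
  simp_rw [← map_mul]
  rw [← map_sum]
  congr 1
  funext t
  rw [Finset.sum_apply]
  rfl

/-- the action of the automorphisms on the germs of sums of units -/
lemma sp_aut (hH : Tendsto H 𝓕 atTop) (σ : K ≃ₐ[ℚ] K)
    (hΓ : ∀ g ∈ Γ, Units.map (σ : K →* K) g ∈ Γ) (X : α → K)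
    (h : Sp (slowF 𝓕 K H hH) (PG 𝓕 H Γ) (mk 𝓕 X)) :
    Sp (slowF 𝓕 K H hH) (PG 𝓕 H Γ) (mk 𝓕 (fun t => σ (X t))) := by
  obtain ⟨n, u, c, hu, hs⟩ := h
  choose a ha1 ha2 ha3 using hu
  choose c' hc1 hc2 using fun i => (c i).2
  have h1 : mk 𝓕 X = mk 𝓕 (fun t => ∑ i, c' i t * (a i t : K)) := by
    rw [hs, ← mk_sum c' (fun i t => (a i t : K))]
    exact Finset.sum_congr rfl fun i _ => by rw [hc1, ha1]
  have h2 := mk_eq.1 h1
  have h3 : mk 𝓕 (fun t => σ (X t)) =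
      mk 𝓕 (fun t => ∑ i, (fun t => σ (c' i t)) t * (fun t => σ (a i t : K)) t) := by
    rw [mk_eq]
    filter_upwards [h2] with t ht
    rw [ht, map_sum]
    exact Finset.sum_congr rfl fun i _ => map_mul _ _ _
  rw [h3, ← mk_sum (fun i t => σ (c' i t)) (fun i t => σ (a i t : K))]
  refine Sp.sum _ _ fun i _ => Sp.smul ?_ (Sp.of ?_)
  · rw [mk_slow]
    intro ε hε
    filter_upwards [hc2 i ε hε] with t ht
    rwa [ht_aut]
  · refine ⟨fun t => Units.map (σ : K →* K) (a i t), ?_, fun t => hΓ _ (ha2 i t), ?_⟩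
    · rfl
    · obtain ⟨C, hC⟩ := ha3 i
      refine ⟨C, hC.mono fun t ht => ?_⟩
      show logHeight₁ (σ (a i t : K)) ≤ _
      rwa [ht_aut]

end pg

/-- a large number field in the complex numbers -/
theorem exists_L {K : Type} [Field K] [NumberField K] (φ : K →+* ℂ) (T : Finset Kˣ) (q : ℕ)
    (hq : 0 < q) : ∃ L : IntermediateField ℚ ℂ, FiniteDimensional ℚ L ∧ IsGalois ℚ L ∧
      (∃ ζ : L, IsPrimitiveRoot ζ q) ∧ ∃ ψ : K →+* L, (∀ z, ((ψ z : L) : ℂ) = φ z) ∧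
        ∀ g ∈ T, ∃ h : Lˣ, h ^ q = Units.map (ψ : K →* L) g := by
  classical
  let φ' : K →ₐ[ℚ] ℂ := φ.toRatAlgHom
  let b := Module.finBasis ℚ K
  have halg : ∀ x : K, IsAlgebraic ℚ (φ' x) := fun x =>
    (Algebra.IsAlgebraic.isAlgebraic (R := ℚ) x).algHom φ'
  have hroot : ∀ g : Kˣ, ∃ h : ℂ, h ^ q = φ' g := fun g => by
    obtain ⟨h, hh⟩ := IsAlgClosed.exists_pow_nat_eq (φ' (g : K)) hq
    exact ⟨h, hh⟩
  choose hr hhr using hroot
  obtain ⟨M, hfd, hnorm, hM⟩ := Pool.Agent.TH286.GT.GrowD.exists_field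
    ({Complex.exp (2 * Real.pi * Complex.I / q)} ∪ (Finset.univ.image fun i => φ' (b i)) ∪
      T.image hr) (by
      intro x hx
      rw [Finset.mem_union, Finset.mem_union, Finset.mem_singleton] at hx
      rcases hx with (rfl | hx) | hx
      · have h1 : IsAlgebraic ℚ ((Complex.exp (2 * Real.pi * Complex.I / q)) ^ q) := by
          rw [(Complex.isPrimitiveRoot_exp q hq.ne').pow_eq_one]
          exact isAlgebraic_one
        exact IsAlgebraic.of_pow hq h1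
      · obtain ⟨i, -, rfl⟩ := Finset.mem_image.1 hx
        exact halg _
      · obtain ⟨g, -, rfl⟩ := Finset.mem_image.1 hx
        have h1 : IsAlgebraic ℚ (hr g ^ q) := by
          rw [hhr]
          exact halg _
        exact IsAlgebraic.of_pow hq h1)
  have hmem : ∀ x : K, φ' x ∈ M := by
    intro x
    rw [← b.sum_repr x, map_sum]
    refine sum_mem fun i _ => ?_
    rw [Algebra.smul_def, map_mul, φ'.commutes, ← Algebra.smul_def]
    exact M.smul_mem (hM _ (Finset.mem_union_left _ (Finset.mem_union_right _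
      (Finset.mem_image_of_mem _ (Finset.mem_univ i)))))
  refine ⟨M, hfd, ⟨⟩, ⟨⟨Complex.exp (2 * Real.pi * Complex.I / q), hM _
    (Finset.mem_union_left _ (Finset.mem_union_left _ (Finset.mem_singleton_self _)))⟩, ?_⟩,
    (φ' : K →+* ℂ).codRestrict M.toSubfield hmem, fun z => rfl, fun g hg => ?_⟩
  · have h1 := Complex.isPrimitiveRoot_exp q hq.ne'
    exact IsPrimitiveRoot.of_map_of_injective (f := M.val) h1 M.val.injective
  · have h1 : hr g ∈ M := hM _ (Finset.mem_union_right _ (Finset.mem_image_of_mem _ hg))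
    have h2 : (⟨hr g, h1⟩ : M) ≠ 0 := by
      intro h
      have h3 : hr g = 0 := congrArg Subtype.val h
      have h4 := hhr g
      rw [h3, zero_pow hq.ne'] at h4
      exact g.ne_zero ((map_eq_zero φ').1 h4.symm)
    refine ⟨Units.mk0 _ h2, ?_⟩
    apply Units.ext
    apply Subtype.ext
    show hr g ^ q = φ' g
    exact hhr g

end Pool.Agent.Run7.h28.HK
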