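import Mathlib
import Pool.Agent.Run7.h28.HK.Gal
import Pool.Agent.Run7.h28.HK.Root

/-!
# Project HK (helper28): the inequality of Hall when only one of the numbers is a sum of units
-/

set_option autoImplicit false
set_option linter.unusedSectionVars false

open Filter Topology

namespace Pool.Agent.Run7.h28.HK

open NumberField IsDedekindDomain Height Module
open Pool.Agent.W180.OP (Pl av wt nrm le_nrm nrm_pos wt_nonneg exists_nrm nrm_nonneg)
open Pool.Agent.N750

section bad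

variable {m n : ℕ} {ε : ℝ} {M : ℕ → ℝ} {x y : ℕ → ℤ} {L : ℕ → ℝ} (hb : Bad m n ε M x y L)
include hb

/-- the bound of the difference -/
lemma Bad.hDle (t : ℕ) : |(y t : ℝ) ^ (n + 1) - (x t : ℝ) ^ (m + 1)| ≤
    Real.exp ((1 - 1 / ((m : ℝ) + 1) - 1 / ((n : ℝ) + 1) - ε) * L t) := by
  have h1 := hb.hlt t
  have h2 : 0 ≤ (t : ℝ) * (1 + Real.log (M t)) :=
    mul_nonneg (Nat.cast_nonneg t) (by linarith [hb.hlM t])
  have h3 := hb.hD1 t
  rw [← Real.exp_log (show 0 < |(y t : ℝ) ^ (n + 1) - (x t : ℝ) ^ (m + 1)| by linarith)]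
  exact Real.exp_le_exp.2 (by linarith)

/-- both numbers are large -/
lemma Bad.two (t : ℕ) (hbig : 2 * Real.log 2 < ε * L t) :
    Real.exp (L t) / 2 ≤ |(x t : ℝ)| ^ (m + 1) ∧ Real.exp (L t) / 2 ≤ |(y t : ℝ)| ^ (n + 1) := by
  have hδ : 0 < 1 / ((m : ℝ) + 1) + 1 / ((n : ℝ) + 1) := by positivity
  have hL := hb.hL0 t
  have hlog2 : 0 < Real.log 2 := Real.log_pos (by norm_num)
  have hD2 : |(y t : ℝ) ^ (n + 1) - (x t : ℝ) ^ (m + 1)| ≤ Real.exp (L t) / 2 := by
    refine (hb.hDle t).trans ?_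
    have h1 : Real.exp (L t) / 2 = Real.exp (L t - Real.log 2) := by
      rw [Real.exp_sub, Real.exp_log (by norm_num)]
    rw [h1]
    refine Real.exp_le_exp.2 ?_
    have h2 : 0 ≤ (1 / ((m : ℝ) + 1) + 1 / ((n : ℝ) + 1)) * L t := by positivity
    nlinarith
  have hmax := hb.hexpL t
  have habs := abs_le.1 (abs_abs_sub_abs_le ((y t : ℝ) ^ (n + 1)) ((x t : ℝ) ^ (m + 1)))
  rw [abs_pow, abs_pow] at habs
  constructor
  · rcases max_choice (|(x t : ℝ)| ^ (m + 1)) (|(y t : ℝ)| ^ (n + 1)) with h1 | h1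
    · rw [← h1, ← hmax]
      linarith [Real.exp_pos (L t)]
    · rw [h1] at hmax
      linarith [habs.2]
  · rcases max_choice (|(x t : ℝ)| ^ (m + 1)) (|(y t : ℝ)| ^ (n + 1)) with h1 | h1
    · rw [h1] at hmax
      linarith [habs.1]
    · rw [← h1, ← hmax]
      linarith [Real.exp_pos (L t)]

end bad

/-- the arithmetic of the approximation -/
lemma est (n : ℕ) (ε L Y D A c C' T : ℝ) (hL : 0 ≤ L) (hc : 0 < c) (hC' : 0 < C')
    (hY0 : 0 ≤ Y) (hY : Real.exp L / 2 ≤ Y ^ (n + 1))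
    (hD : D ≤ Real.exp ((1 - 1 / ((n : ℝ) + 1) - ε) * L)) (hA : A ≤ C' * Real.exp (-L))
    (hT : T * (c * Y) ^ n ≤ A + D) :
    T ≤ (2 * C' + 2) / c ^ n * Real.exp (-(min 1 ε * L)) := by
  have hn1 : (0 : ℝ) < (n : ℝ) + 1 := by positivity
  have hYpos : 0 < Y := by
    rcases hY0.eq_or_lt with h1 | h1
    · rw [← h1, zero_pow (by omega)] at hY
      linarith [Real.exp_pos L]
    · exact h1
  set κ : ℝ := 1 - 1 / ((n : ℝ) + 1) with hκ
  have hκ0 : 0 ≤ κ := by
    rw [hκ, sub_nonneg, div_le_one hn1]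
    have : (0 : ℝ) ≤ n := Nat.cast_nonneg n
    linarith
  have hκ1 : κ ≤ 1 := by
    rw [hκ]
    have : 0 < 1 / ((n : ℝ) + 1) := by positivity
    linarith
  -- `Y ^ n` is large
  have hYn : Real.exp (κ * L) / 2 ≤ Y ^ n := by
    have e1 : Real.exp L / 2 = Real.exp (L - Real.log 2) := by
      rw [Real.exp_sub, Real.exp_log (by norm_num)]
    have h1 : L - Real.log 2 ≤ (n + 1 : ℝ) * Real.log Y := by
      rw [e1] at hY
      have h1 := Real.log_le_log (Real.exp_pos _) hY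
      rw [Real.log_exp, Real.log_pow] at h1
      exact_mod_cast h1
    have h2 : κ * (L - Real.log 2) ≤ n * Real.log Y := by
      have h3 : (L - Real.log 2) / ((n : ℝ) + 1) ≤ Real.log Y := by
        rw [div_le_iff₀ hn1]
        linarith
      have h4 : (n : ℝ) * ((L - Real.log 2) / ((n : ℝ) + 1)) ≤ n * Real.log Y :=
        mul_le_mul_of_nonneg_left h3 (Nat.cast_nonneg n)
      have h5 : (n : ℝ) * ((L - Real.log 2) / ((n : ℝ) + 1)) = κ * (L - Real.log 2) := by
        rw [hκ]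
        field_simp
        ring
      linarith
    have hlog2 : 0 < Real.log 2 := Real.log_pos (by norm_num)
    have h3 : κ * L - Real.log 2 ≤ n * Real.log Y := by nlinarith
    have h4 := Real.exp_le_exp.2 h3
    rw [Real.exp_sub, Real.exp_log (by norm_num : (0 : ℝ) < 2), ← Real.log_pow,
      Real.exp_log (pow_pos hYpos n)] at h4
    exact h4
  have hE : 0 < Real.exp (κ * L) / 2 := by positivity
  have hcn : 0 < c ^ n := pow_pos hc n
  rw [mul_pow] at hT
  rcases le_or_gt T 0 with hT0 | hT0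
  · refine hT0.trans ?_
    positivity
  have h1 : T * c ^ n * (Real.exp (κ * L) / 2) ≤ A + D := by
    refine le_trans ?_ hT
    rw [← mul_assoc]
    exact mul_le_mul_of_nonneg_left hYn (by positivity)
  have h2 : A + D ≤ (2 * C' + 2) * Real.exp (-(min 1 ε * L)) * (Real.exp (κ * L) / 2) := by
    have h3 : (2 * C' + 2) * Real.exp (-(min 1 ε * L)) * (Real.exp (κ * L) / 2) =
        C' * Real.exp (κ * L - min 1 ε * L) + Real.exp (κ * L - min 1 ε * L) := by
      rw [sub_eq_add_neg, Real.exp_add]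
      ring
    rw [h3]
    refine add_le_add (hA.trans ?_) (hD.trans ?_)
    · refine mul_le_mul_of_nonneg_left (Real.exp_le_exp.2 ?_) hC'.le
      have h4 : min 1 ε * L ≤ 1 * L := mul_le_mul_of_nonneg_right (min_le_left _ _) hL
      have h5 : 0 ≤ κ * L := mul_nonneg hκ0 hL
      linarith
    · refine Real.exp_le_exp.2 ?_
      have h4 : min 1 ε * L ≤ ε * L := mul_le_mul_of_nonneg_right (min_le_right _ _) hL
      have h5 : (κ - ε) * L = κ * L - ε * L := by ring
      rw [h5]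
      linarith
  have h3 : T * c ^ n ≤ (2 * C' + 2) * Real.exp (-(min 1 ε * L)) :=
    le_of_mul_le_mul_right (h1.trans h2) hE
  rw [div_mul_eq_mul_div, le_div_iff₀ hcn]
  exact h3

variable {L : Type} [Field L] [NumberField L] [IsGalois ℚ L]

/-- the infinite places of a Galois field are conjugate -/
lemma exists_aut (v0 w : InfinitePlace L) : ∃ σ : L ≃ₐ[ℚ] L, ∀ z : L, w z = v0 (σ.symm z) := by
  obtain ⟨σ, hσ⟩ := InfinitePlace.exists_smul_eq_of_comap_eq (k := ℚ) (K := L) (w := v0) (w' := w)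
    (Subsingleton.elim _ _)
  refine ⟨σ, fun z => ?_⟩
  rw [← hσ]
  rfl

/-- **The core**: a violating sequence with `x` close to the power of a unit does not exist. -/
theorem oneCore {m n : ℕ} {ε : ℝ} {M : ℕ → ℝ} {x y : ℕ → ℤ} {H : ℕ → ℝ}
    (hbad : Bad m n ε M x y H) (ζ : L) (hζ : IsPrimitiveRoot ζ (n + 1)) (Γ : Subgroup Lˣ)
    (hΓσ : ∀ σ : L ≃ₐ[ℚ] L, ∀ g ∈ Γ, Units.map (σ : L →* L) g ∈ Γ) (S : Finset (Pl L))
    (hS : ∀ w : InfinitePlace L, (Sum.inl w : Pl L) ∈ S) (hΓS : ∀ g ∈ Γ, IsU S (g : L))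
    (v0 : InfinitePlace L) (k : ℕ) (V : ℕ → Lˣ) (hV : ∀ t, V t ∈ Γ) (u : Fin k → ℕ → Lˣ)
    (hu : ∀ i t, u i t ∈ Γ) (c : Fin k → ℕ → L) (𝓕 : Ultrafilter ℕ)
    (hH : Tendsto H 𝓕 atTop) (hc : ∀ i, Slow 𝓕 H (c i))
    (hx : ∀ t, (x t : L) = (V t : L) ^ (n + 1) + ∑ i, c i t * (u i t : L))
    (hVm : Mdr 𝓕 H (fun t => (V t : L))) (δ : ℝ) (hδ : 0 < δ)
    (hgap : ∀ᶠ t in (𝓕 : Filter ℕ), av (Sum.inl v0 : Pl L) ((x t : L) - (V t : L) ^ (n + 1)) ≤
      Real.exp (-(δ * H t)) * |(x t : ℝ)|) : False := by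
  classical
  have hε := hbad.eps
  set F := slowF 𝓕 L H hH with hF
  have hmul : ∀ a b : Gm 𝓕 L, PG 𝓕 H Γ a → PG 𝓕 H Γ b → PG 𝓕 H Γ (a * b) := fun _ _ => PG.mul
  set w : ℕ → L := fun t => (x t : L) - (V t : L) ^ (n + 1) with hw
  have hwm : Mdr 𝓕 H w := (mdr_int hbad.hL0 hbad.hxle).sub hH (hVm.pow (n + 1))
  -- the rest is a sum of moderate units
  have hwsp : Sp F (PG 𝓕 H Γ) (mk 𝓕 w) := by
    obtain ⟨J, -, hJ2, hJ3⟩ := HK.hb hH S hS c (fun i t => (u i t : L)) w hwm Finset.univ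
      (fun i _ => hc i) (fun i _ t => hΓS _ (hu i t)) (Eventually.of_forall fun t => by
        rw [hw]
        simp only
        rw [hx t]
        ring)
    rw [mk_eq.2 hJ3, mk_finsum J c (fun i t => (u i t : L))]
    exact Sp.sum _ _ fun i hi => Sp.smul (mk_slow.2 (hc i)) (Sp.of ⟨u i, rfl, hu i, hJ2 i hi⟩)
  have hVpg : PG 𝓕 H Γ (mk 𝓕 (fun t => (V t : L))) := ⟨V, rfl, hV, hVm⟩
  -- the approximate root
  obtain ⟨J, hJ⟩ := exists_nat_gt (2 / δ)
  have hJδ : 2 ≤ δ * ((J : ℝ) + 1) := by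
    rw [div_lt_iff₀ hδ] at hJ
    nlinarith
  obtain ⟨P, Q, -, hPQ⟩ := exists_P (m + 1) (n + 1) (Nat.succ_pos n) J
  obtain ⟨CQ, hCQ, hclose⟩ := root_close (L := L) (av (Sum.inl v0 : Pl L)) (m + 1) (n + 1) J P Q
    hPQ
  set R : ℕ → L := fun t => (V t : L) ^ (m + 1) * Polynomial.aeval (w t / (V t : L) ^ (n + 1)) P
    with hR
  have hRsp : Sp F (PG 𝓕 H Γ) (mk 𝓕 R) := by
    have h1 : R = (fun t => (V t : L)) ^ (m + 1) * ∑ i ∈ Finset.range (P.natDegree + 1),
        (fun _ => algebraMap ℚ L (P.coeff i)) * (w * (fun t => ((V t : L))⁻¹) ^ (n + 1)) ^ i := by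
      funext t
      rw [Pi.mul_apply, Finset.sum_apply, Pi.pow_apply, hR]
      simp only
      rw [Polynomial.aeval_eq_sum_range]
      congr 1
      refine Finset.sum_congr rfl fun i _ => ?_
      rw [Algebra.smul_def, Pi.mul_apply, Pi.pow_apply, Pi.mul_apply, Pi.pow_apply, inv_pow,
        ← div_eq_mul_inv]
    rw [h1, map_mul, map_pow, map_sum]
    refine Sp.mul hmul (Sp.pow PG.one hmul (Sp.of hVpg) _) (Sp.sum _ _ fun i _ => ?_)
    rw [map_mul]
    refine Sp.smul (mk_slow.2 (slow_const hH _)) ?_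
    rw [map_pow, map_mul, map_pow]
    refine Sp.pow PG.one hmul (Sp.mul hmul hwsp (Sp.pow PG.one hmul (Sp.of ?_) _)) _
    have h2 := hVpg.inv
    rwa [mk_inv] at h2
  -- the closest root
  obtain ⟨c0, hc0, hcl⟩ := closest (av (Sum.inl v0 : Pl L)) n ζ hζ
  have hz : ∃ z : Polynomial.nthRootsFinset (n + 1) (1 : L), ∀ᶠ t in (𝓕 : Filter ℕ),
      av (Sum.inl v0 : Pl L) (R t - (z : L) * (y t : L)) *
        (c0 * av (Sum.inl v0 : Pl L) (y t : L)) ^ n ≤
        av (Sum.inl v0 : Pl L) (R t ^ (n + 1) - (y t : L) ^ (n + 1)) := by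
    rw [← Ultrafilter.eventually_exists_iff]
    refine Eventually.of_forall fun t => ?_
    obtain ⟨z, hz1, hz2⟩ := hcl (R t) (y t : L)
    exact ⟨⟨z, (Polynomial.mem_nthRootsFinset (Nat.succ_pos n) 1).2 hz1⟩, hz2⟩
  obtain ⟨⟨z, hz1⟩, hz2⟩ := hz
  rw [Polynomial.mem_nthRootsFinset (Nat.succ_pos n)] at hz1
  have hz0 : z ≠ 0 := by
    rintro rfl
    rw [zero_pow (Nat.succ_ne_zero n)] at hz1
    exact zero_ne_one hz1
  have hzav : av (Sum.inl v0 : Pl L) z = 1 := by
    have h1 : av (Sum.inl v0 : Pl L) z ^ (n + 1) = 1 := by rw [← map_pow, hz1, map_one]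
    exact (pow_eq_one_iff_of_nonneg ((av _).nonneg _) (Nat.succ_ne_zero n)).1 h1
  -- the approximation
  set η : ℝ := min 1 ε / 2 with hη
  have hηpos : 0 < η := by
    have : 0 < min 1 ε := lt_min one_pos hε
    positivity
  set C' : ℝ := CQ * (2 ^ (m + 1) * 2 ^ (J + 1)) with hC'
  have hC'pos : 0 < C' := by positivity
  have happ : ∀ᶠ t in (𝓕 : Filter ℕ), av (Sum.inl v0 : Pl L) ((y t : L) - z⁻¹ * R t) ≤
      Real.exp (-(η * H t)) := by
    filter_upwards [hz2, hgap, hH_le hH (2 * Real.log 2 / ε + 1), hH_le hH (Real.log 2 / δ),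
      hH_le hH (Real.log ((2 * C' + 2) / c0 ^ n) / η)] with t h1 h2 h3 h4 h5
    have hbig : 2 * Real.log 2 < ε * H t := by
      have h6 : 2 * Real.log 2 / ε < H t := by linarith
      rw [div_lt_iff₀ hε] at h6
      linarith
    obtain ⟨hX, hY⟩ := hbad.two t hbig
    have hXle : |(x t : ℝ)| ^ (m + 1) ≤ Real.exp (H t) := by
      rw [hbad.hexpL]
      exact le_max_left _ _
    have hHt := hbad.hL0 t
    -- `w` is small
    have hexp : Real.exp (-(δ * H t)) ≤ 1 / 2 := by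
      rw [div_le_iff₀ hδ] at h4
      have h6 : Real.exp (-(δ * H t)) ≤ Real.exp (-Real.log 2) :=
        Real.exp_le_exp.2 (by linarith)
      rw [Real.exp_neg (Real.log 2), Real.exp_log (by norm_num)] at h6
      rw [one_div]
      exact h6
    have hX0 : 0 ≤ |(x t : ℝ)| := abs_nonneg _
    have hwx : av (Sum.inl v0 : Pl L) (w t) ≤ 1 / 2 * |(x t : ℝ)| :=
      h2.trans (mul_le_mul_of_nonneg_right hexp hX0)
    have hv1 : av (Sum.inl v0 : Pl L) ((V t : L) ^ (n + 1)) ≤ 2 * |(x t : ℝ)| := by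
      have h6 : (V t : L) ^ (n + 1) = (x t : L) - w t := by
        rw [hw]
        ring
      rw [h6]
      refine ((av (Sum.inl v0 : Pl L)).sub_le_add _ _).trans ?_
      rw [av_inf]
      linarith
    have hv2 : |(x t : ℝ)| ≤ 2 * av (Sum.inl v0 : Pl L) ((V t : L) ^ (n + 1)) := by
      have h6 : (x t : L) = (V t : L) ^ (n + 1) + w t := by
        rw [hw]
        ring
      have h7 := (av (Sum.inl v0 : Pl L)).add_le ((V t : L) ^ (n + 1)) (w t)
      rw [← h6, av_inf] at h7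
      linarith
    set r : ℝ := 2 * Real.exp (-(δ * H t)) with hr
    have hr1 : r ≤ 1 := by rw [hr]; linarith
    have hr0 : 0 ≤ r := by positivity
    have hwr : av (Sum.inl v0 : Pl L) (w t) ≤
        r * av (Sum.inl v0 : Pl L) ((V t : L) ^ (n + 1)) := by
      refine h2.trans ?_
      rw [hr]
      have h6 := mul_le_mul_of_nonneg_left hv2 (Real.exp_pos (-(δ * H t))).le
      linarith
    have h6 := hclose (V t : L) (w t) (V t).ne_zero r hr1 hwr
    have h7 : (V t : L) ^ (n + 1) + w t = (x t : L) := by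
      rw [hw]
      ring
    rw [h7] at h6
    have hA : av (Sum.inl v0 : Pl L) (R t ^ (n + 1) - (x t : L) ^ (m + 1)) ≤
        C' * Real.exp (-(H t)) := by
      refine h6.trans ?_
      have h8 : av (Sum.inl v0 : Pl L) ((V t : L) ^ (n + 1)) ^ (m + 1) ≤
          2 ^ (m + 1) * Real.exp (H t) := by
        calc av (Sum.inl v0 : Pl L) ((V t : L) ^ (n + 1)) ^ (m + 1) ≤
              (2 * |(x t : ℝ)|) ^ (m + 1) := pow_le_pow_left₀ ((av _).nonneg _) hv1 _
          _ = 2 ^ (m + 1) * |(x t : ℝ)| ^ (m + 1) := mul_pow _ _ _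
          _ ≤ 2 ^ (m + 1) * Real.exp (H t) := mul_le_mul_of_nonneg_left hXle (by positivity)
      have h9 : r ^ (J + 1) ≤ 2 ^ (J + 1) * Real.exp (-(2 * H t)) := by
        rw [hr, mul_pow, ← Real.exp_nat_mul]
        refine mul_le_mul_of_nonneg_left (Real.exp_le_exp.2 ?_) (by positivity)
        push_cast
        have h10 : 2 * H t ≤ δ * ((J : ℝ) + 1) * H t := mul_le_mul_of_nonneg_right hJδ hHt
        linarith
      calc CQ * (av (Sum.inl v0 : Pl L) ((V t : L) ^ (n + 1)) ^ (m + 1) * r ^ (J + 1)) ≤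
            CQ * ((2 ^ (m + 1) * Real.exp (H t)) * (2 ^ (J + 1) * Real.exp (-(2 * H t)))) := by
              refine mul_le_mul_of_nonneg_left ?_ hCQ.le
              exact mul_le_mul h8 h9 (by positivity) (by positivity)
        _ = C' * Real.exp (-(H t)) := by
              have h10 : Real.exp (-(H t)) = Real.exp (H t) * Real.exp (-(2 * H t)) := by
                rw [← Real.exp_add]
                congr 1
                ring
              rw [h10, hC']
              ring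
    -- the difference
    have hsum : av (Sum.inl v0 : Pl L) (R t ^ (n + 1) - (y t : L) ^ (n + 1)) ≤
        av (Sum.inl v0 : Pl L) (R t ^ (n + 1) - (x t : L) ^ (m + 1)) +
          |(y t : ℝ) ^ (n + 1) - (x t : ℝ) ^ (m + 1)| := by
      have h8 : R t ^ (n + 1) - (y t : L) ^ (n + 1) = (R t ^ (n + 1) - (x t : L) ^ (m + 1)) -
          (((y t ^ (n + 1) - x t ^ (m + 1) : ℤ)) : L) := by
        push_cast
        ring
      rw [h8]
      refine ((av (Sum.inl v0 : Pl L)).sub_le_add _ _).trans (le_of_eq ?_)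
      rw [av_inf]
      push_cast
      rfl
    have hT := h1.trans hsum
    rw [av_inf] at hT
    have hDle : |(y t : ℝ) ^ (n + 1) - (x t : ℝ) ^ (m + 1)| ≤
        Real.exp ((1 - 1 / ((n : ℝ) + 1) - ε) * H t) := by
      refine (hbad.hDle t).trans (Real.exp_le_exp.2 ?_)
      have h8 : 0 ≤ 1 / ((m : ℝ) + 1) * H t := by positivity
      nlinarith
    have h8 := est n ε (H t) |(y t : ℝ)| _ _ c0 C' _ hHt hc0 hC'pos (abs_nonneg _) hY hDle hA hT
    -- conclusion
    have h9 : av (Sum.inl v0 : Pl L) ((y t : L) - z⁻¹ * R t) =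
        av (Sum.inl v0 : Pl L) (R t - z * (y t : L)) := by
      have h10 : R t - z * (y t : L) = -z * ((y t : L) - z⁻¹ * R t) := by
        field_simp
        ring
      rw [h10, map_mul, map_neg_eq_map, hzav, one_mul]
    rw [h9]
    refine h8.trans ?_
    have h10 : (2 * C' + 2) / c0 ^ n ≤ Real.exp (η * H t) := by
      rw [div_le_iff₀ hηpos] at h5
      have h11 : 0 < (2 * C' + 2) / c0 ^ n := by positivity
      rw [← Real.exp_log h11]
      exact Real.exp_le_exp.2 (by linarith)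
    calc (2 * C' + 2) / c0 ^ n * Real.exp (-(min 1 ε * H t)) ≤
          Real.exp (η * H t) * Real.exp (-(min 1 ε * H t)) :=
            mul_le_mul_of_nonneg_right h10 (Real.exp_pos _).le
      _ = Real.exp (-(η * H t)) := by
            rw [← Real.exp_add]
            congr 1
            rw [hη]
            ring
  -- the conjugates
  have hR' : Sp F (PG 𝓕 H Γ) (mk 𝓕 (fun t => z⁻¹ * R t)) := by
    have h1 : mk 𝓕 (fun t => z⁻¹ * R t) = mk 𝓕 (fun _ => z⁻¹) * mk 𝓕 R := by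
      rw [← map_mul]
      rfl
    rw [h1]
    exact Sp.smul (mk_slow.2 (slow_const hH _)) hRsp
  choose σ hσ using exists_aut v0
  have hysp : Sp F (PU 𝓕 H S) (mk 𝓕 (fun t => (y t : L))) := by
    refine lemP hH S hS (fun t => (y t : L)) (mdr_int hbad.hL0 hbad.hyle)
      (fun t v => av_int v _) (fun w t => σ w (z⁻¹ * R t))
      (fun w => Sp.mono (PG.toPU hΓS) (sp_aut hH (σ w) (hΓσ (σ w)) _ hR')) η hηpos fun w => ?_
    filter_upwards [happ] with t ht
    refine le_trans (le_of_eq ?_) ht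
    show w ((y t : L) - σ w (z⁻¹ * R t)) = v0 ((y t : L) - z⁻¹ * R t)
    rw [hσ w, map_sub, AlgEquiv.symm_apply_apply, map_intCast]
  have hxsp : Sp F (PU 𝓕 H S) (mk 𝓕 (fun t => (x t : L))) := by
    have h1 : mk 𝓕 (fun t => (x t : L)) = mk 𝓕 (fun t => (V t : L)) ^ (n + 1) + mk 𝓕 w := by
      rw [← map_pow, ← map_add]
      congr 1
      funext t
      rw [Pi.add_apply, Pi.pow_apply, hw]
      simp only
      ring
    rw [h1]
    exact Sp.mono (PG.toPU hΓS) ((Sp.pow PG.one hmul (Sp.of hVpg) _).add hwsp)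
  exact bad_false hbad 𝓕 S hS hH hxsp hysp

end Pool.Agent.Run7.h28.HK
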