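import Mathlib
import Pool.Agent.Run7.h28.HK.HallK

/-!
# Project HK (helper28): the inequality of Hall for sums of elements of a finitely generated group of
algebraic numbers
-/

set_option autoImplicit false
set_option linter.unusedSectionVars false

open Filter Topology

namespace Pool.Agent.Run7.h28.HK

open NumberField IsDedekindDomain Height Module
open Pool.Agent.W180.OP (Pl av wt nrm le_nrm nrm_pos wt_nonneg exists_nrm nrm_nonneg)
open Pool.Agent.N750

/-- the elements of a finitely generated group are units outside a finite set of places -/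
theorem exists_S {K : Type} [Field K] [NumberField K] (Γ : Subgroup Kˣ) (hΓ : Γ.FG) :
    ∃ S : Finset (Pl K), (∀ w : InfinitePlace K, (Sum.inl w : Pl K) ∈ S) ∧
      ∀ g ∈ Γ, IsU S (g : K) := by
  classical
  obtain ⟨T, hT⟩ := hΓ
  have hfin : ∀ g : Kˣ, {v : HeightOneSpectrum (𝓞 K) |
      nrm (Pool.Agent.W180.OP.fv v) (fun _ : Fin 1 => (g : K)) ≠ 1}.Finite := fun g =>
    Pool.Agent.R405.nrm_finite _ fun h => g.ne_zero (congrFun h 0)
  set S : Finset (Pl K) := Finset.univ.image (fun w : InfinitePlace K => (Sum.inl w : Pl K)) ∪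
    T.biUnion fun g => (hfin g).toFinset.image fun v => (Sum.inr v : Pl K) with hS
  refine ⟨S, fun w => ?_, fun g hg => ?_⟩
  · rw [hS]
    exact Finset.mem_union_left _ (Finset.mem_image_of_mem _ (Finset.mem_univ _))
  · rw [← hT] at hg
    induction hg using Subgroup.closure_induction with
    | mem g hg =>
      refine ⟨g.ne_zero, fun v hv => ?_⟩
      rcases v with w | v
      · exact absurd (Finset.mem_union_left _ (Finset.mem_image_of_mem _ (Finset.mem_univ w))) hv
      · by_contra hne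
        apply hv
        rw [hS]
        refine Finset.mem_union_right _ (Finset.mem_biUnion.2 ⟨g, hg, ?_⟩)
        refine Finset.mem_image_of_mem _ ((Set.Finite.mem_toFinset _).2 ?_)
        show nrm (Pool.Agent.W180.OP.fv v) (fun _ : Fin 1 => (g : K)) ≠ 1
        unfold nrm
        rw [ciSup_const]
        exact hne
    | one => exact IsU.one S
    | mul a b _ _ ha hb =>
      rw [Units.val_mul]
      exact ha.mul hb
    | inv a _ ha =>
      rw [Units.val_inv_eq_inv_val]
      exact ha.inv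

/-- from logarithms to powers -/
lemma to_pow (m n : ℕ) (ε C : ℝ) :
    ∃ K' : ℝ, 0 < K' ∧ ∀ M : ℝ, 1 ≤ M → ∀ x y : ℤ, y ^ (n + 1) ≠ x ^ (m + 1) →
      (1 - 1 / ((m : ℝ) + 1) - 1 / ((n : ℝ) + 1) - ε) *
          Real.log (max (|(x : ℝ)| ^ (m + 1)) (|(y : ℝ)| ^ (n + 1))) ≤
        C * (1 + Real.log M) + Real.log |(y : ℝ) ^ (n + 1) - (x : ℝ) ^ (m + 1)| →
      (max (|(x : ℝ)| ^ (m + 1)) (|(y : ℝ)| ^ (n + 1))) ^
          (1 - 1 / ((m : ℝ) + 1) - 1 / ((n : ℝ) + 1) - ε) ≤
        (K' * M) ^ K' * |(y : ℝ) ^ (n + 1) - (x : ℝ) ^ (m + 1)| := by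
  refine ⟨max C 0 + Real.exp 1, by positivity, ?_⟩
  intro M hM x y hne h
  set K : ℝ := max C 0 + Real.exp 1 with hK
  set Z : ℝ := max (|(x : ℝ)| ^ (m + 1)) (|(y : ℝ)| ^ (n + 1)) with hZ
  set D : ℝ := |(y : ℝ) ^ (n + 1) - (x : ℝ) ^ (m + 1)| with hD
  have hD1 : 1 ≤ D := by
    have h1 : (1 : ℤ) ≤ |y ^ (n + 1) - x ^ (m + 1)| := Int.one_le_abs (sub_ne_zero.2 hne)
    have h2 : ((1 : ℤ) : ℝ) ≤ ((|y ^ (n + 1) - x ^ (m + 1)| : ℤ) : ℝ) := by exact_mod_cast h1
    push_cast at h2
    exact h2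
  have hZ0 : 0 < Z := by
    by_contra h0
    have h1 : |(x : ℝ)| ^ (m + 1) ≤ Z := le_max_left _ _
    have h2 : |(y : ℝ)| ^ (n + 1) ≤ Z := le_max_right _ _
    have h3 : |(x : ℝ)| ^ (m + 1) = 0 := le_antisymm (by linarith) (by positivity)
    have h4 : |(y : ℝ)| ^ (n + 1) = 0 := le_antisymm (by linarith) (by positivity)
    have h5 : x = 0 := by
      have := (pow_eq_zero_iff (Nat.succ_ne_zero m)).1 h3
      exact_mod_cast abs_eq_zero.1 this
    have h6 : y = 0 := by
      have := (pow_eq_zero_iff (Nat.succ_ne_zero n)).1 h4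
      exact_mod_cast abs_eq_zero.1 this
    exact hne (by rw [h5, h6, zero_pow (Nat.succ_ne_zero n), zero_pow (Nat.succ_ne_zero m)])
  have he1 : (1 : ℝ) < Real.exp 1 := by
    have := Real.add_one_lt_exp (show (1 : ℝ) ≠ 0 by norm_num)
    linarith
  have hKe : Real.exp 1 ≤ K := by rw [hK]; linarith [le_max_right C 0]
  have hKM : 0 < K * M := by
    have : 0 < K := by linarith
    positivity
  have hlogKM : 1 + Real.log M ≤ Real.log (K * M) := by
    rw [Real.log_mul (by linarith) (by linarith)]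
    have h1 : 1 ≤ Real.log K := by
      rw [← Real.log_exp 1]
      exact Real.log_le_log (Real.exp_pos _) hKe
    linarith
  have hlM : 0 ≤ 1 + Real.log M := by linarith [Real.log_nonneg hM]
  have h1 : C * (1 + Real.log M) ≤ K * Real.log (K * M) := by
    have h2 : C ≤ K := by rw [hK]; linarith [le_max_left C 0]
    have h3 : 0 ≤ K := by linarith
    calc C * (1 + Real.log M) ≤ K * (1 + Real.log M) := mul_le_mul_of_nonneg_right h2 hlM
      _ ≤ K * Real.log (K * M) := mul_le_mul_of_nonneg_left hlogKM h3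
  rw [Real.rpow_def_of_pos hZ0, Real.rpow_def_of_pos hKM]
  have h2 : D = Real.exp (Real.log D) := (Real.exp_log (by linarith)).symm
  rw [h2, ← Real.exp_add]
  refine Real.exp_le_exp.2 ?_
  linarith

/-- **The inequality of Hall for sums of elements of a finitely generated group.** -/
theorem hallFG {K : Type} [Field K] [NumberField K] (Γ : Subgroup Kˣ) (hΓ : Γ.FG) (p q k : ℕ)
    (hp : 0 < p) (hq : 0 < q) (ε : ℝ) (hε : 0 < ε) :
    ∃ C : ℝ, 0 < C ∧ ∀ M : ℝ, 1 ≤ M → ∀ (u v : Fin k → Γ) (a b : Fin k → K),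
      (∀ j, mulHeight₁ (a j) ≤ M) → (∀ j, mulHeight₁ (b j) ≤ M) → ∀ x y : ℤ,
      (x : K) = ∑ j, a j * ((u j : Kˣ) : K) → (y : K) = ∑ j, b j * ((v j : Kˣ) : K) →
      y ^ q ≠ x ^ p →
      (max (|(x : ℝ)| ^ p) (|(y : ℝ)| ^ q)) ^ (1 - 1 / (p : ℝ) - 1 / (q : ℝ) - ε) ≤
        (C * M) ^ C * |(y : ℝ) ^ q - (x : ℝ) ^ p| := by
  obtain ⟨m, rfl⟩ : ∃ m, p = m + 1 := ⟨p - 1, (Nat.sub_add_cancel hp).symm⟩
  obtain ⟨n, rfl⟩ : ∃ n, q = n + 1 := ⟨q - 1, (Nat.sub_add_cancel hq).symm⟩
  obtain ⟨S, hS, hΓS⟩ := exists_S Γ hΓ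
  obtain ⟨C, hC⟩ := hallK m n (k + k) S hS ε hε
  obtain ⟨K', hK', h⟩ := to_pow m n ε C
  refine ⟨K', hK', fun M hM u v a b ha hb x y hx hy hne => ?_⟩
  have hlog : ∀ z : K, mulHeight₁ z ≤ M → logHeight₁ z ≤ 1 + Real.log M := by
    intro z hz
    rw [logHeight₁_eq_log_mulHeight₁]
    have h1 := Real.log_le_log (mulHeight₁_pos z) hz
    linarith
  have h0 : logHeight₁ (0 : K) ≤ 1 + Real.log M := by
    rw [logHeight₁_zero]
    linarith [Real.log_nonneg hM]
  have h1 := hC M hM (Fin.append (fun j => ((u j : Kˣ) : K)) (fun j => ((v j : Kˣ) : K)))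
    (Fin.append a (fun _ => 0)) (Fin.append (fun _ => 0) b) (by
      intro j
      refine Fin.addCases (fun i => ?_) (fun i => ?_) j
      · rw [Fin.append_left]
        exact hΓS _ (u i).2
      · rw [Fin.append_right]
        exact hΓS _ (v i).2) (by
      intro j
      refine Fin.addCases (fun i => ?_) (fun i => ?_) j
      · rw [Fin.append_left]
        exact hlog _ (ha i)
      · rw [Fin.append_right]
        exact h0) (by
      intro j
      refine Fin.addCases (fun i => ?_) (fun i => ?_) j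
      · rw [Fin.append_left]
        exact h0
      · rw [Fin.append_right]
        exact hlog _ (hb i)) x y (by
      rw [hx, Fin.sum_univ_add]
      simp only [Fin.append_left, Fin.append_right, zero_mul, Finset.sum_const_zero, add_zero]) (by
      rw [hy, Fin.sum_univ_add]
      simp only [Fin.append_left, Fin.append_right, zero_mul, Finset.sum_const_zero, zero_add]) hne
  have h2 := h M hM x y hne h1
  push_cast
  exact h2

end Pool.Agent.Run7.h28.HK
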