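import Mathlib
import Pool.Agent.Run7.h28.HK.One
import Pool.Agent.Run7.h28.HK.Fin1

/-!
# Project HK (helper28): the inequality of Hall with one arbitrary number
-/

set_option autoImplicit false
set_option linter.unusedSectionVars false

open Filter Topology

namespace Pool.Agent.Run7.h28.HK

open NumberField IsDedekindDomain Height Module
open Pool.Agent.W180.OP (Pl av wt nrm le_nrm nrm_pos wt_nonneg exists_nrm nrm_nonneg)
open Pool.Agent.N750

/-- every element of the group generated by `T` is a power of an element of a group which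
contains roots of the members of `T` -/
lemma exists_pow {G G' : Type} [CommGroup G] [CommGroup G'] (f : G →* G') (T : Set G) (q : ℕ)
    (Δ : Subgroup G') (h : ∀ g ∈ T, ∃ z ∈ Δ, z ^ q = f g) (g : G) (hg : g ∈ Subgroup.closure T) :
    ∃ z ∈ Δ, z ^ q = f g := by
  induction hg using Subgroup.closure_induction with
  | mem g hg => exact h g hg
  | one => exact ⟨1, Δ.one_mem, by rw [one_pow, map_one]⟩
  | mul a b _ _ ha hb =>
    obtain ⟨z, hz, h1⟩ := ha
    obtain ⟨z', hz', h2⟩ := hb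
    exact ⟨z * z', Δ.mul_mem hz hz', by rw [mul_pow, h1, h2, map_mul]⟩
  | inv a _ ha =>
    obtain ⟨z, hz, h1⟩ := ha
    exact ⟨z⁻¹, Δ.inv_mem hz, by rw [inv_pow, h1, map_inv]⟩

/-- a group stable under the automorphisms, containing roots -/
theorem exists_Gal {K : Type} [Field K] [NumberField K] {L : Type} [Field L] [NumberField L]
    (ψ : K →+* L) (T : Finset Kˣ) (q : ℕ)
    (hroot : ∀ g ∈ T, ∃ h : Lˣ, h ^ q = Units.map (ψ : K →* L) g) :
    ∃ Δ : Subgroup Lˣ, Δ.FG ∧ (∀ σ : L ≃ₐ[ℚ] L, ∀ g ∈ Δ, Units.map (σ : L →* L) g ∈ Δ) ∧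
      ∀ g ∈ Subgroup.closure (T : Set Kˣ), ∃ z ∈ Δ, z ^ q = Units.map (ψ : K →* L) g := by
  classical
  choose! h hh using hroot
  set D : Finset Lˣ := (Finset.univ ×ˢ T).image
    fun p : (L ≃ₐ[ℚ] L) × Kˣ => Units.map (p.1 : L →* L) (h p.2) with hD
  refine ⟨Subgroup.closure (D : Set Lˣ), ⟨D, rfl⟩, ?_, ?_⟩
  · intro σ g hg
    induction hg using Subgroup.closure_induction with
    | mem g hg =>
      rw [hD, Finset.mem_coe, Finset.mem_image] at hg
      obtain ⟨⟨τ, z⟩, hz, rfl⟩ := hg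
      refine Subgroup.subset_closure ?_
      rw [hD, Finset.mem_coe, Finset.mem_image]
      rw [Finset.mem_product] at hz
      refine ⟨(σ * τ, z), ?_, ?_⟩
      · rw [Finset.mem_product]
        exact ⟨Finset.mem_univ _, hz.2⟩
      · apply Units.ext
        rfl
    | one =>
      rw [map_one]
      exact Subgroup.one_mem _
    | mul a b _ _ ha hb =>
      rw [map_mul]
      exact Subgroup.mul_mem _ ha hb
    | inv a _ ha =>
      rw [map_inv]
      exact Subgroup.inv_mem _ ha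
  · intro g hg
    refine exists_pow (Units.map (ψ : K →* L)) (T : Set Kˣ) q _ (fun g hg => ?_) g hg
    refine ⟨h g, Subgroup.subset_closure ?_, hh g hg⟩
    rw [hD, Finset.mem_coe, Finset.mem_image]
    refine ⟨(1, g), ?_, ?_⟩
    · rw [Finset.mem_product]
      exact ⟨Finset.mem_univ _, hg⟩
    · apply Units.ext
      rfl

/-- **The inequality of Hall with one arbitrary number**, logarithmic form. -/
theorem oneLog {K : Type} [Field K] [NumberField K] (φ : K →+* ℂ) (Γ : Subgroup Kˣ) (hΓ : Γ.FG)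
    (m n k : ℕ) (B δ ε : ℝ) (hδ : 0 < δ) (hε : 0 < ε) :
    ∃ C : ℝ, ∀ M : ℝ, 1 ≤ M → ∀ (v : Γ) (u : Fin k → Γ) (a : Fin k → K) (x y : ℤ),
      (∀ j, mulHeight₁ (a j) ≤ M) → (x : K) = ((v : Kˣ) : K) + ∑ j, a j * ((u j : Kˣ) : K) →
      mulHeight₁ ((v : Kˣ) : K) ≤ M * (|(x : ℝ)| + 1) ^ B →
      ‖φ ((x : K) - ((v : Kˣ) : K))‖ ≤ M * |(x : ℝ)| ^ (1 - δ) → y ^ (n + 1) ≠ x ^ (m + 1) →
      (1 - 1 / ((m : ℝ) + 1) - 1 / ((n : ℝ) + 1) - ε) *
          Real.log (max (|(x : ℝ)| ^ (m + 1)) (|(y : ℝ)| ^ (n + 1))) ≤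
        C * (1 + Real.log M) + Real.log |(y : ℝ) ^ (n + 1) - (x : ℝ) ^ (m + 1)| := by
  classical
  by_contra hcon
  push Not at hcon
  choose M hM v u a x y ha hx hv hgap hne hlt using fun t : ℕ => hcon (t : ℝ)
  obtain ⟨T, hT⟩ := hΓ
  obtain ⟨L, hfd, hgal, ⟨ζ, hζ⟩, ψ, hψ, hroot⟩ := exists_L φ T (n + 1) (Nat.succ_pos n)
  have hNF : NumberField L := ⟨⟩
  obtain ⟨Δ, hΔ, hΔσ, hpow⟩ := exists_Gal ψ T (n + 1) hroot
  rw [hT] at hpow
  obtain ⟨S, hS, hΔS⟩ := exists_S Δ hΔ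
  obtain ⟨d, hd, -, hdh⟩ := ht_hom ψ
  have hmax1 : ∀ t, 1 ≤ max (|(x t : ℝ)| ^ (m + 1)) (|(y t : ℝ)| ^ (n + 1)) := by
    intro t
    by_cases h : x t = 0
    · have h1 : y t ≠ 0 := by
        intro h2
        apply hne t
        rw [h, h2, zero_pow (by omega), zero_pow (by omega)]
      refine le_max_of_le_right (one_le_pow₀ ?_)
      exact_mod_cast Int.one_le_abs h1
    · refine le_max_of_le_left (one_le_pow₀ ?_)
      exact_mod_cast Int.one_le_abs h
  obtain ⟨H, hHdef⟩ : ∃ H : ℕ → ℝ,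
      H = fun t => Real.log (max (|(x t : ℝ)| ^ (m + 1)) (|(y t : ℝ)| ^ (n + 1))) := ⟨_, rfl⟩
  have hbad : Bad m n ε M x y H :=
    ⟨hε, hM, hne, fun t => by rw [hHdef]; exact Real.exp_log (by linarith [hmax1 t]),
      fun t => by rw [hHdef]; exact hlt t⟩
  obtain ⟨𝓕, h𝓕⟩ : ∃ 𝓕 : Ultrafilter ℕ, (𝓕 : Filter ℕ) ≤ atTop :=
    ⟨Filter.hyperfilter ℕ, Nat.hyperfilter_le_atTop⟩
  have hH := hbad.hL.mono_left h𝓕
  choose V hV1 hV2 using fun t => hpow _ (v t).2
  choose W hW1 hW2 using fun t j => hpow _ (u t j).2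
  have hV3 : ∀ t, (V t : L) ^ (n + 1) = ψ ((v t : Kˣ) : K) := fun t => by
    have h1 := congrArg Units.val (hV2 t)
    rw [Units.val_pow_eq_pow_val] at h1
    exact h1
  have hneg : ∀ {ε' : ℝ}, 0 < ε' → ∀ᶠ t in (𝓕 : Filter ℕ), 1 + Real.log (M t) ≤ ε' * H t :=
    fun hε' => (hbad.negl hε').filter_mono h𝓕
  refine oneCore hbad ζ hζ Δ hΔσ S hS hΔS (InfinitePlace.mk (L.val : L →+* ℂ)) k V hV1
    (fun j t => W t j ^ (n + 1)) (fun j t => Δ.pow_mem (hW1 t j) _) (fun j t => ψ (a t j)) 𝓕 hH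
    (fun j => hbad.slow h𝓕 hd.le fun t => ?_) (fun t => ?_) ?_ (δ / (4 * (m + 1)))
    (by positivity) ?_
  · -- coefficients
    rw [hdh]
    refine mul_le_mul_of_nonneg_left ?_ hd.le
    rw [logHeight₁_eq_log_mulHeight₁]
    have h1 := Real.log_le_log (mulHeight₁_pos (a t j)) (ha t j)
    linarith
  · -- the representation
    have h1 := congrArg ψ (hx t)
    rw [map_intCast, map_add, map_sum] at h1
    rw [h1, hV3]
    congr 1
    refine Finset.sum_congr rfl fun j _ => ?_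
    rw [map_mul]
    congr 1
    exact congrArg Units.val (hW2 t j).symm
  · -- the leading term is moderate
    refine ⟨d * (1 + |B| * 2), ?_⟩
    filter_upwards [hneg one_pos, hH_le hH (Real.log 2)] with t h1 h2
    have h3 : logHeight₁ (V t : L) ≤ logHeight₁ ((V t : L) ^ (n + 1)) := by
      rw [logHeight₁_pow]
      push_cast
      have h4 := zero_le_logHeight₁ (V t : L)
      have h5 : (0 : ℝ) ≤ n := Nat.cast_nonneg n
      nlinarith
    refine h3.trans ?_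
    rw [hV3, hdh, mul_assoc]
    refine mul_le_mul_of_nonneg_left ?_ hd.le
    rw [logHeight₁_eq_log_mulHeight₁]
    have hx1 : (1 : ℝ) ≤ |(x t : ℝ)| + 1 := by linarith [abs_nonneg (x t : ℝ)]
    have h4 := Real.log_le_log (mulHeight₁_pos _) (hv t)
    rw [Real.log_mul (by linarith [hM t]) (by positivity), Real.log_rpow (by linarith)] at h4
    have h5 : Real.log (|(x t : ℝ)| + 1) ≤ 2 * H t := by
      have h6 : |(x t : ℝ)| + 1 ≤ 2 * Real.exp (H t) := by
        have h7 := hbad.hxle t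
        have h8 := Real.one_le_exp (hbad.hL0 t)
        linarith
      have h7 := Real.log_le_log (by linarith) h6
      rw [Real.log_mul (by norm_num) (Real.exp_pos _).ne', Real.log_exp] at h7
      linarith
    have h6 : 0 ≤ Real.log (|(x t : ℝ)| + 1) := Real.log_nonneg hx1
    have h7 : B * Real.log (|(x t : ℝ)| + 1) ≤ |B| * (2 * H t) :=
      (mul_le_mul_of_nonneg_right (le_abs_self B) h6).trans
        (mul_le_mul_of_nonneg_left h5 (abs_nonneg B))
    have h8 := hbad.hlM t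
    rw [one_mul] at h1
    nlinarith
  · -- the gap
    have hδ' : 0 < δ / (4 * ((m : ℝ) + 1)) := by positivity
    filter_upwards [hneg hδ', hH_le hH (2 * Real.log 2 / ε + 1), hH_le hH (4 * Real.log 2)]
      with t h1 h2 h3
    have hbig : 2 * Real.log 2 < ε * H t := by
      have h6 : 2 * Real.log 2 / ε < H t := by linarith
      rw [div_lt_iff₀ hε] at h6
      linarith
    obtain ⟨hX, -⟩ := hbad.two t hbig
    have hX0 : 0 < |(x t : ℝ)| := by
      rcases (abs_nonneg (x t : ℝ)).eq_or_lt with h | h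
      · rw [← h, zero_pow (Nat.succ_ne_zero m)] at hX
        linarith [Real.exp_pos (H t)]
      · exact h
    have h4 : av (Sum.inl (InfinitePlace.mk (L.val : L →+* ℂ)) : Pl L)
        ((x t : L) - (V t : L) ^ (n + 1)) = ‖φ ((x t : K) - ((v t : Kˣ) : K))‖ := by
      have h5 : (x t : L) - (V t : L) ^ (n + 1) = ψ ((x t : K) - ((v t : Kˣ) : K)) := by
        rw [hV3, map_sub, map_intCast]
      rw [h5]
      show ‖((ψ ((x t : K) - ((v t : Kˣ) : K)) : L) : ℂ)‖ = _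
      rw [hψ]
    rw [h4]
    refine (hgap t).trans ?_
    have hm1 : (0 : ℝ) < (m : ℝ) + 1 := by positivity
    have h5 : (H t - Real.log 2) / ((m : ℝ) + 1) ≤ Real.log |(x t : ℝ)| := by
      rw [div_le_iff₀ hm1]
      have e1 : Real.exp (H t) / 2 = Real.exp (H t - Real.log 2) := by
        rw [Real.exp_sub, Real.exp_log (by norm_num)]
      rw [e1] at hX
      have h6 := Real.log_le_log (Real.exp_pos _) hX
      rw [Real.log_exp, Real.log_pow] at h6
      push_cast at h6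
      linarith
    have h6 : M t * |(x t : ℝ)| ^ (1 - δ) =
        Real.exp (Real.log (M t) - δ * Real.log |(x t : ℝ)|) * |(x t : ℝ)| := by
      rw [Real.exp_sub, Real.exp_log (by linarith [hM t]), Real.rpow_sub hX0, Real.rpow_one,
        mul_comm δ, ← Real.rpow_def_of_pos hX0]
      ring
    rw [h6]
    refine mul_le_mul_of_nonneg_right (Real.exp_le_exp.2 ?_) hX0.le
    have h7 : δ * ((H t - Real.log 2) / ((m : ℝ) + 1)) ≤ δ * Real.log |(x t : ℝ)| :=
      mul_le_mul_of_nonneg_left h5 hδ.le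
    have h8 : δ * ((H t - Real.log 2) / ((m : ℝ) + 1)) =
        4 * (δ / (4 * ((m : ℝ) + 1)) * (H t - Real.log 2)) := by
      field_simp
    have h9 : δ / (4 * ((m : ℝ) + 1)) * (4 * Real.log 2) ≤ δ / (4 * ((m : ℝ) + 1)) * H t :=
      mul_le_mul_of_nonneg_left h3 hδ'.le
    have h10 := hbad.hL0 t
    have h11 : 0 ≤ δ / (4 * ((m : ℝ) + 1)) * H t := mul_nonneg hδ'.le h10
    nlinarith

/-- **The inequality of Hall with one arbitrary number.** -/
theorem hallOne {K : Type} [Field K] [NumberField K] (φ : K →+* ℂ) (Γ : Subgroup Kˣ)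
    (hΓ : Γ.FG) (p q k : ℕ) (hp : 0 < p) (hq : 0 < q) (B δ ε : ℝ) (hδ : 0 < δ) (hε : 0 < ε) :
    ∃ C : ℝ, 0 < C ∧ ∀ M : ℝ, 1 ≤ M → ∀ (v : Γ) (u : Fin k → Γ) (a : Fin k → K) (x y : ℤ),
      (∀ j, mulHeight₁ (a j) ≤ M) → (x : K) = ((v : Kˣ) : K) + ∑ j, a j * ((u j : Kˣ) : K) →
      mulHeight₁ ((v : Kˣ) : K) ≤ M * (|(x : ℝ)| + 1) ^ B →
      ‖φ ((x : K) - ((v : Kˣ) : K))‖ ≤ M * |(x : ℝ)| ^ (1 - δ) → y ^ q ≠ x ^ p →
      (max (|(x : ℝ)| ^ p) (|(y : ℝ)| ^ q)) ^ (1 - 1 / (p : ℝ) - 1 / (q : ℝ) - ε) ≤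
        (C * M) ^ C * |(y : ℝ) ^ q - (x : ℝ) ^ p| := by
  obtain ⟨m, rfl⟩ : ∃ m, p = m + 1 := ⟨p - 1, (Nat.sub_add_cancel hp).symm⟩
  obtain ⟨n, rfl⟩ : ∃ n, q = n + 1 := ⟨q - 1, (Nat.sub_add_cancel hq).symm⟩
  obtain ⟨C, hC⟩ := oneLog φ Γ hΓ m n k B δ ε hδ hε
  obtain ⟨K', hK', h⟩ := to_pow m n ε C
  refine ⟨K', hK', fun M hM v u a x y ha hx hv hgap hne => ?_⟩
  have h2 := h M hM x y hne (hC M hM v u a x y ha hx hv hgap hne)
  push_cast
  exact h2

end Pool.Agent.Run7.h28.HK
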