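import Pool.Agent.Run7.h28.HK.Fin1
import Pool.Agent.Run7.h28.HK.Fin2
import Pool.Agent.Run7.h28.BV.Herm

/-! Hall's inequality for sparse integers, over all number fields of bounded discriminant. -/

open Height NumberField IsDedekindDomain

set_option autoImplicit false

namespace Pool.Agent.Run7.h28.HK

open Pool.Agent.Run7.h28.BV

/-- the integer `z` is a sum of `k` elements of `Γ` with coefficients of height at most `M` -/
def Sm {L : Type} [Field L] [NumberField L] (Γ : Subgroup Lˣ) (k : ℕ) (M : ℝ) (z : ℤ) : Prop :=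
  ∃ (u : Fin k → Lˣ) (a : Fin k → L), (∀ j, u j ∈ Γ) ∧ (∀ j, mulHeight₁ (a j) ≤ M) ∧
    (z : L) = ∑ j, a j * (u j : L)

/-- the same with a leading term and a gap after it -/
def Gp {L : Type} [Field L] [NumberField L] (φ : L →+* ℂ) (Γ : Subgroup Lˣ) (k : ℕ) (B δ M : ℝ)
    (z : ℤ) : Prop :=
  ∃ (v : Lˣ) (u : Fin k → Lˣ) (a : Fin k → L), v ∈ Γ ∧ (∀ j, u j ∈ Γ) ∧
    (∀ j, mulHeight₁ (a j) ≤ M) ∧ (z : L) = (v : L) + ∑ j, a j * (u j : L) ∧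
    mulHeight₁ (v : L) ≤ M * (|(z : ℝ)| + 1) ^ B ∧ ‖φ ((z : L) - (v : L))‖ ≤ M * |(z : ℝ)| ^ (1 - δ)

lemma scale_mono {C C' M T : ℝ} (hC : 0 < C) (hCC : C ≤ C') (hC1 : 1 ≤ C') (hM : 1 ≤ M) (hT : 0 ≤ T) :
    (C * M) ^ C * T ≤ (C' * M) ^ C' * T :=
  mul_le_mul_of_nonneg_right (bound_mono hC hCC hC1 hM le_rfl) hT

theorem hall32 {L : Type} [Field L] [NumberField L] (φ : L →+* ℂ) (Γ : Subgroup Lˣ) (hΓ : Γ.FG)
    (k : ℕ) (B δ ε : ℝ) (hδ : 0 < δ) (hε : 0 < ε) :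
    ∃ C : ℝ, 0 < C ∧ ∀ (M : ℝ) (x y : ℤ), 1 ≤ M → y ^ 2 ≠ x ^ 3 →
      ((Sm Γ k M x ∧ Sm Γ k M y) ∨ Gp φ Γ k B δ M x ∨ Gp φ Γ k B δ M y) →
      (max (|(x : ℝ)| ^ 3) (|(y : ℝ)| ^ 2)) ^ (1 / 6 - ε) ≤
        (C * M) ^ C * |(y : ℝ) ^ 2 - (x : ℝ) ^ 3| := by
  obtain ⟨C1, hC1, h1⟩ := hallFG Γ hΓ 3 2 k (by norm_num) (by norm_num) ε hε
  obtain ⟨C2, hC2, h2⟩ := hallOne φ Γ hΓ 3 2 k (by norm_num) (by norm_num) B δ ε hδ hε
  obtain ⟨C3, hC3, h3⟩ := hallOne φ Γ hΓ 2 3 k (by norm_num) (by norm_num) B δ ε hδ hε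
  have he1 : (1 - 1 / ((3 : ℕ) : ℝ) - 1 / ((2 : ℕ) : ℝ) - ε) = 1 / 6 - ε := by push_cast; ring
  have he2 : (1 - 1 / ((2 : ℕ) : ℝ) - 1 / ((3 : ℕ) : ℝ) - ε) = 1 / 6 - ε := by push_cast; ring
  rw [he1] at h1 h2
  rw [he2] at h3
  refine ⟨C1 + C2 + C3 + 1, by positivity, fun M x y hM hne h => ?_⟩
  have habs : 0 ≤ |(y : ℝ) ^ 2 - (x : ℝ) ^ 3| := abs_nonneg _
  rcases h with ⟨⟨u, a, hu, ha, hx⟩, ⟨v, b, hv, hb, hy⟩⟩ | h | h
  · have h4 := h1 M hM (fun j => ⟨u j, hu j⟩) (fun j => ⟨v j, hv j⟩) a b ha hb x y hx hy hne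
    exact h4.trans (scale_mono hC1 (by linarith) (by linarith) hM habs)
  · obtain ⟨v, u, a, hv, hu, ha, hx, hH, hg⟩ := h
    have h4 := h2 M hM ⟨v, hv⟩ (fun j => ⟨u j, hu j⟩) a x y ha hx hH hg hne
    exact h4.trans (scale_mono hC2 (by linarith) (by linarith) hM habs)
  · obtain ⟨v, u, a, hv, hu, ha, hy, hH, hg⟩ := h
    have h4 := h3 M hM ⟨v, hv⟩ (fun j => ⟨u j, hu j⟩) a y x ha hy hH hg (fun h => hne h.symm)
    rw [max_comm, abs_sub_comm] at h4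
    exact h4.trans (scale_mono hC3 (by linarith) (by linarith) hM habs)

/-- one constant for all number fields of bounded discriminant -/
theorem hallDisc (S : Finset ℕ) (D k : ℕ) (B δ ε : ℝ) (hδ : 0 < δ) (hε : 0 < ε) :
    ∃ C : ℝ, 1 ≤ C ∧ ∀ (L : IntermediateField ℚ ℂ) [NumberField L], |discr L| ≤ D →
      ∀ (M : ℝ) (x y : ℤ), 1 ≤ M → y ^ 2 ≠ x ^ 3 →
      ((Sm ((prAbove L S).unit L) k M x ∧ Sm ((prAbove L S).unit L) k M y) ∨
        Gp (algebraMap L ℂ) ((prAbove L S).unit L) k B δ M x ∨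
        Gp (algebraMap L ℂ) ((prAbove L S).unit L) k B δ M y) →
      (max (|(x : ℝ)| ^ 3) (|(y : ℝ)| ^ 2)) ^ (1 / 6 - ε) ≤
        (C * M) ^ C * |(y : ℝ) ^ 2 - (x : ℝ) ^ 3| := by
  obtain ⟨C, hC, h⟩ := uniform_disc D (fun L _ => Unit) (fun L _ => Set.univ)
    (fun L _ => Set.finite_univ)
    (fun L _ _ C => ∀ (M : ℝ) (x y : ℤ), 1 ≤ M → y ^ 2 ≠ x ^ 3 →
      ((Sm ((prAbove L S).unit L) k M x ∧ Sm ((prAbove L S).unit L) k M y) ∨
        Gp (algebraMap L ℂ) ((prAbove L S).unit L) k B δ M x ∨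
        Gp (algebraMap L ℂ) ((prAbove L S).unit L) k B δ M y) →
      (max (|(x : ℝ)| ^ 3) (|(y : ℝ)| ^ 2)) ^ (1 / 6 - ε) ≤
        (C * M) ^ C * |(y : ℝ) ^ 2 - (x : ℝ) ^ 3|)
    (fun L _ v C C' h1 h2 h3 h4 M x y a1 a2 a3 =>
      (h4 M x y a1 a2 a3).trans (scale_mono h1 h2 h3 a1 (abs_nonneg _)))
    (fun L _ v _ => hall32 (algebraMap L ℂ) _
      (Pool.Agent.H39R3.Tor.sunit_fg L _ (finite_prAbove L S)) k B δ ε hδ hε)
  exact ⟨C, hC, fun L _ hL => h L hL () (Set.mem_univ _)⟩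

lemma root_bound {t A e κ : ℝ} (ht : 0 ≤ t) (he : 0 < e) (hκ : 0 < κ) (h : t ^ e ≤ A)
    (h1 : 1 ≤ κ * e) (hA : 1 ≤ A) : t ≤ A ^ κ := by
  rcases le_total t 1 with h2 | h2
  · exact h2.trans (Real.one_le_rpow hA hκ.le)
  · calc t = t ^ (1 : ℝ) := (Real.rpow_one t).symm
      _ ≤ t ^ (e * κ) := Real.rpow_le_rpow_of_exponent_le h2 (by linarith)
      _ = (t ^ e) ^ κ := Real.rpow_mul ht _ _
      _ ≤ A ^ κ := Real.rpow_le_rpow (Real.rpow_nonneg ht _) h hκ.le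

/-- the bounds for `x` and `y` in terms of `d` -/
theorem hallBound (S : Finset ℕ) (D k : ℕ) (B δ ε : ℝ) (hδ : 0 < δ) (hε : 0 < ε) :
    ∃ C : ℝ, 1 ≤ C ∧ ∀ (L : IntermediateField ℚ ℂ) [NumberField L], |discr L| ≤ D →
      ∀ (M : ℝ) (d x y : ℤ), 1 ≤ M → d ≠ 0 → y ^ 2 = x ^ 3 + d →
      ((Sm ((prAbove L S).unit L) k M x ∧ Sm ((prAbove L S).unit L) k M y) ∨
        Gp (algebraMap L ℂ) ((prAbove L S).unit L) k B δ M x ∨
        Gp (algebraMap L ℂ) ((prAbove L S).unit L) k B δ M y) →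
      |(x : ℝ)| ≤ (C * M) ^ C * |(d : ℝ)| ^ (2 + ε) ∧ |(y : ℝ)| ≤ (C * M) ^ C * |(d : ℝ)| ^ (3 + ε) := by
  obtain ⟨e, he⟩ : ∃ e : ℝ, e = ε / (6 * (3 + ε)) := ⟨_, rfl⟩
  have he0 : 0 < e := by rw [he]; positivity
  have he1 : 1 / 6 - e = 1 / (2 * (3 + ε)) := by rw [he]; field_simp; ring
  obtain ⟨C, hC, h⟩ := hallDisc S D k B δ e hδ he0
  have hC3 : 1 ≤ C * (3 + ε) := by nlinarith
  refine ⟨C * (3 + ε), hC3, fun L _ hL M d x y hM hd hxy hyp => ?_⟩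
  have hne : y ^ 2 ≠ x ^ 3 := by
    intro h1
    apply hd
    rw [h1] at hxy
    linarith
  have h1 := h L hL M x y hM hne hyp
  have hxy' : (y : ℝ) ^ 2 - (x : ℝ) ^ 3 = d := by
    have : ((y ^ 2 : ℤ) : ℝ) = ((x ^ 3 + d : ℤ) : ℝ) := by rw [hxy]
    push_cast at this
    linarith
  rw [hxy', he1] at h1
  have hd1 : 1 ≤ |(d : ℝ)| := by
    have : 1 ≤ |d| := Int.one_le_abs hd
    exact_mod_cast this
  have hCM : 1 ≤ C * M := by nlinarith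
  have hA1 : 1 ≤ (C * M) ^ C := Real.one_le_rpow hCM (by linarith)
  have hA : 1 ≤ (C * M) ^ C * |(d : ℝ)| := by nlinarith
  have hpos : 0 < 1 / (2 * (3 + ε)) := by positivity
  have hx1 : |(x : ℝ)| ^ (3 * (1 / (2 * (3 + ε)))) ≤ (C * M) ^ C * |(d : ℝ)| := by
    refine le_trans (le_of_eq ?_) ((Real.rpow_le_rpow (by positivity) (le_max_left _ _) hpos.le).trans h1)
    rw [Real.rpow_mul (abs_nonneg _)]
    norm_num
  have hy1 : |(y : ℝ)| ^ (2 * (1 / (2 * (3 + ε)))) ≤ (C * M) ^ C * |(d : ℝ)| := by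
    refine le_trans (le_of_eq ?_) ((Real.rpow_le_rpow (by positivity) (le_max_right _ _) hpos.le).trans h1)
    rw [Real.rpow_mul (abs_nonneg _)]
    norm_num
  have hbig : ∀ κ : ℝ, 0 < κ → κ ≤ 3 + ε →
      ((C * M) ^ C * |(d : ℝ)|) ^ κ ≤ (C * (3 + ε) * M) ^ (C * (3 + ε)) * |(d : ℝ)| ^ κ := by
    intro κ hκ hκ3
    rw [Real.mul_rpow (by positivity) (by positivity)]
    refine mul_le_mul_of_nonneg_right ?_ (by positivity)
    calc ((C * M) ^ C) ^ κ = (C * M) ^ (C * κ) := (Real.rpow_mul (by positivity) _ _).symm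
      _ ≤ (C * M) ^ (C * (3 + ε)) :=
          Real.rpow_le_rpow_of_exponent_le hCM (mul_le_mul_of_nonneg_left hκ3 (by linarith))
      _ ≤ (C * (3 + ε) * M) ^ (C * (3 + ε)) := by
          refine Real.rpow_le_rpow (by positivity) ?_ (by positivity)
          nlinarith [mul_pos (by linarith : 0 < C) (by linarith : 0 < M)]
  constructor
  · have h2 := root_bound (κ := 2 + ε) (abs_nonneg _) (by positivity) (by linarith) hx1
      (by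
        rw [show (2 + ε) * (3 * (1 / (2 * (3 + ε)))) = 3 * (2 + ε) / (2 * (3 + ε)) from by ring,
          le_div_iff₀ (by positivity)]
        linarith) hA
    exact h2.trans (hbig _ (by linarith) (by linarith))
  · have h2 := root_bound (κ := 3 + ε) (abs_nonneg _) (by positivity) (by linarith) hy1
      (by
        rw [show (3 + ε) * (2 * (1 / (2 * (3 + ε)))) = 1 from by field_simp]) hA
    exact h2.trans (hbig _ (by linarith) le_rfl)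

end Pool.Agent.Run7.h28.HK
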